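import Pool.Agent.Lib.Pa76659P.PDefs
import Pool.Agent.Lib.Pa76659.Final

/-!
From the properties of the constructed oracle to the proper inclusions.
-/

set_option maxHeartbeats 4000000

namespace Pool.Agent.Lib.Pa76659P

open Pool.Agent.Lib.Pa76659

/-! ### simple programs -/

theorem exec_of_halts (C : Lang) (N : Prog) (u : ℕ → Str) (n : ℕ) (h : Halts C N u n) :
    Exec C N u (runN C n ([N], u)).2 n := by
  have := exec_shift C 0 N u _ h u
  have e1 : ∀ s0 u : ℕ → Str, mg 0 s0 u = u := by
    intro s0 u; funext r; simp [mg]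
  have e2 : ∀ P : Prog, P.shift 0 = P := by
    intro P
    induction P with
    | skip => rfl
    | push r b => rfl
    | pop r => rfl
    | query r t => rfl
    | seq p q hp hq => simp [Prog.shift, hp, hq]
    | branch r p q e hp hq he => simp [Prog.shift, hp, hq, he]
    | loop r p hp => simp [Prog.shift, hp]
  rwa [e1, e1, e2] at this

/-- `progCol` without the last query -/
def progCode (j B : ℕ) : Prog :=
  Prog.seq (cp 0 1 2) (Prog.seq (mv 2 0) (Prog.seq (Prog.push 1 true) (Prog.seq
    (Prog.push 1 true) (Prog.seq (sqN B) (Prog.seq (Prog.push 0 true) (Prog.seq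
      (Prog.loop 1 (Prog.seq (Prog.pop 1) (Prog.push 0 false))) (Prog.seq (Prog.push 0 false)
        (pushN (j + 1)))))))))

theorem exec_progCode (O : Lang) (j B : ℕ) (x e : Str) :
    Exec O (progCode j B) (st [x, [], [], [], [], e]) (st [code j B x, [], [], [], [], e])
      (12 * x.length + B * (31 * ((x.length + 2) ^ (2 ^ B) + 1) ^ 2) +
      4 * (x.length + 2) ^ (2 ^ B) + 2 * j + 50) := by
  have h1 := exec_cp (O := O) (show 0 ≠ 1 by norm_num) (show 0 ≠ 2 by norm_num)
    (show 1 ≠ 2 by norm_num) x (st [x, [], [], [], [], e]) rfl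
  rw [upd_st _ _ _ (by simp), upd_st _ _ _ (by simp), upd_st _ _ _ (by simp)] at h1
  have h2 := exec_mv (O := O) (show 2 ≠ 0 by norm_num) (x.reverse ++ [])
    (st [[], x.reverse ++ [], x.reverse ++ [], [], [], e]) rfl
  rw [upd_st _ _ _ (by simp), upd_st _ _ _ (by simp)] at h2
  have e2 : (st (([[], x.reverse ++ [], x.reverse ++ [], [], [], e].set 0
      ((x.reverse ++ []).reverse ++ st [[], x.reverse ++ [], x.reverse ++ [], [], [], e] 0)).set
        2 [])) = st [x, x.reverse, [], [], [], e] := by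
    simp [st]
  rw [e2] at h2
  have h3 := exec_push (O := O) 1 true (st [x, x.reverse, [], [], [], e])
  rw [upd_st _ _ _ (by simp)] at h3
  have h4 := exec_push (O := O) 1 true (st [x, true :: x.reverse, [], [], [], e])
  rw [upd_st _ _ _ (by simp)] at h4
  obtain ⟨w, h5, e5⟩ := exec_sqN (O := O) x e ((x.length + 2) ^ (2 ^ B)) B
    (true :: true :: x.reverse) (by simp)
  have e5' : w.length = (x.length + 2) ^ (2 ^ B) := by rw [e5]; simp
  have h6 := exec_push (O := O) 0 true (st [x, w, [], [], [], e])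
  rw [upd_st _ _ _ (by simp)] at h6
  have h7 := exec_padl (O := O) e w (true :: x)
  have h8 := exec_push (O := O) 0 false
    (st [List.replicate w.length false ++ true :: x, [], [], [], [], e])
  rw [upd_st _ _ _ (by simp)] at h8
  have h9 := exec_pushN (O := O) e (j + 1)
    (false :: (List.replicate w.length false ++ true :: x))
  have e9 : List.replicate (j + 1) true ++ (false :: (List.replicate w.length false ++ true :: x))
      = code j B x := by
    rw [code, e5', List.replicate_succ]; simp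
  rw [e9] at h9
  have hall := h1.seq (h2.seq (h3.seq (h4.seq (h5.seq (h6.seq (h7.seq (h8.seq h9)))))))
  refine hall.mono ?_
  rw [e5']
  simp only [List.append_nil, List.length_reverse]
  omega

/-- the time of `progCode` -/
noncomputable def tCode (j B : ℕ) : Polynomial ℕ :=
  12 * Polynomial.X + Polynomial.C B * (31 *
    ((Polynomial.X + 2) ^ (2 ^ B) + 1) ^ 2) + 4 * (Polynomial.X + 2) ^ (2 ^ B) +
    Polynomial.C (2 * j) + 50

theorem tCode_eval (j B n : ℕ) : (tCode j B).eval n =
    12 * n + B * (31 * ((n + 2) ^ (2 ^ B) + 1) ^ 2) +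
      4 * (n + 2) ^ (2 ^ B) + 2 * j + 50 := by
  simp only [tCode, Polynomial.eval_add, Polynomial.eval_mul, Polynomial.eval_X,
    Polynomial.eval_ofNat, Polynomial.eval_one, Polynomial.eval_C, Polynomial.eval_pow]

/-- the length of `code` -/
noncomputable def lCode (j B : ℕ) : Polynomial ℕ :=
  Polynomial.C (j + 3) + (Polynomial.X + 2) ^ (2 ^ B) + Polynomial.X

theorem lCode_eval (j B : ℕ) (x : Str) : (lCode j B).eval x.length = (code j B x).length := by
  rw [code_length]
  simp only [lCode, Polynomial.eval_add, Polynomial.eval_X, Polynomial.eval_ofNat,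
    Polynomial.eval_C, Polynomial.eval_pow]

theorem NPO_code {B' M : Lang} (h : M ∈ NPO B') (j B : ℕ) :
    (fun x => M (code j B x)) ∈ NPO B' := by
  obtain ⟨V, p, q, hM⟩ := h
  refine ⟨Prog.seq (mv 1 5) (Prog.seq (progCode j B) (Prog.seq (mv 5 1) V)),
    10 * q.comp (lCode j B) + tCode j B + p.comp (lCode j B) + 10, q.comp (lCode j B),
    fun x => ?_⟩
  obtain ⟨hM1, hM2⟩ := hM (code j B x)
  have key : ∀ y : Str, y.length = (q.comp (lCode j B)).eval x.length →
      Halts B' (Prog.seq (mv 1 5) (Prog.seq (progCode j B) (Prog.seq (mv 5 1) V))) (inp2 x y)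
        ((10 * q.comp (lCode j B) + tCode j B + p.comp (lCode j B) + 10).eval x.length) ∧
      accepts B' (Prog.seq (mv 1 5) (Prog.seq (progCode j B) (Prog.seq (mv 5 1) V))) (inp2 x y)
        ((10 * q.comp (lCode j B) + tCode j B + p.comp (lCode j B) + 10).eval x.length) =
        accepts B' V (inp2 (code j B x) y) (p.eval (code j B x).length) := by
    intro y hy
    have hy2 := hy
    rw [Polynomial.eval_comp, lCode_eval] at hy2
    have h1 := exec_mv (O := B') (show 1 ≠ 5 by norm_num) y (inp2 x y) (by simp [inp2])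
    rw [inp2_st, upd_st _ _ _ (by simp), upd_st _ _ _ (by simp)] at h1
    have h2 := exec_progCode B' j B x y.reverse
    have h3 := exec_mv (O := B') (show 5 ≠ 1 by norm_num) y.reverse
      (st [code j B x, [], [], [], [], y.reverse]) rfl
    rw [upd_st _ _ _ (by simp), upd_st _ _ _ (by simp)] at h3
    have e1 : st (([x, y, [], [], [], []].set 5
        (y.reverse ++ st [x, y, [], [], [], []] 5)).set 1 []) =
        st [x, [], [], [], [], y.reverse] := by
      simp [st]
    rw [e1] at h1
    have e3 : st (([code j B x, [], [], [], [], y.reverse].set 1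
        (y.reverse.reverse ++ st [code j B x, [], [], [], [], y.reverse] 1)).set 5 []) =
        inp2 (code j B x) y := by
      rw [inp2_st]; simp [st]
    rw [e3] at h3
    have h4 := exec_of_halts B' V _ _ (hM1 y hy2)
    have h5 := h1.seq (h2.seq (h3.seq h4))
    rw [← inp2_st] at h5
    obtain ⟨h6, h7⟩ := h5.halts
      (N := (10 * q.comp (lCode j B) + tCode j B + p.comp (lCode j B) + 10).eval x.length) (by
        simp only [Polynomial.eval_add, Polynomial.eval_mul, Polynomial.eval_ofNat,
          Polynomial.eval_comp, tCode_eval, lCode_eval, List.length_reverse, hy2]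
        omega)
    exact ⟨h6, h7⟩
  refine ⟨fun y hy => (key y hy).1, ?_⟩
  rw [hM2]
  constructor
  · rintro ⟨y, hy, hy2⟩
    have hy' : y.length = (q.comp (lCode j B)).eval x.length := by
      rw [Polynomial.eval_comp, lCode_eval]; exact hy
    exact ⟨y, hy', by rw [(key y hy').2]; exact hy2⟩
  · rintro ⟨y, hy, hy2⟩
    rw [(key y hy).2] at hy2
    rw [Polynomial.eval_comp, lCode_eval] at hy
    exact ⟨y, hy, hy2⟩

theorem Sig_code {X M : Lang} {k : ℕ} (h : M ∈ Sig X (k + 1)) (j B : ℕ) :
    (fun x => M (code j B x)) ∈ Sig X (k + 1) := by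
  obtain ⟨B', hB', hM⟩ := h
  exact ⟨B', hB', NPO_code hM j B⟩

/-- as `join_mem` -/
theorem join_mem2 {X A B : Lang} (hA : A ∈ PO X) (hB : B ∈ PO X) : join A B ∈ PO X := by
  obtain ⟨MA, pA, hA⟩ := hA
  obtain ⟨MB, pB, hB⟩ := hB
  refine ⟨Prog.branch 0 (Prog.seq (Prog.pop 0) MB) (Prog.seq (Prog.pop 0) MA)
    Prog.skip, pA + pB + 4, fun x => ?_⟩
  simp only [Polynomial.eval_add, Polynomial.eval_ofNat]
  rcases x with _ | ⟨b, v⟩
  · have h1 : Exec X (Prog.branch 0 (Prog.seq (Prog.pop 0) MB)
        (Prog.seq (Prog.pop 0) MA) Prog.skip) (inp []) (inp []) 2 :=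
      Exec.branch_nil (by simp [inp]) (exec_skip _)
    obtain ⟨h2, h3⟩ := h1.halts
      (N := pA.eval ([] : Str).length + pB.eval ([] : Str).length + 4) (by omega)
    refine ⟨h2, ?_⟩
    rw [h3]; simp [join, inp]
  · have e : Function.update (inp (b :: v)) 0 v = inp v := by
      funext r
      unfold inp
      by_cases hr : r = 0
      · subst hr; simp
      · simp [hr]
    have hpop : Exec X (Prog.pop 0) (inp (b :: v)) (inp v) 1 := by
      have := exec_pop (O := X) 0 (inp (b :: v))
      rwa [show (inp (b :: v) 0).tail = v by simp [inp], e] at this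
    have hleA : pA.eval v.length ≤ pA.eval (b :: v : Str).length :=
      poly_mono pA (by simp)
    have hleB : pB.eval v.length ≤ pB.eval (b :: v : Str).length :=
      poly_mono pB (by simp)
    cases b
    · obtain ⟨h5, h6⟩ := hA v
      have h1 := exec_of_halts X MA _ _ h5
      have h2 := Exec.branch_false (r := 0) (p := Prog.seq (Prog.pop 0) MB) (e := Prog.skip)
        (s := inp (false :: v)) (l := v) (by simp [inp]) (hpop.seq h1)
      obtain ⟨h3, h4⟩ := h2.halts
        (N := pA.eval (false :: v : Str).length + pB.eval (false :: v : Str).length + 4) (by omega)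
      refine ⟨h3, ?_⟩
      rw [h4]
      show A v = _
      rw [h6]
      rfl
    · obtain ⟨h5, h6⟩ := hB v
      have h1 := exec_of_halts X MB _ _ h5
      have h2 := Exec.branch_true (r := 0) (q := Prog.seq (Prog.pop 0) MA) (e := Prog.skip)
        (s := inp (true :: v)) (l := v) (by simp [inp]) (hpop.seq h1)
      obtain ⟨h3, h4⟩ := h2.halts
        (N := pA.eval (true :: v : Str).length + pB.eval (true :: v : Str).length + 4) (by omega)
      refine ⟨h3, ?_⟩
      rw [h4]
      show B v = _
      rw [h6]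
      rfl

theorem xor_mem_join (A B : Lang) : (fun x => xor (A x) (B x)) ∈ PO (join A B) := by
  refine ⟨Prog.seq (Prog.push 0 false) (Prog.seq (Prog.query 0 5) (Prog.seq (Prog.pop 0)
    (Prog.seq (Prog.push 0 true) (Prog.seq (Prog.query 0 4)
      (Prog.branch 5 (Prog.branch 4 (Prog.push 0 false) (Prog.push 0 true) Prog.skip)
        (Prog.branch 4 (Prog.push 0 true) (Prog.push 0 false) Prog.skip) Prog.skip))))),
    20, fun x => ?_⟩
  rw [Polynomial.eval_ofNat]
  have h1 := exec_push (O := join A B) 0 false (st [x, [], [], [], [], []])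
  rw [upd_st _ _ _ (by simp)] at h1
  have h2 := exec_query (O := join A B) 0 5 (st [false :: x, [], [], [], [], []])
  rw [upd_st _ _ _ (by simp)] at h2
  have h3 := exec_pop (O := join A B) 0 (st [false :: x, [], [], [], [], [A x]])
  rw [upd_st _ _ _ (by simp)] at h3
  have h4 := exec_push (O := join A B) 0 true (st [x, [], [], [], [], [A x]])
  rw [upd_st _ _ _ (by simp)] at h4
  have h5 := exec_query (O := join A B) 0 4 (st [true :: x, [], [], [], [], [A x]])
  rw [upd_st _ _ _ (by simp)] at h5
  have h6 : Exec (join A B) (Prog.branch 5 (Prog.branch 4 (Prog.push 0 false)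
      (Prog.push 0 true) Prog.skip)
      (Prog.branch 4 (Prog.push 0 true) (Prog.push 0 false) Prog.skip) Prog.skip)
      (st [true :: x, [], [], [], [B x], [A x]])
      (st [(xor (A x) (B x)) :: true :: x, [], [], [], [B x], [A x]]) 3 := by
    have h8 : ∀ b, Exec (join A B) (Prog.push 0 b) (st [true :: x, [], [], [], [B x], [A x]])
        (st [b :: true :: x, [], [], [], [B x], [A x]]) 1 := by
      intro b
      have := exec_push (O := join A B) 0 b (st [true :: x, [], [], [], [B x], [A x]])
      rwa [upd_st _ _ _ (by simp)] at this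
    cases hA : A x <;> cases hB : B x <;> rw [hA, hB] at h8
    · exact Exec.branch_false (l := []) rfl (Exec.branch_false (l := []) rfl (h8 false))
    · exact Exec.branch_false (l := []) rfl (Exec.branch_true (l := []) rfl (h8 true))
    · exact Exec.branch_true (l := []) rfl (Exec.branch_false (l := []) rfl (h8 true))
    · exact Exec.branch_true (l := []) rfl (Exec.branch_true (l := []) rfl (h8 false))
  have hall := h1.seq (h2.seq (h3.seq (h4.seq (h5.seq h6))))
  rw [← inp_st] at hall
  obtain ⟨h8, h9⟩ := hall.halts (N := 20) (by omega)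
  refine ⟨h8, ?_⟩
  rw [h9]
  show xor (A x) (B x) = (some (xor (A x) (B x)) == some true)
  cases xor (A x) (B x) <;> rfl

theorem xor_mem {X A B : Lang} (hA : A ∈ PO X) (hB : B ∈ PO X) :
    (fun x => xor (A x) (B x)) ∈ PO X :=
  PO_subset (join_mem2 hA hB) (xor_mem_join A B)

theorem Sig_subset {Y Z : Lang} (h : Y ∈ PO Z) (k : ℕ) : Sig Y k ⊆ Sig Z k := by
  induction k with
  | zero => exact PO_subset h
  | succ k ih =>
      rintro L ⟨B, hB, hL⟩
      exact ⟨B, ih hB, hL⟩

/-- one bit in front -/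
theorem cons_mem (b : Bool) (A : Lang) : (fun x => A (b :: x)) ∈ PO A := by
  refine ⟨Prog.seq (Prog.push 0 b) (Prog.query 0 0), 3, fun x => ?_⟩
  rw [Polynomial.eval_ofNat]
  have h1 := exec_push (O := A) 0 b (st [x, [], [], [], [], []])
  rw [upd_st _ _ _ (by simp)] at h1
  have h2 := exec_query (O := A) 0 0 (st [b :: x, [], [], [], [], []])
  rw [upd_st _ _ _ (by simp)] at h2
  have hall := h1.seq h2
  rw [← inp_st] at hall
  obtain ⟨h8, h9⟩ := hall.halts (N := 3) (by omega)
  refine ⟨h8, ?_⟩
  rw [h9]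
  show A (b :: x) = (some (A (b :: x)) == some true)
  cases A (b :: x) <;> rfl

theorem reg_mem (e : ℕ) (X : Lang) : reg e X ∈ PO X := by
  refine ⟨Prog.seq (Prog.push 0 false) (Prog.seq (pushN (2 * e + 2)) (Prog.query 0 0)),
    Polynomial.C (2 * (2 * e + 2) + 1 + 5), fun x => ?_⟩
  rw [Polynomial.eval_C]
  have h1 := exec_push (O := X) 0 false (st [x, [], [], [], [], []])
  rw [upd_st _ _ _ (by simp)] at h1
  have h2 := exec_pushN (O := X) [] (2 * e + 2) (false :: x)
  have h3 := exec_query (O := X) 0 0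
    (st [List.replicate (2 * e + 2) true ++ false :: x, [], [], [], [], []])
  rw [upd_st _ _ _ (by simp)] at h3
  have hall := h1.seq (h2.seq h3)
  rw [← inp_st] at hall
  obtain ⟨h8, h9⟩ := hall.halts (N := 2 * (2 * e + 2) + 1 + 5) (by omega)
  refine ⟨h8, ?_⟩
  rw [h9]
  show reg e X x = (some (X (List.replicate (2 * e + 2) true ++ false :: x)) == some true)
  unfold reg
  cases X (List.replicate (2 * e + 2) true ++ false :: x) <;> rfl

theorem mixO_mem (X A : Lang) : mixO X A ∈ PO (join X A) := by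
  refine ⟨Prog.branch 0 (Prog.query 0 0) (Prog.seq (Prog.push 0 false) (Prog.query 0 0))
    (Prog.seq (Prog.push 0 false) (Prog.query 0 0)), 5, fun x => ?_⟩
  rw [Polynomial.eval_ofNat]
  have hfalse : Exec (join X A) (Prog.seq (Prog.push 0 false) (Prog.query 0 0))
      (st [x, [], [], [], [], []]) (st [X x :: false :: x, [], [], [], [], []]) 3 := by
    have h1 := exec_push (O := join X A) 0 false (st [x, [], [], [], [], []])
    rw [upd_st _ _ _ (by simp)] at h1
    have h2 := exec_query (O := join X A) 0 0 (st [false :: x, [], [], [], [], []])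
    rw [upd_st _ _ _ (by simp)] at h2
    exact h1.seq h2
  have hb : ∀ b : Bool, b = (some b == some true) := by intro b; cases b <;> rfl
  rcases x with _ | ⟨b, v⟩
  · have hall := Exec.branch_nil (r := 0) (p := Prog.query 0 0)
      (q := Prog.seq (Prog.push 0 false) (Prog.query 0 0)) rfl hfalse
    rw [← inp_st] at hall
    obtain ⟨h8, h9⟩ := hall.halts (N := 5) (by omega)
    refine ⟨h8, ?_⟩
    rw [h9]
    exact hb (X [])
  · cases b
    · have hall := Exec.branch_false (r := 0) (p := Prog.query 0 0)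
        (e := Prog.seq (Prog.push 0 false) (Prog.query 0 0)) (l := v) rfl hfalse
      rw [← inp_st] at hall
      obtain ⟨h8, h9⟩ := hall.halts (N := 5) (by omega)
      refine ⟨h8, ?_⟩
      rw [h9]
      exact hb (X (false :: v))
    · have h2 := exec_query (O := join X A) 0 0 (st [true :: v, [], [], [], [], []])
      rw [upd_st _ _ _ (by simp)] at h2
      have hall := Exec.branch_true (r := 0)
        (q := Prog.seq (Prog.push 0 false) (Prog.query 0 0))
        (e := Prog.seq (Prog.push 0 false) (Prog.query 0 0)) (l := v) rfl h2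
      rw [← inp_st] at hall
      obtain ⟨h8, h9⟩ := hall.halts (N := 5) (by omega)
      refine ⟨h8, ?_⟩
      rw [h9]
      exact hb (A v)

/-- the right side is in the oracle -/
theorem right_mem (X A : Lang) : A ∈ PO (join X A) := cons_mem true (join X A)

/-! ### the high classes -/

theorem high_rhigh {X : Lang} {k : ℕ} : High X k ⊆ RHighSucc X k := by
  rintro A ⟨h1, h2⟩
  refine ⟨h1, ?_⟩
  rintro L ⟨B, hB, hL⟩
  exact ⟨B, h2 hB, hL⟩

theorem rhigh_high {X : Lang} {k : ℕ} : RHighSucc X k ⊆ High X (k + 1) := by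
  rintro A ⟨h1, h2⟩
  refine ⟨h1, ?_⟩
  rintro L ⟨B, hB, hL⟩
  obtain ⟨C, hC, hBC⟩ := h2 ⟨B, hB, query_mem B⟩
  exact ⟨C, hC, NPO_subset hBC hL⟩

/-! ### the witnesses -/

theorem Aw_mem (τ : Ty) (X : Lang) : Aw τ X ∈ NPO X := by
  unfold Aw
  split_ifs
  · apply NPO_code
    rw [J_succ, J_zero]
    exact NPO_subset (J0_mem X) (EE_mem _)
  · exact NPO_subset (reg_mem _ X) (EE_mem _)

theorem Yd_mem (τ : Ty) (X : Lang) : Yd τ X ∈ PO (if τ.1 = true then join X (Aw τ X) else X) := by
  unfold Yd
  split_ifs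
  · exact mixO_mem _ _
  · exact query_mem X

/-- the decoded codes -/
theorem cd_mem (Bp : Ty → ℕ) (τ : Ty) (X : Lang) :
    cd Bp τ X ∈ Sig (if τ.1 = true then join X (Aw τ X) else X) (τ.2.2 + 1) := by
  have h1 := Sig_subset (Yd_mem τ X) (τ.2.2 + 1) (J_mem (Yd τ X) (τ.2.2 + 1))
  exact Sig_code h1 (2 * idx τ) (Bp τ)

/-- not-delta types: everything which reduces to the content is in the class -/
theorem val_sig {Bp : Ty → ℕ} {τ : Ty} {X : Lang} (hτ : τ.2.1 = false)
    (h : ∀ z, val Bp τ X z = cnt τ X z) {L : Lang} {j B : ℕ}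
    (hL : ∀ x, cnt τ X (code j B x) = L x) :
    L ∈ Sig (if τ.1 = true then join X (Aw τ X) else X) (τ.2.2 + 1) := by
  have e : L = fun x => cd Bp τ X (code j B x) := by
    funext x
    rw [← hL x, ← h]
    simp [val, hτ]
  rw [e]
  exact Sig_code (cd_mem Bp τ X) j B

theorem code_mem_cons (b : Bool) (C : Lang) (j B : ℕ) : (fun x => C (b :: code j B x)) ∈ PO C :=
  PO_subset (cons_mem b C) (col_mem (X := fun w => C (b :: w)) j B (fun _ => rfl))

theorem val_del {Bp : Ty → ℕ} {τ : Ty} {X : Lang} (hτ : τ.2.1 = true)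
    (h : ∀ z, val Bp τ X z = cnt τ X z) {L : Lang} {j B : ℕ}
    (hL : ∀ x, cnt τ X (code j B x) = L x) : L ∈ PO (cd Bp τ X) := by
  have e : L = fun x => xor (cd Bp τ X (false :: code j B x)) (cd Bp τ X (true :: code j B x)) := by
    funext x
    rw [← hL x, ← h]
    simp [val, hτ]
  rw [e]
  exact xor_mem (code_mem_cons false _ j B) (code_mem_cons true _ j B)

theorem Sig_univ {X O : Lang} (hU : Univ2 X) {k : ℕ} {L : Lang} (hL : L ∈ Sig O (k + 1)) :
    ∃ j B, ∀ x, J (k + 1) (join X O) (code j B x) = L x := by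
  obtain ⟨p, l, hl, h4⟩ := exists_sEval hL
  obtain ⟨j, B, h5⟩ := hU p l (by rintro rfl; simp at hl)
  refine ⟨j, B, fun x => ?_⟩
  rw [h4, ← hl]
  exact h5 O x

/-- the test language is not in the class of the machines -/
theorem Dt_not_sig {Bp : Ty → ℕ} {X : Lang} (h : Spec Bp X) (τ : Ty) (hτ : τ.2.1 = true) :
    Dt τ X ∉ Sig (Om τ X) (τ.2.2 + 1) := by
  intro hD
  obtain ⟨p, l, hl, h4⟩ := exists_sEval hD
  obtain ⟨s, hs⟩ := h.diag τ (Prog.skip, 0) p l (by rw [hl, mlen, if_pos hτ])
  rw [mach, if_pos hτ] at hs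
  exact hs (by rw [h4])

theorem Dt_not_del {Bp : Ty → ℕ} {X : Lang} (h : Spec Bp X) (τ : Ty) (hτ : τ.2.1 = false) :
    Dt τ X ∉ DelSucc (Om τ X) τ.2.2 := by
  rintro ⟨C, hC, hD⟩
  obtain ⟨p, l, hl, h4⟩ := exists_sEval hC
  obtain ⟨p', h5⟩ := exists_pEval hD
  have hτ2 : ¬ τ.2.1 = true := by rw [hτ]; simp
  obtain ⟨s, hs⟩ := h.diag τ p' p l (by rw [hl, mlen, if_neg hτ2])
  rw [mach, if_neg hτ2, ← h4, ← h5] at hs
  exact hs rfl

theorem allProper_of_spec {Bp : Ty → ℕ} {X : Lang} (h : Spec Bp X) : AllProper X := by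
  have hX : ∀ k, EE^[k + 2] (reg (idx (false, true, k) + 1) X) ∉ Sig X (k + 1) := by
    intro k
    exact Dt_not_sig h (false, true, k) rfl
  have h1 : ∀ k, Sig X (k + 1) ≠ Sig X (k + 2) := by
    intro k hk
    apply hX k
    rw [hk]
    exact EE_iter_mem _ (reg_mem _ X) (k + 2)
  refine ⟨?_, ?_, ?_, ?_, ?_⟩
  · intro k
    rcases k with _ | k
    · intro h0
      exact h1 0 (sig_congr h0)
    · exact h1 k
  · -- low, delta type
    intro k
    rw [ssubset_iff_subset_ne]
    refine ⟨low_rlow, fun he => ?_⟩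
    have hw : Aw (false, true, k) X ∈ RLowSucc X (k + 1) := by
      refine ⟨Aw_mem _ X, ?_⟩
      rintro L ⟨C, hC, hL⟩
      obtain ⟨j, B, h3⟩ := Sig_univ h.univ hC
      have h4 : C ∈ PO (cd Bp (false, true, k) X) :=
        val_del (τ := (false, true, k)) rfl (h.valid _) (j := j) (B := B) h3
      exact ⟨cd Bp (false, true, k) X, cd_mem Bp (false, true, k) X, PO_subset h4 hL⟩
    rw [← he] at hw
    apply Dt_not_sig h (false, true, k) rfl
    apply hw.2
    show EE^[k + 1 + 1] (reg (idx (false, true, k) + 1) X) ∈ _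
    rw [Function.iterate_succ_apply]
    exact EE_iter_mem _ (right_mem X _) (k + 1)
  · -- low, sigma type
    intro k
    rw [ssubset_iff_subset_ne]
    refine ⟨rlow_low, fun he => ?_⟩
    have hw : Aw (false, false, k) X ∈ Low X (k + 1) := by
      refine ⟨Aw_mem _ X, ?_⟩
      intro L hL
      obtain ⟨j, B, h3⟩ := Sig_univ h.univ hL
      exact val_sig (τ := (false, false, k)) rfl (h.valid _) (j := j) (B := B) h3
    rw [← he] at hw
    apply Dt_not_del h (false, false, k) rfl
    apply hw.2
    have h5 : EE^[k] (Aw (false, false, k) X) ∈ Sig (join X (Aw (false, false, k) X)) k :=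
      EE_iter_mem _ (right_mem X _) k
    refine ⟨_, h5, ?_⟩
    have h6 : Dt (false, false, k) X = EE^[k] (Aw (false, false, k) X) := by
      show EE^[k + 1] (reg (idx (false, false, k) + 1) X) = _
      rw [Function.iterate_succ_apply]
      rfl
    rw [h6]
    exact query_mem _
  · -- high, delta type
    intro k
    rw [ssubset_iff_subset_ne]
    refine ⟨high_rhigh, fun he => ?_⟩
    have hw : Aw (true, true, k) X ∈ RHighSucc X (k + 1) := by
      refine ⟨Aw_mem _ X, ?_⟩
      rintro L ⟨C, hC, hL⟩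
      obtain ⟨j, B, h3⟩ := Sig_univ h.univ hC
      have h4 : C ∈ PO (cd Bp (true, true, k) X) :=
        val_del (τ := (true, true, k)) rfl (h.valid _) (j := j) (B := B) h3
      exact ⟨cd Bp (true, true, k) X, cd_mem Bp (true, true, k) X, PO_subset h4 hL⟩
    rw [← he] at hw
    apply Dt_not_sig h (true, true, k) rfl
    apply hw.2
    exact EE_iter_mem _ (reg_mem _ X) (k + 2)
  · -- high, sigma type
    intro k
    rw [ssubset_iff_subset_ne]
    refine ⟨rhigh_high, fun he => ?_⟩
    have hw : Aw (true, false, k) X ∈ High X (k + 1) := by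
      refine ⟨Aw_mem _ X, ?_⟩
      intro L hL
      obtain ⟨j, B, h3⟩ := Sig_univ h.univ hL
      exact val_sig (τ := (true, false, k)) rfl (h.valid _) (j := j) (B := B) h3
    rw [← he] at hw
    apply Dt_not_del h (true, false, k) rfl
    apply hw.2
    exact ⟨_, EE_iter_mem _ (reg_mem _ X) (k + 1), query_mem _⟩

end Pool.Agent.Lib.Pa76659P
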