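import Pool.Agent.Lib.Pa76659P.Step

/-!
The limit oracle.
-/

set_option maxHeartbeats 4000000
set_option linter.unusedSectionVars false

namespace Pool.Agent.Lib.Pa76659P

open Pool.Agent.Lib.Pa76659 Pool.Agent.Lib.Pa76659.Hier

/-- Limits of a sequence of oracles that are frozen on longer and longer strings. -/
theorem exists_lim (G : Lang → Prop) (R : ℕ → Lang → Prop) (X0 : Lang) (h0 : G X0)
    (next : ∀ (n N : ℕ) (σ : Lang), G σ → ∃ (N' : ℕ) (σ' : Lang), N < N' ∧ G σ' ∧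
      (∀ v : Str, v.length < N → σ' v = σ v) ∧
      ∀ X : Lang, (∀ v : Str, v.length < N' → X v = σ' v) → R n X) :
    ∃ X : Lang, (∀ n, R n X) ∧ ∀ m : ℕ, ∃ σ, G σ ∧ ∀ v : Str, v.length ≤ m → X v = σ v := by
  classical
  let St := {q : ℕ × Lang // G q.2}
  choose nN nS h1 h2 h3 h4 using fun (n : ℕ) (a : St) => next n a.1.1 a.1.2 a.2
  let st : ℕ → St := fun n => Nat.rec (⟨(0, X0), h0⟩ : St)
    (fun n a => ⟨(nN n a, nS n a), h2 n a⟩) n
  have hst1 : ∀ n, (st (n + 1)).1.1 = nN n (st n) := fun n => rfl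
  have hst2 : ∀ n, (st (n + 1)).1.2 = nS n (st n) := fun n => rfl
  have hN : ∀ n, n ≤ (st n).1.1 := by
    intro n
    induction n with
    | zero => exact Nat.zero_le _
    | succ n ih =>
        have := h1 n (st n)
        rw [hst1]; omega
  have hmono : ∀ n m, n ≤ m → (st n).1.1 ≤ (st m).1.1 := by
    intro n m hnm
    induction m, hnm using Nat.le_induction with
    | base => exact le_rfl
    | succ m _ ih =>
        have := h1 m (st m)
        rw [hst1]; omega
  have hW : ∀ n m, n ≤ m → ∀ v : Str, v.length < (st n).1.1 → (st m).1.2 v = (st n).1.2 v := by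
    intro n m hnm
    induction m, hnm using Nat.le_induction with
    | base => intro v _; rfl
    | succ m hm ih =>
        intro v hv
        rw [hst2, h3 m (st m) v (lt_of_lt_of_le hv (hmono n m hm)), ih v hv]
  let X : Lang := fun v => (st (v.length + 1)).1.2 v
  have hX : ∀ n, ∀ v : Str, v.length < (st n).1.1 → X v = (st n).1.2 v := by
    intro n v hv
    show (st (v.length + 1)).1.2 v = (st n).1.2 v
    have h6 : v.length < (st (v.length + 1)).1.1 := by
      have := hN (v.length + 1); omega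
    rcases le_total n (v.length + 1) with h | h
    · exact hW n _ h v hv
    · exact (hW _ n h v h6).symm
  refine ⟨X, fun n => ?_, fun m => ?_⟩
  · apply h4 n (st n)
    intro v hv
    rw [← hst1] at hv
    rw [← hst2]
    exact hX (n + 1) v hv
  · refine ⟨(st (m + 1)).1.2, (st (m + 1)).2, fun v hv => hX (m + 1) v ?_⟩
    have := hN (m + 1)
    omega

theorem exists_spec : ∃ (Bp : Ty → ℕ) (X : Lang), Spec Bp X := by
  classical
  obtain ⟨P⟩ := exists_par
  obtain ⟨τ0, hτ0⟩ := exists_tables2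
  obtain ⟨X0, _, hX1, hX2⟩ := trivial_window P τ0 τ0 0 (fun _ _ => rfl)
    (fun τ z h => absurd h (Nat.not_lt_zero _))
  have hne : Nonempty (Ty × PIx × PIx × List NIx) :=
    ⟨((false, false, 0), (Prog.skip, 0), (Prog.skip, 0), [])⟩
  obtain ⟨req, hreq⟩ := exists_surjective_nat (Ty × PIx × PIx × List NIx)
  obtain ⟨X, hR, hloc⟩ := exists_lim
    (fun σ => (∀ v, isTab v → σ v = τ0 v) ∧ ∀ τ z, val P.Bp τ σ z = cnt τ σ z)
    (fun n X => (req n).2.2.2.length = mlen (req n).1 →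
      ∃ s, mach (req n).1 (req n).2.1 (req n).2.2.1 (req n).2.2.2 X s ≠ Dt (req n).1 X s)
    X0 ⟨hX1, hX2⟩ (by
      rintro n N σ ⟨hs, hσ⟩
      by_cases hl : (req n).2.2.2.length = mlen (req n).1
      · obtain ⟨N', X, g1, g2, g3, g4, s, g5⟩ := step_all P τ0 (req n).1 (req n).2.1
          (req n).2.2.1 (req n).2.2.2 hl N σ hs hσ
        exact ⟨N', X, g1, ⟨g3, g4⟩, g2, fun X' hX' _ => ⟨s, g5 X' hX'⟩⟩
      · exact ⟨N + 1, σ, by omega, ⟨hs, hσ⟩, fun _ _ => rfl, fun _ _ h => absurd h hl⟩)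
  refine ⟨P.Bp, X, ?_, ?_, ?_⟩
  · apply hτ0
    intro v hv
    obtain ⟨σ, ⟨h1, _⟩, h2⟩ := hloc v.length
    rw [h2 v le_rfl, h1 v hv]
  · intro τ z
    obtain ⟨b, hb⟩ := pl_val P.Bp τ
    obtain ⟨c, hc⟩ := pl_cnt τ
    obtain ⟨σ, ⟨_, h1⟩, h2⟩ := hloc (max ((z.length + 2) ^ b) ((z.length + 2) ^ c))
    rw [hb z X σ (fun v hv => h2 v (hv.trans (le_max_left _ _))),
      hc z X σ (fun v hv => h2 v (hv.trans (le_max_right _ _)))]
    exact h1 τ z
  · intro τ p' p l hl
    obtain ⟨n, hn⟩ := hreq (τ, p', p, l)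
    have h1 := hR n
    rw [hn] at h1
    exact h1 hl

end Pool.Agent.Lib.Pa76659P
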