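import Pool.Agent.Lib.Pa76659P.Adv
import Pool.Agent.Lib.Pa76659.Sem

/-!
The requirements of the adversary theorems are polynomial.
-/

set_option maxHeartbeats 4000000

namespace Pool.Agent.Lib.Pa76659P

open Pool.Agent.Lib.Pa76659

theorem MR_poly (E e : ℕ) : ∀ (j b : ℕ), ∃ d : ℕ, ∀ n : ℕ, 2 ≤ n → ∀ w t a D R : ℕ,
    w ≤ n ^ b → t ≤ n ^ b → a ≤ n ^ b → D ≤ n ^ b → R ≤ n ^ b →
    MR w R E a e (fun s => D * s + 1) j t ≤ n ^ d
  | 0, b => by
      obtain ⟨d, hd⟩ := poly_le (Polynomial.X ^ b * Polynomial.X ^ b + 1)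
      refine ⟨d, fun n hn w t a D R _ ht _ hD _ => ?_⟩
      have h1 := hd n hn
      simp only [Polynomial.eval_add, Polynomial.eval_mul, Polynomial.eval_pow,
        Polynomial.eval_X, Polynomial.eval_one] at h1
      rw [MR]
      have h2 : D * t ≤ n ^ b * n ^ b := Nat.mul_le_mul hD ht
      omega
  | j + 1, b => by
      obtain ⟨b1, hb1⟩ := poly_le (Polynomial.X ^ b + Polynomial.X ^ b * Polynomial.C (j + e) + 2)
      obtain ⟨d', hd'⟩ := MR_poly E e j (max b b1)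
      obtain ⟨d, hd⟩ := poly_le ((8 * Polynomial.X ^ b + 9) *
        (Polynomial.C E + Polynomial.X ^ b * (Polynomial.C E + 1) + 3) *
        (Polynomial.X ^ d' + 1))
      refine ⟨d, fun n hn w t a D R hw ht ha hD hR => ?_⟩
      have h1 := hb1 n hn
      have h2 := hd n hn
      simp only [Polynomial.eval_add, Polynomial.eval_mul, Polynomial.eval_pow,
        Polynomial.eval_X, Polynomial.eval_C, Polynomial.eval_ofNat, Polynomial.eval_one] at h1 h2
      have hp : ∀ c, c ≤ max b b1 → n ^ c ≤ n ^ max b b1 := fun c hc =>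
        Nat.pow_le_pow_right (by omega) hc
      have h0 := hp b (le_max_left _ _)
      have h0' := hp b1 (le_max_right _ _)
      have h4 : w * (j + e) ≤ n ^ b * (j + e) := Nat.mul_le_mul_right _ hw
      have h3 := hd' n hn w (a + w * (j + e) + 2) a D R (hw.trans h0) (by omega)
        (ha.trans h0) (hD.trans h0) (hR.trans h0)
      rw [MR, GG]
      refine le_trans ?_ h2
      have h5 : R * (E + 1) ≤ n ^ b * (E + 1) := Nat.mul_le_mul_right _ hR
      exact Nat.mul_le_mul (Nat.mul_le_mul (by omega) (by omega)) (by omega)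

theorem MS_poly (k b : ℕ) : ∃ d : ℕ, ∀ n : ℕ, 2 ≤ n → ∀ w t a D R : ℕ,
    w ≤ n ^ b → t ≤ n ^ b → a ≤ n ^ b → D ≤ n ^ b → R ≤ n ^ b → MS k w t a D R ≤ n ^ d :=
  MR_poly (k + 2) 0 k b

theorem MD_poly (k b : ℕ) : ∃ d : ℕ, ∀ n : ℕ, 2 ≤ n → ∀ w t R : ℕ,
    w ≤ n ^ b → t ≤ n ^ b → R ≤ n ^ b → MD k w t R ≤ n ^ d := by
  obtain ⟨d, hd⟩ := MR_poly (k + 3) 1 k b
  refine ⟨d, fun n hn w t R hw ht hR => ?_⟩
  have h1 : 1 ≤ n ^ b := Nat.one_le_pow _ _ (by omega)
  have h := hd n hn w t 0 1 R hw ht (by omega) h1 hR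
  simpa [MD] using h

end Pool.Agent.Lib.Pa76659P
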