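import Pool.Agent.Lib.Pa76659P.PDefs

/-!
Static tables which make `J` universal with any oracle in the place of the literals, and circuits
for `J k`.
-/

set_option maxHeartbeats 4000000

namespace Pool.Agent.Lib.Pa76659P

open Pool.Agent.Lib.Pa76659

/-- as `exists_tables` in Pa76659/Limit.lean, but the literals may come from any oracle -/
theorem exists_tables2 : ∃ τ : Lang, ∀ X : Lang, (∀ v, isTab v → X v = τ v) → Univ2 X := by
  classical
  obtain ⟨f, hf⟩ := exists_injective_nat (PIx × List NIx)
  have key : ∀ c : PIx × List NIx, ∃ B : ℕ, ∀ x : Str, ∃ T : Lang, ∀ X O : Lang, c.2 ≠ [] →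
      (∀ r : Str, X (code (2 * f c) B x ++ r) = T (code (2 * f c) B x ++ r)) →
      J c.2.length (join X O) (code (2 * f c) B x) = sEval c.1 c.2 O x := by
    rintro ⟨p, l⟩
    obtain ⟨b, hb⟩ := sEval_isC p l
    obtain ⟨B, hB⟩ := poly_le (Polynomial.X ^ b + Polynomial.X ^ b + 1 +
      Polynomial.X ^ b * (3 * Polynomial.X ^ b + 3))
    refine ⟨B, fun x => ?_⟩
    rcases l with _ | ⟨i, l⟩
    · exact ⟨fun _ => false, fun X O h => absurd rfl h⟩
    have h1 := hb (x.length + 2) (by omega) x (by omega)
    have h2 := hB (x.length + 2) (by omega)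
    simp only [Polynomial.eval_add, Polynomial.eval_mul, Polynomial.eval_pow,
      Polynomial.eval_X, Polynomial.eval_ofNat, Polynomial.eval_one] at h2
    have h3 : (x.length + 2) ^ B ≤ (x.length + 2) ^ (2 ^ B) :=
      Nat.pow_le_pow_right (by omega) (Nat.lt_two_pow_self).le
    obtain ⟨Tab, _, ht2, ht3⟩ := univJ some (SL ((x.length + 2) ^ b)) _ _
      ((x.length + 2) ^ b) (by
        intro v hv u hu
        simp only [Option.some.injEq] at hu
        rw [← hu]; exact hv) l.length _ h1 (code (2 * f (p, i :: l)) B x) (by
        rw [code_length]; omega)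
    refine ⟨fun v => (Tab v).eval (fun _ => false), fun X O _ hX => ?_⟩
    apply ht3
    · intro r _
      show X (code (2 * f (p, i :: l)) B x ++ r) = _
      rw [hX r]
      apply DT.eval_congr (S := ∅) (by simp)
      apply (ht2 _).mono
      rintro u ⟨_, hu⟩
      simp at hu
    · intro u _ v hv
      simp only [Option.some.injEq] at hv
      rw [← hv]; rfl
  choose B T hT using key
  refine ⟨fun v => if h : ∃ c : (PIx × List NIx) × Str × Str,
    v = code (2 * f c.1) (B c.1) c.2.1 ++ c.2.2 then T h.choose.1 h.choose.2.1 v else false, ?_⟩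
  intro X hX p l hl
  refine ⟨2 * f (p, l), B (p, l), fun O x => hT (p, l) x X O hl fun r => ?_⟩
  have ht : isTab (code (2 * f (p, l)) (B (p, l)) x ++ r) := by
    rw [code_eq]
    exact ⟨f (p, l), _, by rw [List.append_assoc, List.cons_append]⟩
  rw [hX _ ht]
  have h : ∃ c : (PIx × List NIx) × Str × Str,
    code (2 * f (p, l)) (B (p, l)) x ++ r = code (2 * f c.1) (B c.1) c.2.1 ++ c.2.2 :=
    ⟨((p, l), x, r), rfl⟩
  beta_reduce
  rw [dif_pos h]
  have h1 := h.choose_spec
  set c := h.choose with hc
  have h2 : (p, l) = c.1 := by
    rw [code_eq, code_eq, List.append_assoc, List.append_assoc, List.cons_append,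
      List.cons_append] at h1
    obtain ⟨h3, _⟩ := rep_inj true _ _ _ _ h1
    exact hf (by omega)
  rw [← h2] at h1 ⊢
  rw [← (code_append_inj h1).2]

/-- decision tree of the interpreter -/
def interpT : Str → Str → DT Str Bool
  | true :: false :: b :: r, u => interpT r (b :: u)
  | true :: true :: b :: r, u => DT.node (true :: u)
      (if b = true then DT.leaf false else interpT r [])
      (if b = true then interpT r [] else DT.leaf false)
  | _, _ => DT.leaf true

theorem interpT_eval (Z : Lang) : ∀ r u : Str, (interpT r u).eval Z = interp Z r u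
  | true :: false :: b :: r, u => by
      rw [interp, interpT]
      exact interpT_eval Z r (b :: u)
  | true :: true :: b :: r, u => by
      rw [interp, interpT, DT.eval]
      have ih := interpT_eval Z r []
      cases b <;> cases hZ : Z (true :: u) <;> simp [DT.eval, ih]
  | [], u => by simp [interp, interpT, DT.eval]
  | false :: _, u => by simp [interp, interpT, DT.eval]
  | [true], u => by simp [interp, interpT, DT.eval]
  | [true, true], u => by simp [interp, interpT, DT.eval]
  | [true, false], u => by simp [interp, interpT, DT.eval]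

theorem interpT_depth : ∀ r u : Str, (interpT r u).depth ≤ r.length
  | true :: false :: b :: r, u => by
      rw [interpT]
      have ih := interpT_depth r (b :: u)
      simp only [List.length_cons]
      omega
  | true :: true :: b :: r, u => by
      rw [interpT, DT.depth]
      have ih := interpT_depth r []
      simp only [List.length_cons]
      cases b <;> simp [DT.depth] <;> omega
  | [], u => by simp [interpT, DT.depth]
  | false :: _, u => by simp [interpT, DT.depth]
  | [true], u => by simp [interpT, DT.depth]
  | [true, true], u => by simp [interpT, DT.depth]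
  | [true, false], u => by simp [interpT, DT.depth]

theorem interpT_qin (m : ℕ) : ∀ r u : Str, r.length + u.length + 1 ≤ m →
    (interpT r u).QIn (SL m)
  | true :: false :: b :: r, u, h => by
      rw [interpT]
      apply interpT_qin m r (b :: u)
      simp only [List.length_cons] at h ⊢
      omega
  | true :: true :: b :: r, u, h => by
      rw [interpT]
      simp only [List.length_cons] at h
      have ih := interpT_qin m r [] (by simp only [List.length_nil]; omega)
      have h1 : (true :: u) ∈ SL m := by
        show (true :: u).length ≤ m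
        simp only [List.length_cons]; omega
      cases b
      · exact ⟨h1, by simpa using ih, by simp [DT.QIn]⟩
      · exact ⟨h1, by simp [DT.QIn], by simpa using ih⟩
  | [], u, _ => by simp [interpT, DT.QIn]
  | false :: _, u, _ => by simp [interpT, DT.QIn]
  | [true], u, _ => by simp [interpT, DT.QIn]
  | [true, true], u, _ => by simp [interpT, DT.QIn]
  | [true, false], u, _ => by simp [interpT, DT.QIn]

/-- decision tree of `J0` -/
def J0T (x : Str) : DT Str Bool :=
  DT.node (false :: x) (DT.leaf true) ((interpT x.reverse []).map (fun b => !b))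

theorem J0T_eval (Z : Lang) (x : Str) : (J0T x).eval Z = J0 Z x := by
  unfold J0T J0
  rw [DT.eval, DT.eval_map, interpT_eval]
  cases Z (false :: x) <;> simp [DT.eval]

theorem J0T_depth (x : Str) : (J0T x).depth ≤ x.length + 1 := by
  unfold J0T
  have h := interpT_depth x.reverse []
  rw [List.length_reverse] at h
  simp only [DT.depth, DT.depth_map]
  omega

theorem J0T_qin (x : Str) : (J0T x).QIn (SL (x.length + 1)) := by
  unfold J0T
  refine ⟨?_, trivial, ?_⟩
  · show (false :: x).length ≤ x.length + 1
    simp
  · apply DT.QIn.map
    apply interpT_qin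
    simp

/-- circuits for `J k` -/
theorem J_isC (k : ℕ) : ∃ b : ℕ, ∀ n : ℕ, 2 ≤ n → ∀ x : Str, x.length ≤ n →
    IsC (SL (n ^ b)) (n ^ b) (n ^ b) k (fun Z => J k Z x) := by
  induction k with
  | zero =>
      refine ⟨2, fun n hn x hx => ?_⟩
      have h : x.length + 1 ≤ n ^ 2 := by nlinarith
      exact ⟨J0T x, (J0T_depth x).trans h, (J0T_qin x).mono (SL_mono h),
        fun Z => by rw [J0T_eval]; rfl⟩
  | succ k ih =>
      obtain ⟨b, hb⟩ := ih
      refine ⟨2 * b + 1, fun n hn x hx => ?_⟩
      have hpow : n ^ (2 * b) ≤ n ^ (2 * b + 1) := Nat.pow_le_pow_right (by omega) (by omega)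
      have hn1 : n ≤ n ^ (2 * b + 1) := by
        calc n = n ^ 1 := (pow_one n).symm
          _ ≤ n ^ (2 * b + 1) := Nat.pow_le_pow_right (by omega) (by omega)
      have h1 : ∀ y : Fin x.length → Bool, IsC (SL (n ^ (2 * b + 1))) (n ^ (2 * b + 1))
          (n ^ (2 * b + 1)) k (fun Z => J k Z (x ++ List.ofFn y)) := by
        intro y
        have h2 := hb (n ^ 2) (by nlinarith) (x ++ List.ofFn y) (by
          rw [List.length_append, List.length_ofFn]
          nlinarith)
        rw [← pow_mul] at h2
        exact h2.mono (SL_mono hpow) hpow hpow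
      apply IsC.of_exists (ι := Fin x.length → Bool) _ (fun y Z => J k Z (x ++ List.ofFn y)) h1
      · intro Z
        rw [J_succ, EE_true]
        constructor
        · rintro ⟨y, hy, hy2⟩
          refine ⟨fun i => y.get (i.cast hy.symm), ?_⟩
          have : List.ofFn (fun i : Fin x.length => y.get (i.cast hy.symm)) = y := by
            apply List.ext_get
            · simp [hy]
            · intro i h3 h4
              simp
          rw [this]
          exact hy2
        · rintro ⟨y, hy⟩
          exact ⟨List.ofFn y, by simp, hy⟩
      · rw [Fintype.card_fun, Fintype.card_fin, Fintype.card_bool]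
        exact Nat.pow_le_pow_right (by norm_num) (hx.trans hn1)

end Pool.Agent.Lib.Pa76659P
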