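import Pool.Agent.Lib.Pa76659P.Names

/-!
The window in which one type is active.
-/

set_option maxHeartbeats 4000000
set_option linter.unusedSectionVars false

namespace Pool.Agent.Lib.Pa76659P

open Pool.Agent.Lib.Pa76659 Pool.Agent.Lib.Pa76659.Hier

/-- fan-ins -/
def mA (τ : Ty) (N : ℕ) (i : ℕ) : ℕ := 2 ^ (N * 2 ^ (kap τ - 1 - i))

theorem kap_le (τ : Ty) : kap τ ≤ τ.2.2 + 2 := by unfold kap; split_ifs <;> omega

theorem kap_pos (τ : Ty) : 1 ≤ kap τ := by unfold kap; split_ifs <;> omega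

theorem mA_le (τ : Ty) (N i : ℕ) : mA τ N i ≤ 2 ^ (N * 2 ^ (τ.2.2 + 1)) := by
  unfold mA
  apply Nat.pow_le_pow_right (by norm_num)
  apply Nat.mul_le_mul_left
  apply Nat.pow_le_pow_right (by norm_num)
  have := kap_le τ
  omega

theorem le_mA (τ : Ty) (N i : ℕ) : 2 ^ N ≤ mA τ N i := by
  unfold mA
  apply Nat.pow_le_pow_right (by norm_num)
  exact Nat.le_mul_of_pos_right _ (by positivity)

/-- free literals -/
def frA (τ : Ty) (u : Str) : Prop := (∃ v, u = rl 0 v) ∨ ∃ v, u = rl (idx τ + 1) v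

/-- literal in the decoding oracle for the name `v` -/
def litA (τ : Ty) (v : Str) : Str := if τ.1 = true then v else rl 0 v

/-- target of the active codes -/
noncomputable def tfA (P : Par) (τ : Ty) (N : ℕ) (z : Str) (U : Str → Bool) : Bool :=
  tr (mA τ N) (τ.2.2 + 1) (fun p => U (litA τ (es (bas P τ z) p))) []

theorem idx_inj {τ τ' : Ty} (h : idx τ = idx τ') : τ = τ' := Encodable.encode_injective h

theorem tfA_enc (P : Par) (τ : Ty) (N : ℕ) (z : Str) (hz : N ≤ Lz P τ z) :
    ∃ T, Enc (τ.2.2 + 1) (tfA P τ N z) (code (2 * idx τ) (P.Bp τ) z) T := by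
  have hneed := need_le_code P τ z (2 * idx τ)
  unfold need at hneed
  apply exists_enc (m := (bas P τ z).length * 2 ^ (τ.2.2 + 1) + 2)
    (w := Lz P τ z * 2 ^ (τ.2.2 + 2)) (t := 1)
  · apply tr_isC (mA τ N) (fun p => litA τ (es (bas P τ z) p)) (τ.2.2 + 1) []
    · intro i _
      refine (mA_le τ N i).trans (Nat.pow_le_pow_right (by norm_num) ?_)
      apply Nat.mul_le_mul hz
      exact Nat.pow_le_pow_right (by norm_num) (by omega)
    · simp
    · intro p hp _
      show (litA τ (es (bas P τ z) p)).length ≤ _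
      have h1 : (es (bas P τ z) p).length = (bas P τ z).length * 2 ^ (τ.2.2 + 1) := by
        rw [es_length, hp]; simp
      unfold litA
      split_ifs
      · omega
      · rw [rl_length, h1]; omega
  · omega

/-- the data of the active window -/
noncomputable def wdA (P : Par) (τ : Ty) (N : ℕ) (σ τ0 : Lang) : Wd P where
  N := N
  σ := σ
  fx := fxW N σ τ0 (frA τ)
  act := fun τ' => τ' = τ
  tf := fun τ' => tfA P τ' N
  hfx := fun u hu => by unfold fxW; rw [if_pos hu]
  hreg := by
    intro τ' h v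
    have h1 : ¬ frA τ (rl (idx τ' + 1) v) := by
      rintro (⟨v', hv⟩ | ⟨v', hv⟩)
      · have := (rl_inj hv).1; omega
      · have := (rl_inj hv).1
        exact h (idx_inj (by omega))
    show ∃ b, fxW N σ τ0 (frA τ) (rl (idx τ' + 1) v) = some b
    unfold fxW
    split_ifs
    · exact ⟨_, rfl⟩
    · exact ⟨_, rfl⟩
    · exact ⟨_, rfl⟩
  htf := by
    rintro τ' rfl z hz
    exact tfA_enc P τ' N z hz

/-- the data of the window without free bits -/
noncomputable def wd0 (P : Par) (N : ℕ) (σ τ0 : Lang) : Wd P where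
  N := N
  σ := σ
  fx := fxW N σ τ0 (fun _ => False)
  act := fun _ => False
  tf := fun _ _ _ => false
  hfx := fun u hu => by unfold fxW; rw [if_pos hu]
  hreg := by
    intro τ' _ v
    show ∃ b, fxW N σ τ0 (fun _ => False) (rl (idx τ' + 1) v) = some b
    unfold fxW
    split_ifs
    · exact ⟨_, rfl⟩
    · exact ⟨_, rfl⟩
    · exact ⟨_, rfl⟩
  htf := fun τ h => absurd h id

/-- threshold of the tables -/
def vl (P : Par) (τ : Ty) (z : Str) : ℕ :=
  if τ.2.1 = true then Wd.tlA P τ (false :: z) else Wd.tlA P τ z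

theorem len_lt_tlA (P : Par) (τ : Ty) (z : Str) : z.length < Wd.tlA P τ z := by
  unfold Wd.tlA
  have h1 : (code (2 * idx τ) (P.Bp τ) z).length ≤
      2 ^ (τ.2.2 + 1) * (code (2 * idx τ) (P.Bp τ) z).length :=
    Nat.le_mul_of_pos_left _ (by positivity)
  have h2 := code_length (2 * idx τ) (P.Bp τ) z
  omega

/-- re-extension -/
theorem trivial_window (P : Par) (τ0 σ : Lang) (N : ℕ) (hs : ∀ v, isTab v → σ v = τ0 v)
    (hv : ∀ τ z, vl P τ z < N → val P.Bp τ σ z = cnt τ σ z) :
    ∃ X : Lang, (∀ v : Str, v.length < N → X v = σ v) ∧ (∀ v, isTab v → X v = τ0 v) ∧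
      ∀ τ z, val P.Bp τ X z = cnt τ X z := by
  obtain ⟨C, hC⟩ := (wd0 P N σ τ0).exists_good
  refine ⟨mkW C (wd0 P N σ τ0).fx (fun _ => false), ?_, ?_, ?_⟩
  · intro v hv
    exact Wd.mk_low hC _ v hv
  · intro v hv
    exact fxW_static hs C _ v hv
  · intro τ z
    exact Wd.val_inact hC _ (fun h => h) z (fun z => hv τ z)

/-! ### the active window -/

section

variable {P : Par} {τ : Ty} {N : ℕ} {σ τ0 : Lang} {C : Lang}

/-- the oracle of `x` -/
noncomputable def XA (P : Par) (τ : Ty) (N : ℕ) (σ τ0 C : Lang) (x : List ℕ → Bool) : Lang :=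
  mkW C (fxW N σ τ0 (frA τ)) (Yx P τ (List.replicate N false) x)

theorem XA_free (x : List ℕ → Bool) (u : Str) (hu : N ≤ u.length + 1) (ht : ¬ isTab (true :: u))
    (hf : frA τ u) :
    XA P τ N σ τ0 C x (true :: u) = Yx P τ (List.replicate N false) x u := by
  simp only [XA, mkW, fxW]
  rw [if_neg (by omega), if_neg ht, if_pos hf]
  rfl

theorem XA_code (x : List ℕ → Bool) (z : Str) (q : List ℕ) (hz : N ≤ Lz P τ z)
    (hq : q.length = τ.2.2 + 1) (hv : Valid (bas P τ z) q) :
    XA P τ N σ τ0 C x (true :: rl 0 (es (bas P τ z) q)) = x (q ++ [rk z]) := by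
  have h1 := bas_le_es P τ z q
  have h2 := Lz_le_bas P τ z
  rw [XA_free x _ (by rw [rl_length]; omega) (rl_not_tab 0 _) (Or.inl ⟨_, rfl⟩)]
  unfold Yx
  rw [ph_code P τ _ z q hq hv]
  rfl

theorem XA_main (x : List ℕ → Bool) (p : List ℕ) (hp : p.length = kap τ)
    (hv : Valid (List.replicate N false) p) :
    XA P τ N σ τ0 C x (true :: rl (idx τ + 1) (es (List.replicate N false) p)) =
      x (p ++ [0]) := by
  have h1 : N ≤ (es (List.replicate N false) p).length := by
    rw [es_length, List.length_replicate]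
    exact Nat.le_mul_of_pos_right _ (by positivity)
  rw [XA_free x _ (by rw [rl_length]; omega) (rl_not_tab _ _) (Or.inr ⟨_, rfl⟩)]
  unfold Yx
  rw [ph_main P τ _ p hp hv]
  rfl

/-- the test language is the main tree -/
theorem Dt_XA (x : List ℕ → Bool) :
    Dt τ (XA P τ N σ τ0 C x) (List.replicate N false) = tr (mA τ N) (kap τ) x [0] := by
  have h1 := QQ_tr (List.replicate N false) (kap τ) (reg (idx τ + 1) (XA P τ N σ τ0 C x))
    (fun p => x (p ++ [0])) (by
      intro u hu hv
      rw [reg_eq]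
      exact XA_main x u hu hv) (kap τ) [] (by simp) trivial
  have h2 := tr_shift (mA τ N) [0] (kap τ) x []
  rw [List.nil_append] at h2
  rw [h2]
  unfold Dt
  have h3 : QQ (kap τ) (reg (idx τ + 1) (XA P τ N σ τ0 C x)) (List.replicate N false) =
      EE^[kap τ] (reg (idx τ + 1) (XA P τ N σ τ0 C x)) (List.replicate N false) := rfl
  rw [← h3]
  simp only [es] at h1
  rw [h1, List.length_replicate]
  rfl

variable (hC : (wdA P τ N σ τ0).Good C)

include hC

/-- an active code is a tree -/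
theorem cd_XA (x : List ℕ → Bool) (z : Str) (hz : N ≤ Lz P τ z) :
    cd P.Bp τ (XA P τ N σ τ0 C x) z = tr (mA τ N) (τ.2.2 + 1) x [rk z] := by
  have h1 := Wd.cd_act hC (Yx P τ (List.replicate N false) x) (τ := τ) rfl z hz
  have h2 := tr_shift (mA τ N) [rk z] (τ.2.2 + 1) x []
  rw [List.nil_append] at h2
  rw [h2]
  refine h1.trans ?_
  have htf : (wdA P τ N σ τ0).tf τ z = tfA P τ N z := rfl
  rw [htf]
  unfold tfA
  apply tr_congr (mA τ N) (2 ^ (N * 2 ^ (τ.2.2 + 1)))
  · intro i _; exact mA_le τ N i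
  · simp
  · intro v hv hv2
    have hlen : v.length = τ.2.2 + 1 := by simpa using hv
    have hval : Valid (bas P τ z) v := by
      apply valid_of_lt
      intro a ha
      refine (hv2 a ha).trans_le (Nat.pow_le_pow_right (by norm_num) ?_)
      have h3 := Lz_lt_bas P τ z
      have h4 : N * 2 ^ (τ.2.2 + 1) ≤ Lz P τ z * 2 ^ (τ.2.2 + 2) :=
        Nat.mul_le_mul hz (Nat.pow_le_pow_right (by norm_num) (by omega))
      have h5 : 2 ^ (τ.2.2 + 2) * Lz P τ z = Lz P τ z * 2 ^ (τ.2.2 + 2) := by ring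
      omega
    have key := XA_code (P := P) (σ := σ) (τ0 := τ0) (C := C) x z v hz hlen hval
    rw [← key]
    show Yd τ (XA P τ N σ τ0 C x) (true :: litA τ (es (bas P τ z) v)) = _
    unfold Yd litA
    by_cases h : τ.1 = true
    · rw [if_pos h, if_pos h]
      have h3 := bas_le_es P τ z v
      have h4 := Lz_le_bas P τ z
      exact Wd.Aw_act hC (Yx P τ (List.replicate N false) x) h rfl (es (bas P τ z) v) (by
        show N ≤ _
        omega)
    · rw [if_neg h, if_neg h]

end

end Pool.Agent.Lib.Pa76659P
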