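import Pool.Agent.Lib.Pa76659P.Act
import Pool.Agent.Lib.Pa76659P.Poly

/-!
The machines in the active window, and validity of the codes after the adversary.
-/

set_option maxHeartbeats 4000000
set_option linter.unusedSectionVars false

namespace Pool.Agent.Lib.Pa76659P

open Pool.Agent.Lib.Pa76659 Pool.Agent.Lib.Pa76659.Hier

section

variable {P : Par} {τ : Ty} {N : ℕ} {σ τ0 : Lang} {C : Lang}

/-- positions of the bits of the oracle -/
noncomputable def phX (P : Par) (τ : Ty) (N : ℕ) (σ τ0 C : Lang) (v : Str) : List ℕ ⊕ Bool :=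
  match phW C (fxW N σ τ0 (frA τ)) v with
  | Sum.inl u => ph P τ (List.replicate N false) u
  | Sum.inr b => Sum.inr b

theorem phX_eval (x : List ℕ → Bool) (v : Str) :
    Sum.elim x id (phX P τ N σ τ0 C v) = XA P τ N σ τ0 C x v := by
  unfold XA
  rw [← phW_eval]
  unfold phX
  cases phW C (fxW N σ τ0 (frA τ)) v <;> rfl

theorem phX_root (v : Str) (p : List ℕ) (h : phX P τ N σ τ0 C v = Sum.inl p) :
    p.getLast? = some 0 ∨ ∃ z : Str, p.getLast? = some (rk z) ∧ Lz P τ z < v.length := by
  unfold phX at h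
  cases h1 : phW C (fxW N σ τ0 (frA τ)) v with
  | inr b => rw [h1] at h; simp at h
  | inl u =>
      rw [h1] at h
      rcases ph_root P τ _ u p h with h2 | ⟨z, h2, h3⟩
      · exact Or.inl h2
      · exact Or.inr ⟨z, h2, h3.trans_le (phW_len _ _ v u h1)⟩

theorem cnt_agree (z : Str) {x x' : List ℕ → Bool} {r : ℕ} (hr : rk z ≤ r)
    (h : AgreeBelow r x x') :
    cnt τ (XA P τ N σ τ0 C x) z = cnt τ (XA P τ N σ τ0 C x') z := by
  apply P.loc τ z
  intro v hv
  rw [← phX_eval, ← phX_eval]
  cases h1 : phX P τ N σ τ0 C v with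
  | inr b => rfl
  | inl p =>
      show x p = x' p
      rcases phX_root v p h1 with h2 | ⟨z', h2, h3⟩
      · exact h p 0 h2 (lt_of_lt_of_le (rk_pos z) hr)
      · apply h p (rk z') h2
        by_contra hcon
        push Not at hcon
        have h4 : z.length ≤ z'.length := rk_len (hr.trans hcon)
        have h5 := Lz_mono P τ h4
        unfold Lz at h5 h3
        omega

variable (hC : (wdA P τ N σ τ0).Good C)

/-- positions of the bits of the oracle of the machines -/
noncomputable def phO (P : Par) (τ : Ty) (N : ℕ) (σ τ0 C : Lang) (v : Str) : List ℕ ⊕ Bool :=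
  if τ.1 = true then
    (match v with
      | [] => Sum.inr false
      | false :: v => phX P τ N σ τ0 C v
      | true :: u => if u.length < N then Sum.inr (Aw τ σ u)
          else phX P τ N σ τ0 C (true :: true :: false :: u))
  else phX P τ N σ τ0 C v

include hC

theorem phO_eval (x : List ℕ → Bool) (v : Str) :
    Sum.elim x id (phO P τ N σ τ0 C v) = Om τ (XA P τ N σ τ0 C x) v := by
  unfold phO Om
  by_cases h : τ.1 = true
  · rw [if_pos h, if_pos h]
    rcases v with _ | ⟨b, u⟩
    · rfl
    · cases b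
      · exact phX_eval x u
      · show Sum.elim x id (if u.length < N then Sum.inr (Aw τ σ u)
          else phX P τ N σ τ0 C (true :: true :: false :: u)) = Aw τ (XA P τ N σ τ0 C x) u
        split_ifs with h1
        · exact (Wd.Aw_low hC (Yx P τ (List.replicate N false) x) τ h u h1).symm
        · rw [phX_eval]
          exact (Wd.Aw_act hC (Yx P τ (List.replicate N false) x) h rfl u (by
            show N ≤ _
            omega)).symm
  · rw [if_neg h, if_neg h]
    exact phX_eval x v

omit hC in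
theorem mach_isC (p : PIx) (l : List NIx) : ∃ b : ℕ, ∀ (P : Par) (τ : Ty) (N : ℕ)
    (σ τ0 C : Lang), (wdA P τ N σ τ0).Good C → ∀ n : ℕ, 2 ≤ n → ∀ u : Str, u.length ≤ n →
    IsC Set.univ (n ^ b) (n ^ b) l.length
      (fun x : List ℕ → Bool => sEval p l (Om τ (XA P τ N σ τ0 C x)) u) := by
  obtain ⟨b, hb⟩ := sEval_isC p l
  refine ⟨b, fun P τ N σ τ0 C hC n hn u hu => ?_⟩
  have h1 := (hb n hn u hu).rename (S' := Set.univ) (phO P τ N σ τ0 C)
    (fun _ _ _ _ => trivial)
  refine h1.congr (fun x => ?_)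
  congr 1
  funext v
  exact phO_eval hC x v

/-- validity of the codes of the active type, first kind -/
theorem val_act_S (hd : τ.2.1 ≠ true) {n : ℕ} (x : List ℕ → Bool)
    (hx : ∀ z, rk z < n → N ≤ Lz P τ z →
      tr (mA τ N) (τ.2.2 + 1) x [rk z] = cnt τ (XA P τ N σ τ0 C x) z)
    (hσ : ∀ z, val P.Bp τ σ z = cnt τ σ z) (z : Str) (hz : rk z < n) :
    val P.Bp τ (XA P τ N σ τ0 C x) z = cnt τ (XA P τ N σ τ0 C x) z := by
  have hσz := hσ z
  unfold val at hσz ⊢
  rw [if_neg hd] at hσz ⊢
  by_cases hL : N ≤ Lz P τ z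
  · rw [cd_XA hC x z hL]
    exact hx z hz hL
  · push Not at hL
    by_cases hN : N ≤ Wd.tlA P τ z
    · have h1 := Wd.cd_act_const hC (Yx P τ (List.replicate N false) x) (τ := τ) rfl z hN hL
      unfold ctt at h1
      rw [if_neg hd] at h1
      exact h1
    · push Not at hN
      have h1 := Wd.cd_low hC (Yx P τ (List.replicate N false) x) τ z hN
      have h2 := Wd.cnt_low hC (Yx P τ (List.replicate N false) x) τ z hL
      exact h1.trans (hσz.trans h2.symm)

/-- validity of the codes of the active type, second kind -/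
theorem val_act_D (hd : τ.2.1 = true) {n : ℕ} (x : List ℕ → Bool)
    (hx : ∀ z, rk z < n → N ≤ Lz P τ (false :: z) →
      xor (tr (mA τ N) (τ.2.2 + 1) x [2 * rk z]) (tr (mA τ N) (τ.2.2 + 1) x [2 * rk z + 1]) =
        cnt τ (XA P τ N σ τ0 C x) z)
    (hσ : ∀ z, val P.Bp τ σ z = cnt τ σ z) (z : Str) (hz : rk z < n) :
    val P.Bp τ (XA P τ N σ τ0 C x) z = cnt τ (XA P τ N σ τ0 C x) z := by
  have hσz := hσ z
  unfold val at hσz ⊢
  rw [if_pos hd] at hσz ⊢
  by_cases hL : N ≤ Lz P τ (false :: z)
  · have h1 := cd_XA hC x (false :: z) hL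
    have h2 := cd_XA hC x (true :: z) hL
    rw [h1, h2]
    have h3 := hx z hz hL
    simpa [rk] using h3
  · push Not at hL
    have hLz : Lz P τ z < N := lt_of_le_of_lt (Lz_mono P τ (by simp)) hL
    by_cases hN : N ≤ Wd.tlA P τ (false :: z)
    · have h1 := Wd.cd_act_const hC (Yx P τ (List.replicate N false) x) (τ := τ) rfl
        (false :: z) hN hL
      have h2 := Wd.cd_act_const hC (Yx P τ (List.replicate N false) x) (τ := τ) rfl
        (true :: z) (by rw [Wd.tlA_cons τ z true false]; exact hN) hL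
      unfold ctt at h1 h2
      rw [if_pos hd] at h1 h2
      have h3 : cd P.Bp τ (XA P τ N σ τ0 C x) (false :: z) = cnt τ (XA P τ N σ τ0 C x) z := h1
      have h4 : cd P.Bp τ (XA P τ N σ τ0 C x) (true :: z) = false := h2
      rw [h3, h4]
      simp
    · push Not at hN
      have h1 := Wd.cd_low hC (Yx P τ (List.replicate N false) x) τ (false :: z) hN
      have h2 := Wd.cd_low hC (Yx P τ (List.replicate N false) x) τ (true :: z)
        (by rw [Wd.tlA_cons τ z true false]; exact hN)
      have h3 := Wd.cnt_low hC (Yx P τ (List.replicate N false) x) τ z hLz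
      have h4 : cd P.Bp τ (XA P τ N σ τ0 C x) (false :: z) = cd P.Bp τ σ (false :: z) := h1
      have h5 : cd P.Bp τ (XA P τ N σ τ0 C x) (true :: z) = cd P.Bp τ σ (true :: z) := h2
      rw [h4, h5, hσz]
      exact h3.symm

end

end Pool.Agent.Lib.Pa76659P
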