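import Pool.Agent.Lib.Pa76659P.Rounds

/-!
The two adversary theorems: the depth hierarchy in the presence of coded trees.
-/

set_option maxHeartbeats 4000000

namespace Pool.Agent.Lib.Pa76659P

open Pool.Agent.Lib.Pa76659 Pool.Agent.Lib.Pa76659.Switch Pool.Agent.Lib.Pa76659.Hier

theorem qin_univ {V α : Type*} (T : DT V α) : T.QIn Set.univ := by
  induction T with
  | leaf _ => trivial
  | node v f t hf ht => exact ⟨trivial, hf, ht⟩

/-- among more than `L.length` positions `y :: b` one is not in the list `L` -/
theorem exists_fresh (L : List (List ℕ)) (n : ℕ) (hn : L.length < n) (b : List ℕ) :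
    ∃ y < n, (y :: b) ∉ L := by
  by_contra hcon
  push Not at hcon
  have h6 : ((Finset.range n).image (fun y => y :: b)) ⊆ L.toFinset := by
    intro l hl
    obtain ⟨y, hy, rfl⟩ := Finset.mem_image.1 hl
    exact List.mem_toFinset.2 (hcon y (Finset.mem_range.1 hy))
  have h7 := Finset.card_le_card h6
  rw [Finset.card_image_of_injective _ (by intro a b h; simpa using h), Finset.card_range] at h7
  have h8 := List.toFinset_card_le L
  omega

theorem tr_one (m : ℕ → ℕ) (x : List ℕ → Bool) (u : List ℕ) :
    tr m 1 x u = true ↔ ∃ y < m 0, x (y :: u) = false := by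
  rw [tr, decide_eq_true_iff]
  exact Iff.rfl

theorem tr_one_false (m : ℕ → ℕ) (x : List ℕ → Bool) (u : List ℕ)
    (h : ∀ y, x (y :: u) = true) : tr m 1 x u = false := by
  cases hc : tr m 1 x u
  · rfl
  · obtain ⟨y, _, hy⟩ := (tr_one m x u).1 hc
    rw [h y] at hy
    simp at hy

theorem tr_one_congr (m : ℕ → ℕ) (x x' : List ℕ → Bool) (u : List ℕ)
    (h : ∀ y, x (y :: u) = x' (y :: u)) : tr m 1 x u = tr m 1 x' u := by
  rw [Bool.eq_iff_iff, tr_one, tr_one]
  simp only [h]

/-- the requirement on the fan-ins in `advSigma` -/
def MS (k w t a D R : ℕ) : ℕ := MR w R (k + 2) a 0 (fun s => D * s + 1) k t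

/-- Trees of height `k + 1`; the trees with index `1 ≤ r < n` carry arbitrary contents which depend
on the earlier trees. A decision tree whose queries are depth `k` circuits does not compute the
value of the tree with index `0`. -/
theorem advSigma (k w t a D R W n : ℕ) (hW : W ≤ 2 ^ R) (hn : n ≤ W) (m : ℕ → ℕ)
    (hm : ∀ i ≤ k, MS k w t a D R ≤ m i ∧ m i ≤ W)
    {ι : Type} [Fintype ι] (hι : Fintype.card ι ≤ 2 ^ a)
    (q : ι → (List ℕ → Bool) → Bool) (hq : ∀ i, IsC Set.univ w t k (q i))
    (T : DT ι Bool) (hT : T.depth ≤ D) (cont : ℕ → (List ℕ → Bool) → Bool)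
    (hcont : ∀ r x x', AgreeBelow r x x' → cont r x = cont r x') :
    ∃ x : List ℕ → Bool, (∀ r, 1 ≤ r → r < n → tr m (k + 1) x [r] = cont r x) ∧
      T.eval (fun i => q i x) ≠ tr m (k + 1) x [0] := by
  classical
  obtain ⟨s, m', sub, h1, h2, h3, h4⟩ := rounds w R W (k + 2) a 0 hW (fun s => D * s + 1) 1 k t
    (fun _ => k + 2) m (by intro r; omega) (by
      intro i hi
      exact hm i (by omega)) hι q (by
      intro i
      exact hq i)
  have hm0 := (h2 0 (by omega)).1
  choose Tq hT1 hT2 hT3 using h1
  set TT : DT (List ℕ) Bool := T.subst Tq with hTT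
  have hd : TT.depth ≤ D * s := by
    have h5 := DT.depth_subst Tq Set.univ s (fun i _ => hT1 i) T (qin_univ T)
    exact h5.trans (Nat.mul_le_mul_right _ hT)
  have hTe : ∀ x, TT.eval x = T.eval (fun i => q i (sub x)) := by
    intro x
    rw [hTT, DT.eval_subst]
    congr 1
    funext i
    exact (hT3 i x).symm
  set v : Bool := TT.eval (fun _ => true) with hv
  set L : List (List ℕ) := queries (fun _ => true) TT with hL
  have hLlen : L.length < m' 0 := by
    have h5 := queries_length (fun _ => true) TT
    have h6 : D * s + 1 ≤ m' 0 := hm0
    rw [hL]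
    omega
  have build : ∀ N : ℕ, ∃ x : List ℕ → Bool, (∀ p ∈ L, x p = true) ∧
      (∀ (p : List ℕ) (r : ℕ), p.getLast? = some r → N ≤ r → x p = true) ∧
      (1 ≤ N → tr m' 1 x [0] = !v) ∧
      (∀ r, 1 ≤ r → r < N → tr m' 1 x [r] = cont r (sub x)) := by
    intro N
    induction N with
    | zero => exact ⟨fun _ => true, fun _ _ => rfl, fun _ _ _ _ => rfl, by omega, by omega⟩
    | succ N ih =>
        obtain ⟨x, g1, g2, g3, g4⟩ := ih
        obtain ⟨y, hy, hyL⟩ := exists_fresh L (m' 0) hLlen [N]
        set d : Bool := if N = 0 then !v else cont N (sub x) with hd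
        let x' : List ℕ → Bool := fun p => if p = [y, N] then (!d) else x p
        have e1 : ∀ (p : List ℕ) (r : ℕ), p.getLast? = some r → r ≠ N → x' p = x p := by
          intro p r hp hr
          simp only [x']
          rw [if_neg]
          rintro rfl
          apply hr
          simpa using hp.symm
        have e2 : AgreeBelow N x' x := by
          intro p r hp hr
          exact e1 p r hp (by omega)
        have e3 : tr m' 1 x' [N] = d := by
          cases hdd : d
          · apply tr_one_false
            intro z
            simp only [x']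
            split_ifs with hz
            · simp [hdd]
            · exact g2 [z, N] N (by simp) le_rfl
          · rw [tr_one]
            refine ⟨y, hy, ?_⟩
            simp [x', hdd]
        have e4 : ∀ r, r ≠ N → tr m' 1 x' [r] = tr m' 1 x [r] := by
          intro r hr
          apply tr_one_congr
          intro z
          exact e1 [z, r] r (by simp) hr
        refine ⟨x', ?_, ?_, ?_, ?_⟩
        · intro p hp
          simp only [x']
          rw [if_neg]
          · exact g1 p hp
          · rintro rfl
            exact hyL hp
        · intro p r hp hr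
          rw [e1 p r hp (by omega)]
          exact g2 p r hp (by omega)
        · intro _
          by_cases hN : N = 0
          · subst hN
            rw [e3, hd, if_pos rfl]
          · rw [e4 0 (fun h => hN h.symm)]
            exact g3 (by omega)
        · intro r hr1 hr2
          by_cases hrN : r = N
          · subst hrN
            rw [e3, hd, if_neg (by omega)]
            exact hcont r _ _ (h4.agreeBelow (fun p r' hp hr' => (e2 p r' hp hr').symm))
          · rw [e4 r hrN, g4 r hr1 (by omega)]
            apply hcont
            apply h4.agreeBelow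
            intro p r' hp hr'
            exact (e1 p r' hp (by omega)).symm
  obtain ⟨x, g1, _, g3, g4⟩ := build (n + 1)
  have hW0 : 0 < W := by
    have h5 := (h2 0 (by omega))
    have h6 : D * s + 1 ≤ m' 0 := h5.1
    omega
  refine ⟨sub x, ?_, ?_⟩
  · intro r hr1 hr2
    have h5 := h3 x r (by omega) 1 (by omega)
    have h6 : 1 + k = k + 1 := by omega
    rw [h6] at h5
    rw [h5]
    exact g4 r hr1 (by omega)
  · have h5 := h3 x 0 hW0 1 (by omega)
    have h6 : 1 + k = k + 1 := by omega
    rw [h6] at h5
    rw [h5, g3 (by omega), ← hTe]
    have h7 : TT.eval x = TT.eval (fun _ => true) := queries_eval _ _ TT (fun p hp => g1 p hp)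
    rw [h7]
    cases hv2 : TT.eval (fun _ => true) <;> simp_all

/-- the requirement on the fan-ins in `advDelta` -/
def MD (k w t R : ℕ) : ℕ := MR w R (k + 3) 0 1 (fun s => s + 1) k t

/-- The main tree (index `0`) has height `k + 2`, the other trees have height `k + 1`; the pair of
trees `2c`, `2c + 1`, `1 ≤ c < n`, carries (as exclusive or) an arbitrary content which depends on
the earlier trees. A depth `k + 1` circuit does not compute the value of the main tree. -/
theorem advDelta (k w t R W n : ℕ) (hW : W ≤ 2 ^ R) (hn : 2 * n ≤ W) (m : ℕ → ℕ)
    (hm : ∀ i ≤ k + 1, MD k w t R ≤ m i ∧ m i ≤ W)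
    (f : (List ℕ → Bool) → Bool) (hf : IsC Set.univ w t (k + 1) f)
    (cont : ℕ → (List ℕ → Bool) → Bool)
    (hcont : ∀ c x x', AgreeBelow (2 * c) x x' → cont c x = cont c x') :
    ∃ x : List ℕ → Bool, (∀ c, 1 ≤ c → c < n →
        xor (tr m (k + 1) x [2 * c]) (tr m (k + 1) x [2 * c + 1]) = cont c x) ∧
      f x ≠ tr m (k + 2) x [0] := by
  classical
  obtain ⟨s, m', sub, h1, h2, h3, h4⟩ := rounds w R W (k + 3) 0 1 hW (fun s => s + 1) 2 k t
    (fun r => if r = 0 then k + 3 else k + 2) m (by intro r; split_ifs <;> omega) (by
      intro i hi
      exact hm i (by omega)) (ι := Unit) (by simp) (fun _ => f) (fun _ => hf)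
  have hf' : IsC Set.univ w s 1 (fun x => f (sub x)) := h1 ()
  have hm0 : s + 1 ≤ m' 0 := (h2 0 (by omega)).1
  have hm1 : s + 1 ≤ m' 1 := (h2 1 (by omega)).1
  have hW0 : 0 < W := by
    have := (h2 0 (by omega)).2
    omega
  have e0 : ∀ x, tr m (k + 2) (sub x) [0] = tr m' 2 x [0] := by
    intro x
    have h5 := h3 x 0 hW0 2 (by simp; omega)
    have h6 : 2 + k = k + 2 := by omega
    rwa [h6] at h5
  have e1 : ∀ x r, 1 ≤ r → r < W → tr m (k + 1) (sub x) [r] = tr m' 1 x [r] := by
    intro x r hr hrW
    have h5 := h3 x r hrW 1 (by rw [if_neg (by omega)]; omega)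
    have h6 : 1 + k = k + 1 := by omega
    rwa [h6] at h5
  -- the first world
  have build1 : ∀ N : ℕ, 1 ≤ N → ∃ x : List ℕ → Bool,
      (∀ (p : List ℕ) (r : ℕ), p.getLast? = some r → r < 2 ∨ 2 * N ≤ r → x p = true) ∧
      (∀ c, 1 ≤ c → c < N → tr m' 1 x [2 * c] = cont c (sub x) ∧
        ∀ y, x [y, 2 * c + 1] = true) := by
    intro N hN
    induction N, hN using Nat.le_induction with
    | base => exact ⟨fun _ => true, fun _ _ _ _ => rfl, by omega⟩
    | succ N hN ih =>
        obtain ⟨x, g1, g2⟩ := ih
        set d : Bool := cont N (sub x) with hd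
        let x' : List ℕ → Bool := fun p => if p = [0, 2 * N] then (!d) else x p
        have e1 : ∀ (p : List ℕ) (r : ℕ), p.getLast? = some r → r ≠ 2 * N → x' p = x p := by
          intro p r hp hr
          simp only [x']
          rw [if_neg]
          rintro rfl
          apply hr
          simpa using hp.symm
        have e3 : tr m' 1 x' [2 * N] = d := by
          cases hdd : d
          · apply tr_one_false
            intro z
            simp only [x']
            split_ifs with hz
            · simp [hdd]
            · exact g1 [z, 2 * N] (2 * N) (by simp) (Or.inr le_rfl)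
          · rw [tr_one]
            refine ⟨0, by omega, ?_⟩
            simp [x', hdd]
        refine ⟨x', ?_, ?_⟩
        · intro p r hp hr
          rw [e1 p r hp (by omega)]
          exact g1 p r hp (by omega)
        · intro c hc1 hc2
          by_cases hcN : c = N
          · subst hcN
            refine ⟨?_, ?_⟩
            · rw [e3, hd]
              apply hcont
              apply h4.agreeBelow
              intro p r' hp hr'
              exact (e1 p r' hp (by omega)).symm
            · intro y
              rw [e1 _ (2 * c + 1) (by simp) (by omega)]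
              exact g1 _ (2 * c + 1) (by simp) (Or.inr (by omega))
          · obtain ⟨g3, g4⟩ := g2 c hc1 (by omega)
            refine ⟨?_, ?_⟩
            · rw [tr_one_congr m' x' x [2 * c] (fun y => e1 _ (2 * c) (by simp) (by omega)), g3]
              apply hcont
              apply h4.agreeBelow
              intro p r' hp hr'
              exact (e1 p r' hp (by omega)).symm
            · intro y
              rw [e1 _ (2 * c + 1) (by simp) (by omega)]
              exact g4 y
  obtain ⟨x, g1, g2⟩ := build1 (n + 1) (by omega)
  have hmain : tr m' 2 x [0] = true := by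
    rw [tr]
    simp only [decide_eq_true_eq]
    refine ⟨0, by omega, ?_⟩
    apply tr_one_false
    intro y
    exact g1 [y, 0, 0] 0 (by simp) (Or.inl (by omega))
  by_cases hfx : f (sub x) = true
  swap
  · refine ⟨sub x, ?_, ?_⟩
    · intro c hc1 hc2
      rw [e1 x (2 * c) (by omega) (by omega), e1 x (2 * c + 1) (by omega) (by omega)]
      obtain ⟨g3, g4⟩ := g2 c hc1 (by omega)
      rw [g3, tr_one_false m' x [2 * c + 1] (fun y => g4 y)]
      simp
    · rw [e0, hmain]
      exact hfx
  · -- the second world
    obtain ⟨gg, hg1, hg2⟩ := hf'
    obtain ⟨j, hj⟩ := (hg2 x).1 hfx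
    obtain ⟨T, hT1, hT2, hT3⟩ := hg1 j
    set L : List (List ℕ) := queries x T with hL
    have hLlen : L.length < m' 0 := by
      have h5 := queries_length x T
      rw [hL]
      omega
    have build2 : ∀ N : ℕ, 1 ≤ N → ∃ z : List ℕ → Bool, (∀ p ∈ L, z p = x p) ∧
        (∀ (p : List ℕ) (r : ℕ), p.getLast? = some r → 2 * N ≤ r → z p = x p) ∧
        (∀ i, tr m' 1 z [i, 0] = true) ∧
        (∀ c, 1 ≤ c → c < N →
          xor (tr m' 1 z [2 * c]) (tr m' 1 z [2 * c + 1]) = cont c (sub z)) := by
      intro N hN
      induction N, hN using Nat.le_induction with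
      | base =>
          refine ⟨fun p => if p.getLast? = some 0 ∧ p ∉ L then false else x p, ?_, ?_, ?_, ?_⟩
          · intro p hp
            simp only
            rw [if_neg]
            rintro ⟨_, h⟩
            exact h hp
          · intro p r hp hr
            simp only
            rw [if_neg]
            rintro ⟨h, _⟩
            rw [hp] at h
            have : r = 0 := by simpa using h
            omega
          · intro i
            obtain ⟨y, hy, hyL⟩ := exists_fresh L (m' 0) hLlen [i, 0]
            rw [tr_one]
            refine ⟨y, hy, ?_⟩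
            rw [if_pos]
            exact ⟨by simp, hyL⟩
          · intro c hc1 hc2
            omega
      | succ N hN ih =>
          obtain ⟨z, g3, g4, g5, g6⟩ := ih
          obtain ⟨y, hy, hyL⟩ := exists_fresh L (m' 0) hLlen [2 * N + 1]
          set d : Bool := cont N (sub z) with hd
          set α : Bool := tr m' 1 z [2 * N] with hα
          let z' : List ℕ → Bool := fun p => if p = [y, 2 * N + 1] ∧ d ≠ α then false else z p
          have e5 : ∀ (p : List ℕ) (r : ℕ), p.getLast? = some r → r ≠ 2 * N + 1 →
              z' p = z p := by
            intro p r hp hr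
            simp only [z']
            rw [if_neg]
            rintro ⟨rfl, _⟩
            apply hr
            simpa using hp.symm
          have e6 : ∀ c, c ≤ N → cont c (sub z') = cont c (sub z) := by
            intro c hc
            apply hcont
            apply h4.agreeBelow
            intro p r' hp hr'
            exact e5 p r' hp (by omega)
          have hzb : ∀ y', z [y', 2 * N + 1] = true ∨ ¬ (N < n + 1) := by
            intro y'
            by_cases hNn : N < n + 1
            · left
              rw [g4 _ (2 * N + 1) (by simp) (by omega)]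
              exact (g2 N hN hNn).2 y'
            · exact Or.inr hNn
          have hzb' : ∀ y', z [y', 2 * N + 1] = true := by
            intro y'
            rcases hzb y' with h | h
            · exact h
            · rw [g4 _ (2 * N + 1) (by simp) (by omega)]
              exact g1 _ (2 * N + 1) (by simp) (Or.inr (by omega))
          have e7 : xor (tr m' 1 z' [2 * N]) (tr m' 1 z' [2 * N + 1]) = d := by
            rw [tr_one_congr m' z' z [2 * N] (fun y' => e5 _ (2 * N) (by simp) (by omega)), ← hα]
            by_cases hdα : d = α
            · rw [tr_one_false m' z' [2 * N + 1]]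
              · simp [hdα]
              · intro y'
                simp only [z']
                rw [if_neg (by rintro ⟨_, h⟩; exact h hdα)]
                exact hzb' y'
            · have h5 : tr m' 1 z' [2 * N + 1] = true := by
                rw [tr_one]
                refine ⟨y, hy, ?_⟩
                simp [z', hdα]
              rw [h5]
              revert hdα
              cases d <;> cases α <;> simp
          refine ⟨z', ?_, ?_, ?_, ?_⟩
          · intro p hp
            simp only [z']
            rw [if_neg]
            · exact g3 p hp
            · rintro ⟨rfl, _⟩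
              exact hyL hp
          · intro p r hp hr
            rw [e5 p r hp (by omega)]
            exact g4 p r hp (by omega)
          · intro i
            rw [tr_one_congr m' z' z [i, 0] (fun y' => e5 _ 0 (by simp) (by omega))]
            exact g5 i
          · intro c hc1 hc2
            by_cases hcN : c = N
            · subst hcN
              rw [e7, e6 c le_rfl]
            · rw [tr_one_congr m' z' z [2 * c] (fun y' => e5 _ (2 * c) (by simp) (by omega)),
                tr_one_congr m' z' z [2 * c + 1]
                  (fun y' => e5 _ (2 * c + 1) (by simp) (by omega)),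
                g6 c hc1 (by omega), e6 c (by omega)]
    obtain ⟨z, g3, _, g5, g6⟩ := build2 (n + 1) (by omega)
    refine ⟨sub z, ?_, ?_⟩
    · intro c hc1 hc2
      rw [e1 z (2 * c) (by omega) (by omega), e1 z (2 * c + 1) (by omega) (by omega)]
      exact g6 c hc1 (by omega)
    · rw [e0]
      have h5 : tr m' 2 z [0] = false := by
        cases hc : tr m' 2 z [0]
        · rfl
        · rw [tr] at hc
          simp only [decide_eq_true_eq] at hc
          obtain ⟨i, _, hi⟩ := hc
          have h6 := g5 i
          rw [h6] at hi
          simp at hi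
      have h6 : f (sub z) = true := by
        refine (hg2 z).2 ⟨j, ?_⟩
        rw [hT3, queries_eval x z T (fun p hp => g3 p hp), ← hT3]
        exact hj
      rw [h5, h6]
      simp

end Pool.Agent.Lib.Pa76659P
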