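import Pool.Agent.Lib.Pa76659P.Round

/-!
Several rounds of the random projection on a forest.
-/

set_option maxHeartbeats 4000000

namespace Pool.Agent.Lib.Pa76659P

open Pool.Agent.Lib.Pa76659 Pool.Agent.Lib.Pa76659.Switch Pool.Agent.Lib.Pa76659.Hier

/-- requirement on the fan-ins for `j` rounds, after which fan-in `M s` is needed for decision trees
of depth `s` -/
def MR (w R E a e : ℕ) (M : ℕ → ℕ) : ℕ → ℕ → ℕ
  | 0, t => M t
  | j + 1, t => GG R E t * (MR w R E a e M j (a + w * (j + e) + 2) + 1)

theorem RootLocal.comp {s1 s2 : (List ℕ → Bool) → (List ℕ → Bool)} (h1 : RootLocal s1)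
    (h2 : RootLocal s2) : RootLocal (fun x => s1 (s2 x)) := by
  intro x x' v hv
  apply h1
  intro u hu
  apply h2
  intro u' hu'
  exact hv u' (hu'.trans hu)

theorem rounds (w R W E a e : ℕ) (hW : W ≤ 2 ^ R) (M : ℕ → ℕ) (N : ℕ) :
    ∀ (j t : ℕ) (ℓ : ℕ → ℕ) (m : ℕ → ℕ),
    (∀ r, j + 2 ≤ ℓ r ∧ ℓ r ≤ E ∧ ℓ r ≤ N + 1 + j) →
    (∀ i < N + j, MR w R E a e M j t ≤ m i ∧ m i ≤ W) →
    ∀ {ι : Type} [Fintype ι], Fintype.card ι ≤ 2 ^ a →
    ∀ q : ι → (List ℕ → Bool) → Bool, (∀ i, IsC Set.univ w t (j + e) (q i)) →
    ∃ (s : ℕ) (m' : ℕ → ℕ) (sub : (List ℕ → Bool) → (List ℕ → Bool)),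
      (∀ i, IsC Set.univ w s e (fun x => q i (sub x))) ∧
      (∀ i < N, M s ≤ m' i ∧ m' i ≤ W) ∧
      (∀ (x : List ℕ → Bool) (r : ℕ), r < W → ∀ h, ℓ r = h + j + 1 →
        tr m (h + j) (sub x) [r] = tr m' h x [r]) ∧
      RootLocal sub := by
  intro j
  induction j with
  | zero =>
      intro t ℓ m hℓ hm ι _ hι q hq
      refine ⟨t, m, id, ?_, ?_, ?_, ?_⟩
      · intro i
        have := hq i
        rw [Nat.zero_add] at this
        exact this
      · intro i hi
        exact hm i (by omega)
      · intro x r _ h _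
        rfl
      · intro x x' v hv
        exact hv v rfl
  | succ j ih =>
      intro t ℓ m hℓ hm ι _ hι q hq
      have hq' : ∀ i, IsC Set.univ w t ((j + e) + 1) (q i) := by
        intro i
        have h1 := hq i
        have h2 : j + 1 + e = (j + e) + 1 := by omega
        rw [h2] at h1
        exact h1
      have hred := fun i => reduce w t (j + e) (q i) (hq' i)
      choose κ hκ g hc hg hs using hred
      have hN : 1 ≤ N + j := by
        have h1 := (hℓ 0).1
        have h2 := (hℓ 0).2.2
        omega
      have hG0 : GG R E t * (MR w R E a e M j (a + w * (j + e) + 2) + 1) ≤ m 0 :=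
        (hm 0 (by omega)).1
      have hGpos : 0 < GG R E t := by rw [GG]; positivity
      obtain ⟨sub1, h1, h2, h3⟩ := round w R W E t (a + w * (j + e)) hW ℓ
        (fun r => ⟨by have := (hℓ r).1; omega, (hℓ r).2.1⟩) m
        (by
          refine le_trans ?_ hG0
          exact Nat.le_mul_of_pos_right _ (by omega))
        (by
          intro r i hi
          have := (hℓ r).2.2
          exact (hm i (by omega)).2)
        (ι := Σ i, κ i) (by
          rw [Fintype.card_sigma]
          calc ∑ i, Fintype.card (κ i) ≤ ∑ _i : ι, 2 ^ (w * (j + e)) :=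
                Finset.sum_le_sum (fun i _ => hc i)
            _ = Fintype.card ι * 2 ^ (w * (j + e)) := by simp
            _ ≤ 2 ^ a * 2 ^ (w * (j + e)) := Nat.mul_le_mul_right _ hι
            _ = 2 ^ (a + w * (j + e)) := by rw [pow_add])
        (fun p => g p.1 p.2) (fun p => hg p.1 p.2)
      set m2 : ℕ → ℕ := fun i => if i = 0 then m 1 / GG R E t else m (i + 1) with hm2
      obtain ⟨s, m', sub2, g1, g2, g3, g4⟩ := ih (a + w * (j + e) + 2) (fun r => ℓ r - 1) m2
        (by
          intro r
          have h4 := hℓ r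
          omega)
        (by
          intro i hi
          by_cases hi0 : i = 0
          · subst hi0
            simp only [hm2, if_true]
            have h5 := hm 1 (by omega)
            refine ⟨?_, (Nat.div_le_self _ _).trans h5.2⟩
            have h6 : GG R E t * (MR w R E a e M j (a + w * (j + e) + 2) + 1) ≤ m 1 := h5.1
            have h7 : MR w R E a e M j (a + w * (j + e) + 2) + 1 ≤ m 1 / GG R E t := by
              rw [Nat.le_div_iff_mul_le hGpos]
              rw [mul_comm]
              exact h6
            omega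
          · simp only [hm2, if_neg hi0]
            have h5 := hm (i + 1) (by omega)
            refine ⟨?_, h5.2⟩
            have h6 : GG R E t * (MR w R E a e M j (a + w * (j + e) + 2) + 1) ≤ m (i + 1) := h5.1
            refine le_trans ?_ h6
            nlinarith)
        hι (fun i x => q i (sub1 x)) (fun i => hs i (List ℕ) (a + w * (j + e) + 2) sub1
          (fun c => h1 ⟨i, c⟩))
      refine ⟨s, m', fun x => sub1 (sub2 x), ?_, g2, ?_, h3.comp g4⟩
      · intro i
        exact g1 i
      · intro x r hr h hh
        have h5 := (hℓ r).1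
        obtain ⟨h', rfl⟩ : ∃ h', h = h' + 1 := ⟨h - 1, by omega⟩
        have h6 := h2 (sub2 x) [r] r (by simp) (by simpa using hr) (h' + j) (by
          simp only [List.length_singleton]; omega)
        have h7 := g3 x r hr (h' + 1) (by omega)
        have e1 : h' + 1 + (j + 1) = h' + j + 2 := by omega
        have e2 : h' + 1 + j = h' + j + 1 := by omega
        rw [e1, h6]
        rw [e2] at h7
        exact h7

end Pool.Agent.Lib.Pa76659P
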