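import Pool.Agent.Lib.Pa76659P.Loc2
import Pool.Agent.Lib.Pa76659P.Tabs
import Pool.Agent.Lib.Pa76659P.Rounds

/-!
Oracles of a window, complexity of the contents, and the parameters.
-/

set_option maxHeartbeats 4000000

namespace Pool.Agent.Lib.Pa76659P

open Pool.Agent.Lib.Pa76659 Pool.Agent.Lib.Pa76659.Hier

/-- the oracle with the table bits of `C`, the fixed bits `fx` and the other bits `Y` -/
def mkW (C : Lang) (fx : Str → Option Bool) (Y : Str → Bool) : Lang
  | [] => C []
  | false :: w => C (false :: w)
  | true :: u => (fx u).getD (Y u)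

theorem mkW_self (C : Lang) (fx : Str → Option Bool) (Y : Str → Bool) :
    mkW C fx (fun u => mkW C fx Y (true :: u)) = mkW C fx Y := by
  funext v
  rcases v with _ | ⟨b, u⟩
  · rfl
  · cases b
    · rfl
    · simp only [mkW]
      cases fx u <;> rfl

theorem mkW_congr {C C' : Lang} (fx : Str → Option Bool) (Y : Str → Bool) {v : Str}
    (h : C v = C' v) : mkW C fx Y v = mkW C' fx Y v := by
  rcases v with _ | ⟨b, u⟩
  · exact h
  · cases b
    · exact h
    · rfl

/-- variables of the bits of the window oracle -/
def phW (C : Lang) (fx : Str → Option Bool) : Str → Str ⊕ Bool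
  | [] => Sum.inr (C [])
  | false :: w => Sum.inr (C (false :: w))
  | true :: u => match fx u with
    | some b => Sum.inr b
    | none => Sum.inl u

theorem phW_eval (C : Lang) (fx : Str → Option Bool) (Y : Str → Bool) (v : Str) :
    Sum.elim Y id (phW C fx v) = mkW C fx Y v := by
  rcases v with _ | ⟨b, u⟩
  · rfl
  · cases b
    · rfl
    · simp only [phW, mkW]
      cases fx u <;> rfl

theorem phW_len (C : Lang) (fx : Str → Option Bool) (v u : Str) (h : phW C fx v = Sum.inl u) :
    u.length ≤ v.length := by
  rcases v with _ | ⟨b, u'⟩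
  · simp [phW] at h
  · cases b
    · simp [phW] at h
    · simp only [phW] at h
      cases hf : fx u' with
      | some b => rw [hf] at h; simp at h
      | none =>
          rw [hf] at h
          simp only [Sum.inl.injEq] at h
          rw [← h]; simp

/-- level of the content -/
def clev (τ : Ty) : ℕ := if τ.1 = true then τ.2.2 + 2 else τ.2.2 + 1

theorem cnt_isC (τ : Ty) : ∃ b : ℕ, ∀ (C : Lang) (fx : Str → Option Bool),
    (τ.1 ≠ true → ∃ a, ∀ Y, Aw τ (mkW C fx Y) = a) → ∀ n : ℕ, 2 ≤ n → ∀ z : Str, z.length ≤ n →
    IsC (SL (n ^ b)) (n ^ b) (n ^ b) (clev τ) (fun Y => cnt τ (mkW C fx Y) z) := by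
  obtain ⟨b, hb⟩ := J_isC (clev τ)
  refine ⟨b, fun C fx hA n hn z hz => ?_⟩
  have h1 := hb n hn z hz
  by_cases h : τ.1 = true
  · -- high types
    let φ : Str → Str ⊕ Bool := fun v => match v with
      | [] => Sum.inr false
      | _ :: v => phW C fx v
    have h2 := h1.rename (S' := SL (n ^ b)) φ (by
      intro v hv v' hv'
      rcases v with _ | ⟨c, v⟩
      · simp [φ] at hv'
      · have h3 := phW_len C fx v v' hv'
        have h4 : (c :: v).length ≤ n ^ b := hv
        simp only [List.length_cons] at h4
        show v'.length ≤ n ^ b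
        omega)
    refine h2.congr (fun Y => ?_)
    unfold cnt clev
    rw [if_pos h, if_pos h]
    congr 1
    funext v
    rcases v with _ | ⟨c, v⟩
    · rfl
    · cases c <;> exact phW_eval C fx Y v
  · obtain ⟨a, ha⟩ := hA h
    let φ : Str → Str ⊕ Bool := fun v => match v with
      | [] => Sum.inr false
      | false :: v => phW C fx v
      | [true] => Sum.inr false
      | true :: false :: v => phW C fx v
      | true :: true :: v => Sum.inr (a v)
    have h2 := h1.rename (S' := SL (n ^ b)) φ (by
      intro v hv v' hv'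
      have h4 : v.length ≤ n ^ b := hv
      rcases v with _ | ⟨c, v⟩
      · simp [φ] at hv'
      · cases c
        · have h3 := phW_len C fx v v' hv'
          simp only [List.length_cons] at h4
          show v'.length ≤ n ^ b
          omega
        · rcases v with _ | ⟨c, v⟩
          · simp [φ] at hv'
          · cases c
            · have h3 := phW_len C fx v v' hv'
              simp only [List.length_cons] at h4
              show v'.length ≤ n ^ b
              omega
            · simp [φ] at hv')
    refine h2.congr (fun Y => ?_)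
    unfold cnt clev
    rw [if_neg h, if_neg h, ha Y]
    congr 1
    funext v
    rcases v with _ | ⟨c, v⟩
    · rfl
    · cases c
      · exact phW_eval C fx Y v
      · rcases v with _ | ⟨c, v⟩
        · rfl
        · cases c
          · exact phW_eval C fx Y v
          · rfl

/-! ### decomposition -/

theorem tr_shift (m : ℕ → ℕ) (v : List ℕ) : ∀ (j : ℕ) (x : List ℕ → Bool) (u : List ℕ),
    tr m j x (u ++ v) = tr m j (fun p => x (p ++ v)) u
  | 0, x, u => rfl
  | j + 1, x, u => by
      rw [tr, tr]
      apply decide_eq_decide.2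
      constructor
      · rintro ⟨y, hy, h⟩
        exact ⟨y, hy, by rw [← tr_shift m v j x (y :: u)]; exact h⟩
      · rintro ⟨y, hy, h⟩
        exact ⟨y, hy, by rw [← tr_shift m v j x (y :: u)] at h; exact h⟩

theorem exists_dec {V : Type} {S : Set V} {w t : ℕ} : ∀ (k : ℕ) {f : (V → Bool) → Bool},
    IsC S w t (k + 1) f → ∃ g : List ℕ → (V → Bool) → Bool, (∀ p, IsC S w t 1 (g p)) ∧
      ∀ Y, f Y = tr (fun _ => 2 ^ w) k (fun p => g p Y) []
  | 0, f, hf => ⟨fun _ => f, fun _ => hf, fun Y => rfl⟩
  | k + 1, f, hf => by
      classical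
      obtain ⟨h, h1, h2⟩ := hf
      choose g hg1 hg2 using fun i => exists_dec k (h1 i)
      have h2pos : 0 < 2 ^ w := by positivity
      let lastI : List ℕ → Fin (2 ^ w) := fun p =>
        if hh : p.getLast?.getD 0 < 2 ^ w then ⟨_, hh⟩ else ⟨0, h2pos⟩
      refine ⟨fun p => g (lastI p) p.dropLast, fun p => hg1 _ _, fun Y => ?_⟩
      have key : ∀ y (hy : y < 2 ^ w), tr (fun _ => 2 ^ w) k
          (fun p => g (lastI p) p.dropLast Y) [y] = h ⟨y, hy⟩ Y := by
        intro y hy
        have e := tr_shift (fun _ => 2 ^ w) [y] k (fun p => g (lastI p) p.dropLast Y) []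
        rw [List.nil_append] at e
        rw [e, hg2]
        congr 1
        funext p
        have e1 : lastI (p ++ [y]) = ⟨y, hy⟩ := by
          simp only [lastI, List.getLast?_append, List.getLast?_singleton, Option.some_or,
            Option.getD_some]
          rw [dif_pos hy]
        rw [e1, List.dropLast_concat]
      have h3 : f Y = true ↔ tr (fun _ => 2 ^ w) (k + 1)
          (fun p => g (lastI p) p.dropLast Y) [] = true := by
        rw [h2, tr, decide_eq_true_eq]
        constructor
        · rintro ⟨j, hj⟩
          exact ⟨j.1, j.2, by rw [key j.1 j.2]; exact hj⟩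
        · rintro ⟨y, hy, hy2⟩
          exact ⟨⟨y, hy⟩, by rw [← key y hy]; exact hy2⟩
      cases h4 : f Y <;> cases h5 : tr (fun _ => 2 ^ w) (k + 1)
          (fun p => g (lastI p) p.dropLast Y) [] <;> simp_all

/-- a tree over literals is a circuit -/
theorem tr_isC {V : Type} {S : Set V} {w : ℕ} (m : ℕ → ℕ) (nm : List ℕ → V) :
    ∀ (j : ℕ) (u : List ℕ), (∀ i < j, m i ≤ 2 ^ w) → (∀ a ∈ u, a < 2 ^ w) →
      (∀ p : List ℕ, p.length = j + u.length → (∀ a ∈ p, a < 2 ^ w) → nm p ∈ S) →
      IsC S w 1 j (fun Y => tr m j (fun p => Y (nm p)) u)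
  | 0, u, _, hu, hn => ⟨DT.node (nm u) (DT.leaf false) (DT.leaf true), by simp [DT.depth],
      ⟨hn u (by simp) hu, trivial, trivial⟩, fun Y => by
        simp only [tr, DT.eval]
        cases Y (nm u) <;> rfl⟩
  | j + 1, u, hm, hu, hn => by
      have hmj : m j ≤ 2 ^ w := hm j (by omega)
      refine IsC.of_exists (ι := Fin (m j)) (by simpa using hmj)
        (fun y Y => tr m j (fun p => Y (nm p)) (y.1 :: u)) (fun y => ?_) (fun Y => ?_)
      · apply tr_isC m nm j (y.1 :: u) (fun i hi => hm i (by omega))
        · intro a ha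
          rcases List.mem_cons.1 ha with rfl | ha
          · exact lt_of_lt_of_le y.2 hmj
          · exact hu a ha
        · intro p hp hp2
          apply hn p _ hp2
          rw [hp, List.length_cons]; ring
      · rw [tr, decide_eq_true_eq]
        constructor
        · rintro ⟨y, hy, h⟩; exact ⟨⟨y, hy⟩, h⟩
        · rintro ⟨y, h⟩; exact ⟨y.1, y.2, h⟩

end Pool.Agent.Lib.Pa76659P
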