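import Pool.Agent.Lib.Pa76659P.Rec

/-!
Polynomial locality.
-/

set_option maxHeartbeats 4000000

namespace Pool.Agent.Lib.Pa76659P

open Pool.Agent.Lib.Pa76659

theorem J0_congr (Z Z' : Lang) (s : Str) (h : ∀ v : Str, v.length ≤ s.length + 1 → Z v = Z' v) :
    J0 Z s = J0 Z' s := by
  unfold J0
  rw [h (false :: s) (by simp), interp_congr Z Z' s.reverse [] (by
    intro v hv
    apply h
    simpa using hv)]

theorem EE_congr (B B' : Lang) (s : Str) (h : ∀ v : Str, v.length = 2 * s.length → B v = B' v) :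
    EE B s = EE B' s := by
  unfold EE
  apply decide_eq_decide.2
  have key : ∀ y : Str, y.length = s.length → B (s ++ y) = B' (s ++ y) := by
    intro y hy
    apply h
    rw [List.length_append]; omega
  constructor
  · rintro ⟨y, hy, hy2⟩; exact ⟨y, hy, by rw [← key y hy]; exact hy2⟩
  · rintro ⟨y, hy, hy2⟩; exact ⟨y, hy, by rw [key y hy]; exact hy2⟩

theorem J_congr (Z Z' : Lang) : ∀ (κ : ℕ) (s : Str),
    (∀ v : Str, v.length ≤ 2 ^ κ * s.length + 1 → Z v = Z' v) → J κ Z s = J κ Z' s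
  | 0, s, h => J0_congr Z Z' s (by simpa using h)
  | κ + 1, s, h => by
      rw [J_succ, J_succ]
      apply EE_congr
      intro v hv
      apply J_congr Z Z' κ v
      intro u hu
      apply h
      rw [hv] at hu
      rw [pow_succ]
      calc u.length ≤ _ := hu
        _ = _ := by ring

/-- polynomial locality -/
def PL (F : Lang → Lang) : Prop := ∃ b : ℕ, ∀ (x : Str) (O O' : Lang),
  (∀ v : Str, v.length ≤ (x.length + 2) ^ b → O v = O' v) → F O x = F O' x

theorem PL.loc {F : Lang → Lang} (h : PL F) : Loc F := by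
  obtain ⟨b, hb⟩ := h
  intro n
  refine ⟨(n + 2) ^ b, fun O O' hO x hx => hb x O O' fun v hv => hO v (hv.trans ?_)⟩
  exact Nat.pow_le_pow_left (by omega) b

theorem pl_id : PL (fun O => O) :=
  ⟨1, fun x O O' h => h x (by rw [pow_one]; omega)⟩

theorem PL.comp {F G : Lang → Lang} (hF : PL F) (hG : PL G) : PL (fun O => F (G O)) := by
  obtain ⟨b, hb⟩ := hF
  obtain ⟨c, hc⟩ := hG
  refine ⟨(b + 2) * c, fun x O O' h => hb x _ _ fun v hv => hc v _ _ fun u hu => h u ?_⟩
  refine hu.trans ?_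
  rw [pow_mul]
  apply Nat.pow_le_pow_left
  have h1 : 1 ≤ (x.length + 2) ^ b := Nat.one_le_pow _ _ (by omega)
  have h2 : 4 ≤ (x.length + 2) ^ 2 := (by norm_num : 4 = 2 ^ 2) ▸ Nat.pow_le_pow_left (by omega) 2
  rw [pow_add]
  nlinarith

theorem pl_of_sub {F : Lang → Lang} {g : Str → Str} {c : ℕ}
    (hg : ∀ x : Str, (g x).length + 2 ≤ (x.length + 2) ^ c) (hF : PL F) :
    PL (fun O x => F O (g x)) := by
  obtain ⟨b, hb⟩ := hF
  refine ⟨c * b, fun x O O' h => hb (g x) O O' fun v hv => h v (hv.trans ?_)⟩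
  rw [pow_mul]
  exact Nat.pow_le_pow_left (hg x) b

theorem PL.max {F : Lang → Lang} {b : ℕ} (h : ∀ (x : Str) (O O' : Lang),
    (∀ v : Str, v.length ≤ (x.length + 2) ^ b → O v = O' v) → F O x = F O' x) {c : ℕ}
    (hc : b ≤ c) : ∀ (x : Str) (O O' : Lang),
    (∀ v : Str, v.length ≤ (x.length + 2) ^ c → O v = O' v) → F O x = F O' x :=
  fun x O O' hO => h x O O' fun v hv => hO v (hv.trans (Nat.pow_le_pow_right (by omega) hc))

theorem pl_J (k : ℕ) : PL (J k) := by
  refine ⟨k + 2, fun x O O' h => J_congr O O' k x fun v hv => h v (hv.trans ?_)⟩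
  have h1 : 2 ^ k ≤ (x.length + 2) ^ k := Nat.pow_le_pow_left (by omega) k
  have h2 : x.length + 1 ≤ (x.length + 2) ^ 2 := by nlinarith
  have h3 : 1 ≤ (x.length + 2) ^ k := Nat.one_le_pow _ _ (by omega)
  rw [pow_add]
  calc 2 ^ k * x.length + 1 ≤ (x.length + 2) ^ k * x.length + (x.length + 2) ^ k := by nlinarith
    _ = (x.length + 2) ^ k * (x.length + 1) := by ring
    _ ≤ _ := Nat.mul_le_mul_left _ h2

theorem pl_EE : PL EE := by
  refine ⟨2, fun x O O' h => EE_congr O O' x fun v hv => h v ?_⟩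
  rw [hv]; nlinarith

theorem pl_EE_iter : ∀ k : ℕ, PL (fun O => EE^[k] O)
  | 0 => pl_id
  | k + 1 => by
      have := pl_EE.comp (pl_EE_iter k)
      refine (show (fun O => EE^[k + 1] O) = (fun O => EE (EE^[k] O)) from ?_) ▸ this
      funext O
      rw [Function.iterate_succ_apply']

theorem pl_reg (e : ℕ) : PL (reg e) := by
  refine ⟨2 * e + 4, fun x O O' h => h _ ?_⟩
  simp only [List.length_append, List.length_replicate, List.length_cons]
  have h1 : 2 ^ (2 * e + 3) ≤ (x.length + 2) ^ (2 * e + 3) := Nat.pow_le_pow_left (by omega) _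
  have h2 : 2 * e + 3 < 2 ^ (2 * e + 3) := Nat.lt_two_pow_self
  rw [pow_succ]
  nlinarith

theorem pl_join {F G : Lang → Lang} (hF : PL F) (hG : PL G) : PL (fun O => join (F O) (G O)) := by
  obtain ⟨b, hb⟩ := hF
  obtain ⟨c, hc⟩ := hG
  refine ⟨max b c, fun x O O' h => ?_⟩
  rcases x with _ | ⟨d, v⟩
  · rfl
  · have hl : ∀ a, a ≤ max b c → (v.length + 2) ^ a ≤ ((d :: v).length + 2) ^ max b c := by
      intro a ha
      refine (Nat.pow_le_pow_left (show v.length + 2 ≤ (d :: v).length + 2 by simp) a).trans ?_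
      exact Nat.pow_le_pow_right (by omega) ha
    cases d
    · exact hb v O O' fun u hu => h u (hu.trans (hl b (le_max_left _ _)))
    · exact hc v O O' fun u hu => h u (hu.trans (hl c (le_max_right _ _)))

theorem pl_mixO {F G : Lang → Lang} (hF : PL F) (hG : PL G) : PL (fun O => mixO (F O) (G O)) := by
  obtain ⟨b, hb⟩ := hF
  obtain ⟨c, hc⟩ := hG
  refine ⟨max b c, fun x O O' h => ?_⟩
  have h0 : F O x = F O' x := hb x O O' fun u hu =>
    h u (hu.trans (Nat.pow_le_pow_right (by omega) (le_max_left _ _)))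
  rcases x with _ | ⟨d, v⟩
  · exact h0
  · cases d
    · exact h0
    · exact hc v O O' fun u hu => h u (hu.trans (by
        refine (Nat.pow_le_pow_left (show v.length + 2 ≤ (true :: v).length + 2 by simp) c).trans ?_
        exact Nat.pow_le_pow_right (by omega) (le_max_right _ _)))

theorem pl_sEval (p : PIx) (l : List NIx) : PL (sEval p l) := by
  obtain ⟨b, hb⟩ := sEval_congr p l
  exact ⟨b, hb⟩

theorem code_len_poly (j B : ℕ) : ∃ c : ℕ, ∀ x : Str,
    (code j B x).length + 2 ≤ (x.length + 2) ^ c := by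
  obtain ⟨c, hc⟩ := poly_le (Polynomial.C (j + 5) + Polynomial.X ^ (2 ^ B) + Polynomial.X)
  refine ⟨c, fun x => ?_⟩
  have h := hc (x.length + 2) (by omega)
  simp only [Polynomial.eval_add, Polynomial.eval_pow, Polynomial.eval_X,
    Polynomial.eval_C] at h
  rw [code_length]
  omega

theorem pl_Aw (τ : Ty) : PL (Aw τ) := by
  unfold Aw
  by_cases h : τ.1 = true
  · simp only [h, if_true]
    obtain ⟨c, hc⟩ := code_len_poly (2 * idx τ + 1) 2
    exact pl_of_sub hc (pl_J 1)
  · simp only [if_neg h]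
    exact pl_EE.comp (pl_reg _)

theorem pl_Yd (τ : Ty) : PL (Yd τ) := by
  unfold Yd
  by_cases h : τ.1 = true
  · simp only [h, if_true]
    exact pl_mixO pl_id (pl_Aw τ)
  · simp only [if_neg h]
    exact pl_id

theorem pl_cnt (τ : Ty) : PL (cnt τ) := by
  unfold cnt
  by_cases h : τ.1 = true
  · simp only [h, if_true]
    exact (pl_J _).comp (pl_join pl_id pl_id)
  · simp only [if_neg h]
    exact (pl_J _).comp (pl_join pl_id (pl_join pl_id (pl_Aw τ)))

theorem pl_cd (Bp : Ty → ℕ) (τ : Ty) : PL (cd Bp τ) := by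
  obtain ⟨c, hc⟩ := code_len_poly (2 * idx τ) (Bp τ)
  exact pl_of_sub (F := fun O => J (τ.2.2 + 1) (Yd τ O)) hc
    ((pl_J (τ.2.2 + 1)).comp (pl_Yd τ))

theorem pl_val (Bp : Ty → ℕ) (τ : Ty) : PL (val Bp τ) := by
  unfold val
  by_cases h : τ.2.1 = true
  · simp only [h, if_true]
    have hx : ∀ b : Bool, PL (fun O z => cd Bp τ O (b :: z)) := fun b =>
      pl_of_sub (F := cd Bp τ) (g := fun z => b :: z) (c := 2) (by
        intro x
        simp only [List.length_cons]
        nlinarith) (pl_cd Bp τ)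
    obtain ⟨b, hb⟩ := hx false
    obtain ⟨c, hc⟩ := hx true
    refine ⟨max b c, fun x O O' hO => ?_⟩
    have h1 := PL.max (F := fun O z => cd Bp τ O (false :: z)) hb (le_max_left b c) x O O' hO
    have h2 := PL.max (F := fun O z => cd Bp τ O (true :: z)) hc (le_max_right b c) x O O' hO
    beta_reduce at h1 h2
    beta_reduce
    rw [h1, h2]
  · simp only [if_neg h]
    exact pl_cd Bp τ

theorem pl_Om (τ : Ty) : PL (Om τ) := by
  unfold Om
  by_cases h : τ.1 = true
  · simp only [h, if_true]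
    exact pl_join pl_id (pl_Aw τ)
  · simp only [if_neg h]
    exact pl_id

theorem pl_Dt (τ : Ty) : PL (Dt τ) := (pl_EE_iter (kap τ)).comp (pl_reg _)

theorem pl_mach (τ : Ty) (p' p : PIx) (l : List NIx) : PL (mach τ p' p l) := by
  unfold mach
  by_cases h : τ.2.1 = true
  · simp only [h, if_true]
    exact (pl_sEval p l).comp (pl_Om τ)
  · simp only [if_neg h]
    exact (pl_sEval p' []).comp ((pl_sEval p l).comp (pl_Om τ))

end Pool.Agent.Lib.Pa76659P
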