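import Pool.Agent.Lib.Pa76659P.Win2

/-!
Names: positions of the trees as bits of the oracle.
-/

set_option maxHeartbeats 4000000
set_option linter.unusedSectionVars false

namespace Pool.Agent.Lib.Pa76659P

open Pool.Agent.Lib.Pa76659 Pool.Agent.Lib.Pa76659.Hier

/-- numbering of strings -/
def rk : Str → ℕ
  | [] => 1
  | b :: z => 2 * rk z + (if b = true then 1 else 0)

theorem rk_ge : ∀ z : Str, 2 ^ z.length ≤ rk z
  | [] => by simp [rk]
  | b :: z => by
      have := rk_ge z
      rw [rk, List.length_cons, pow_succ]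
      omega

theorem rk_lt : ∀ z : Str, rk z < 2 ^ (z.length + 1)
  | [] => by simp [rk]
  | b :: z => by
      have := rk_lt z
      rw [rk, List.length_cons, pow_succ]
      split_ifs <;> omega

theorem rk_pos (z : Str) : 1 ≤ rk z := le_trans Nat.one_le_two_pow (rk_ge z)

theorem rk_inj : ∀ z z' : Str, rk z = rk z' → z = z'
  | [], [], _ => rfl
  | [], b :: z', h => by
      have := rk_pos z'
      simp only [rk] at h
      omega
  | b :: z, [], h => by
      have := rk_pos z
      simp only [rk] at h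
      omega
  | b :: z, b' :: z', h => by
      simp only [rk] at h
      have h1 : rk z = rk z' := by
        split_ifs at h <;> omega
      have h2 : b = b' := by
        cases b <;> cases b' <;> simp_all
      rw [rk_inj z z' h1, h2]

theorem rk_len {z z' : Str} (h : rk z ≤ rk z') : z.length ≤ z'.length := by
  have h1 := rk_ge z
  have h2 := rk_lt z'
  have h3 : 2 ^ z.length < 2 ^ (z'.length + 1) := by omega
  have h4 := (Nat.pow_lt_pow_iff_right (by norm_num : 1 < 2)).1 h3
  omega

/-- literal of region `e` -/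
def rl (e : ℕ) (v : Str) : Str := List.replicate (2 * e + 1) true ++ false :: v

theorem rl_zero (v : Str) : rl 0 v = true :: false :: v := rfl

theorem reg_eq (e : ℕ) (X : Lang) (v : Str) : reg e X v = X (true :: rl e v) := by
  unfold reg rl
  rw [List.replicate_succ]; rfl

theorem rl_inj {e e' : ℕ} {v v' : Str} (h : rl e v = rl e' v') : e = e' ∧ v = v' := by
  unfold rl at h
  obtain ⟨h1, h2⟩ := rep_inj true _ _ _ _ h
  exact ⟨by omega, h2⟩

theorem rl_not_tab (e : ℕ) (v : Str) : ¬ isTab (true :: rl e v) := by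
  rintro ⟨e', u, h⟩
  unfold rl at h
  have h' : List.replicate (2 * e + 2) true ++ (!true) :: v =
      List.replicate (2 * e' + 1) true ++ (!true) :: u := by
    rw [List.replicate_succ]
    exact h
  obtain ⟨h1, _⟩ := rep_inj true _ _ _ _ h'
  omega

theorem rl_length (e : ℕ) (v : Str) : (rl e v).length = 2 * e + 2 + v.length := by
  unfold rl
  simp only [List.length_append, List.length_replicate, List.length_cons]
  omega

open Classical in
/-- the fixed bits of a window; `fr` are the free literals -/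
noncomputable def fxW (N : ℕ) (σ τ0 : Lang) (fr : Str → Prop) (u : Str) : Option Bool :=
  if u.length + 1 < N then some (σ (true :: u))
  else if isTab (true :: u) then some (τ0 (true :: u))
  else if fr u then none else some false

theorem fxW_static {N : ℕ} {σ τ0 : Lang} {fr : Str → Prop} (hσ : ∀ v, isTab v → σ v = τ0 v)
    (C : Lang) (Y : Str → Bool) (v : Str) (hv : isTab v) :
    mkW C (fxW N σ τ0 fr) Y v = τ0 v := by
  rcases v with _ | ⟨b, u⟩
  · obtain ⟨e, u, h⟩ := hv
    rw [List.replicate_succ] at h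
    simp at h
  · cases b
    · exact absurd hv (false_not_tab u)
    · simp only [mkW, fxW]
      split_ifs with h
      · simp only [Option.getD_some]; exact hσ _ hv
      · rfl

variable (P : Par)

open Classical in
/-- positions of the literals -/
noncomputable def ph (τ : Ty) (s0 : Str) (u : Str) : List ℕ ⊕ Bool :=
  if h : ∃ q : Str × List ℕ, q.2.length = τ.2.2 + 1 ∧ Valid (bas P τ q.1) q.2 ∧
      u = rl 0 (es (bas P τ q.1) q.2) then
    Sum.inl (h.choose.2 ++ [rk h.choose.1])
  else if h : ∃ p : List ℕ, p.length = kap τ ∧ Valid s0 p ∧ u = rl (idx τ + 1) (es s0 p) then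
    Sum.inl (h.choose ++ [0])
  else Sum.inr false

theorem ph_code (τ : Ty) (s0 z : Str) (q : List ℕ) (hq : q.length = τ.2.2 + 1)
    (hv : Valid (bas P τ z) q) : ph P τ s0 (rl 0 (es (bas P τ z) q)) = Sum.inl (q ++ [rk z]) := by
  have h : ∃ q' : Str × List ℕ, q'.2.length = τ.2.2 + 1 ∧ Valid (bas P τ q'.1) q'.2 ∧
      rl 0 (es (bas P τ z) q) = rl 0 (es (bas P τ q'.1) q'.2) := ⟨(z, q), hq, hv, rfl⟩
  unfold ph
  rw [dif_pos h]
  obtain ⟨h1, h2, h3⟩ := h.choose_spec
  obtain ⟨h4, h5⟩ := es_bas_inj P τ (h1.trans hq.symm) h2 hv (rl_inj h3).2.symm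
  rw [h4, h5]

theorem ph_main (τ : Ty) (s0 : Str) (p : List ℕ) (hp : p.length = kap τ) (hv : Valid s0 p) :
    ph P τ s0 (rl (idx τ + 1) (es s0 p)) = Sum.inl (p ++ [0]) := by
  have h0 : ¬ ∃ q' : Str × List ℕ, q'.2.length = τ.2.2 + 1 ∧ Valid (bas P τ q'.1) q'.2 ∧
      rl (idx τ + 1) (es s0 p) = rl 0 (es (bas P τ q'.1) q'.2) := by
    rintro ⟨q, _, _, h⟩
    have := (rl_inj h).1
    omega
  have h : ∃ p' : List ℕ, p'.length = kap τ ∧ Valid s0 p' ∧
      rl (idx τ + 1) (es s0 p) = rl (idx τ + 1) (es s0 p') := ⟨p, hp, hv, rfl⟩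
  unfold ph
  rw [dif_neg h0, dif_pos h]
  obtain ⟨h1, h2, h3⟩ := h.choose_spec
  rw [es_inj s0 _ _ (h1.trans hp.symm) h2 hv (rl_inj h3).2.symm]

/-- the trees of the literals which can be read -/
theorem ph_root (τ : Ty) (s0 u : Str) (p : List ℕ) (h : ph P τ s0 u = Sum.inl p) :
    p.getLast? = some 0 ∨ ∃ z : Str, p.getLast? = some (rk z) ∧ Lz P τ z < u.length := by
  unfold ph at h
  split_ifs at h with h1 h2
  · right
    obtain ⟨h3, h4, h5⟩ := h1.choose_spec
    simp only [Sum.inl.injEq] at h
    refine ⟨h1.choose.1, by rw [← h]; simp, ?_⟩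
    have h6 := bas_le_es P τ h1.choose.1 h1.choose.2
    have h7 := Lz_le_bas P τ h1.choose.1
    have h8 := congrArg List.length h5
    rw [rl_length] at h8
    omega
  · left
    simp only [Sum.inl.injEq] at h
    rw [← h]; simp

/-- the bits -/
noncomputable def Yx (τ : Ty) (s0 : Str) (x : List ℕ → Bool) (u : Str) : Bool :=
  Sum.elim x id (ph P τ s0 u)

end Pool.Agent.Lib.Pa76659P
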