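import Pool.Agent.Lib.Pa76659.Limit

/-!
Definitions for the oracle relative to which all inclusions between the low classes and between the
high classes are proper.
-/

set_option maxHeartbeats 4000000

namespace Pool.Agent.Lib.Pa76659P

open Pool.Agent.Lib.Pa76659

/-- The high class `H_k^P` relative to the oracle `X`:
sets `A ∈ NP^X` with `Σ_{k+1}^{P,X} ⊆ Σ_k^{P,X}(A)`. -/
def High (X : Lang) (k : ℕ) : Set Lang := {A | A ∈ NPO X ∧ Sig X (k + 1) ⊆ Sig (join X A) k}

/-- The refined high class `\hat H_{k+1}^P` relative to the oracle `X`: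
sets `A ∈ NP^X` with `Δ_{k+2}^{P,X} ⊆ Δ_{k+1}^{P,X}(A)`. -/
def RHighSucc (X : Lang) (k : ℕ) : Set Lang :=
  {A | A ∈ NPO X ∧ DelSucc X (k + 1) ⊆ DelSucc (join X A) k}

/-- Types `(hi, del, k)`. The witness of the type is, relative to the final oracle `X`,
`(false, false, k)`: in `Low X (k+1)` and not in `RLowSucc X k`;
`(false, true, k)`: in `RLowSucc X (k+1)` and not in `Low X (k+1)`;
`(true, false, k)`: in `High X (k+1)` and not in `RHighSucc X k`;
`(true, true, k)`: in `RHighSucc X (k+1)` and not in `High X (k+1)`. -/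
abbrev Ty := Bool × Bool × ℕ

/-- number of a type -/
def idx (τ : Ty) : ℕ := Encodable.encode τ

/-- region `e` of the oracle -/
def reg (e : ℕ) (X : Lang) : Lang := fun v => X (List.replicate (2 * e + 2) true ++ false :: v)

/-- the witness -/
noncomputable def Aw (τ : Ty) (X : Lang) : Lang :=
  if τ.1 = true then fun u => J 1 X (code (2 * idx τ + 1) 2 u) else EE (reg (idx τ + 1) X)

/-- `X` on the tables, the witness on the literals -/
def mixO (X A : Lang) : Lang
  | true :: u => A u
  | v => X v

/-- the oracle which decodes -/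
noncomputable def Yd (τ : Ty) (X : Lang) : Lang := if τ.1 = true then mixO X (Aw τ X) else X

/-- the content of the codes -/
noncomputable def cnt (τ : Ty) (X : Lang) : Lang :=
  if τ.1 = true then J (τ.2.2 + 2) (join X X) else J (τ.2.2 + 1) (join X (join X (Aw τ X)))

/-- the decoded value of a code -/
noncomputable def cd (Bp : Ty → ℕ) (τ : Ty) (X : Lang) (z : Str) : Bool :=
  J (τ.2.2 + 1) (Yd τ X) (code (2 * idx τ) (Bp τ) z)

/-- the decoded value -/
noncomputable def val (Bp : Ty → ℕ) (τ : Ty) (X : Lang) (z : Str) : Bool :=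
  if τ.2.1 = true then xor (cd Bp τ X (false :: z)) (cd Bp τ X (true :: z)) else cd Bp τ X z

/-- the oracle of the machines -/
noncomputable def Om (τ : Ty) (X : Lang) : Lang := if τ.1 = true then join X (Aw τ X) else X

/-- height of the main trees -/
def kap (τ : Ty) : ℕ := if τ.2.1 = true then τ.2.2 + 2 else τ.2.2 + 1

/-- the test language -/
noncomputable def Dt (τ : Ty) (X : Lang) : Lang := EE^[kap τ] (reg (idx τ + 1) X)

/-- the machines against which the test language is diagonalised -/
noncomputable def mach (τ : Ty) (p' p : PIx) (l : List NIx) (X : Lang) : Lang :=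
  if τ.2.1 = true then sEval p l (Om τ X) else pEval p' (sEval p l (Om τ X))

/-- number of quantifiers of the machines -/
def mlen (τ : Ty) : ℕ := if τ.2.1 = true then τ.2.2 + 1 else τ.2.2

/-- the static tables make `J` universal, with any oracle in the place of the literals -/
def Univ2 (X : Lang) : Prop := ∀ (p : PIx) (l : List NIx), l ≠ [] → ∃ j B, ∀ (O : Lang) (x : Str),
  J l.length (join X O) (code j B x) = sEval p l O x

/-- the conclusion: all inclusions proper -/
def AllProper (X : Lang) : Prop :=
  (∀ k, Sig X k ≠ Sig X (k + 1)) ∧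
  (∀ k, Low X (k + 1) ⊂ RLowSucc X (k + 1)) ∧ (∀ k, RLowSucc X k ⊂ Low X (k + 1)) ∧
  (∀ k, High X (k + 1) ⊂ RHighSucc X (k + 1)) ∧ (∀ k, RHighSucc X k ⊂ High X (k + 1))

/-- the properties of the oracle to be constructed -/
structure Spec (Bp : Ty → ℕ) (X : Lang) : Prop where
  univ : Univ2 X
  valid : ∀ τ z, val Bp τ X z = cnt τ X z
  diag : ∀ (τ : Ty) (p' p : PIx) (l : List NIx), l.length = mlen τ →
    ∃ s, mach τ p' p l X s ≠ Dt τ X s

end Pool.Agent.Lib.Pa76659P
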