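import Pool.Agent.Lib.Pa76659P.Cpx

/-!
The parameters.
-/

set_option maxHeartbeats 4000000

namespace Pool.Agent.Lib.Pa76659P

open Pool.Agent.Lib.Pa76659 Pool.Agent.Lib.Pa76659.Hier

/-- how long the codes have to be -/
def need (k L b0 : ℕ) : ℕ :=
  (L + L + 1 + L * (3 * L + 3)) + (L * 2 ^ (k + 2) + 2 + (3 * (b0 * 2 ^ (k + 1) + 2) + 3))

/-- parameters -/
structure Par where
  bL : Ty → ℕ
  eb : Ty → ℕ
  Bp : Ty → ℕ
  loc : ∀ (τ : Ty) (z : Str) (X X' : Lang),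
    (∀ v : Str, v.length ≤ (z.length + 2) ^ bL τ → X v = X' v) → cnt τ X z = cnt τ X' z
  cpx : ∀ (τ : Ty) (C : Lang) (fx : Str → Option Bool),
    (τ.1 ≠ true → ∃ a, ∀ Y, Aw τ (mkW C fx Y) = a) → ∀ z : Str,
    IsC (SL ((z.length + 2) ^ bL τ)) ((z.length + 2) ^ bL τ) ((z.length + 2) ^ bL τ) (clev τ)
      (fun Y => cnt τ (mkW C fx Y) z)
  heb : ∀ (τ : Ty) (z : Str),
    2 ^ (τ.2.2 + 2) * (z.length + 2) ^ bL τ + 2 ≤ (z.length + 2) ^ (2 ^ eb τ)
  hBp : ∀ (τ : Ty) (z : Str),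
    need τ.2.2 ((z.length + 2) ^ bL τ) (code 0 (eb τ) z).length ≤ (z.length + 2) ^ (2 ^ Bp τ)

theorem exists_par : Nonempty Par := by
  classical
  choose b1 hb1 using fun τ : Ty => pl_cnt τ
  choose b2 hb2 using fun τ : Ty => cnt_isC τ
  set bL : Ty → ℕ := fun τ => max (b1 τ) (b2 τ) with hbL
  have hpow : ∀ (c n : ℕ), 2 ≤ n → n ^ c ≤ n ^ (2 ^ c) := fun c n hn =>
    Nat.pow_le_pow_right (by omega) (Nat.lt_two_pow_self).le
  have h1 : ∀ τ : Ty, ∃ e : ℕ, ∀ z : Str,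
      2 ^ (τ.2.2 + 2) * (z.length + 2) ^ bL τ + 2 ≤ (z.length + 2) ^ (2 ^ e) := by
    intro τ
    obtain ⟨c, hc⟩ := poly_le (Polynomial.C (2 ^ (τ.2.2 + 2)) * Polynomial.X ^ bL τ + 2)
    refine ⟨c, fun z => ?_⟩
    have h := hc (z.length + 2) (by omega)
    simp only [Polynomial.eval_add, Polynomial.eval_mul, Polynomial.eval_pow, Polynomial.eval_X,
      Polynomial.eval_C, Polynomial.eval_ofNat] at h
    exact h.trans (hpow _ _ (by omega))
  choose eb heb using h1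
  have h2 : ∀ τ : Ty, ∃ e : ℕ, ∀ z : Str,
      need τ.2.2 ((z.length + 2) ^ bL τ) (code 0 (eb τ) z).length ≤ (z.length + 2) ^ (2 ^ e) := by
    intro τ
    let L : Polynomial ℕ := Polynomial.X ^ bL τ
    let b0 : Polynomial ℕ := 3 + Polynomial.X ^ (2 ^ eb τ) + Polynomial.X
    obtain ⟨c, hc⟩ := poly_le ((L + L + 1 + L * (3 * L + 3)) +
      (L * Polynomial.C (2 ^ (τ.2.2 + 2)) + 2 +
        (3 * (b0 * Polynomial.C (2 ^ (τ.2.2 + 1)) + 2) + 3)))
    refine ⟨c, fun z => ?_⟩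
    have h := hc (z.length + 2) (by omega)
    simp only [L, b0, Polynomial.eval_add, Polynomial.eval_mul, Polynomial.eval_pow,
      Polynomial.eval_X, Polynomial.eval_C, Polynomial.eval_ofNat, Polynomial.eval_one] at h
    refine le_trans ?_ (h.trans (hpow _ _ (by omega)))
    unfold need
    have h3 : (code 0 (eb τ) z).length ≤
        3 + (z.length + 2) ^ (2 ^ eb τ) + (z.length + 2) := by
      rw [code_length]; omega
    have h4 := Nat.mul_le_mul_right (2 ^ (τ.2.2 + 1)) h3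
    omega
  choose Bp hBp using h2
  refine ⟨⟨bL, eb, Bp, ?_, ?_, heb, hBp⟩⟩
  · intro τ z X X' h
    exact PL.max (hb1 τ) (le_max_left _ _) z X X' h
  · intro τ C fx hA z
    have h3 := hb2 τ C fx hA (z.length + 2) (by omega) z (by omega)
    have h4 : (z.length + 2) ^ b2 τ ≤ (z.length + 2) ^ bL τ :=
      Nat.pow_le_pow_right (by omega) (le_max_right _ _)
    exact h3.mono (SL_mono h4) h4 h4

/-- range of the contents -/
def Lz (P : Par) (τ : Ty) (z : Str) : ℕ := (z.length + 2) ^ P.bL τ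

/-- base string of the names -/
def bas (P : Par) (τ : Ty) (z : Str) : Str := code 0 (P.eb τ) z

theorem Lz_mono (P : Par) (τ : Ty) {z z' : Str} (h : z.length ≤ z'.length) :
    Lz P τ z ≤ Lz P τ z' := Nat.pow_le_pow_left (by omega) _

theorem Lz_lt_bas (P : Par) (τ : Ty) (z : Str) :
    2 ^ (τ.2.2 + 2) * Lz P τ z + 2 ≤ (bas P τ z).length := by
  have h := P.heb τ z
  unfold bas Lz
  rw [code_length]
  omega

theorem one_le_Lz (P : Par) (τ : Ty) (z : Str) : 1 ≤ Lz P τ z := Nat.one_le_pow _ _ (by omega)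

theorem Lz_le_bas (P : Par) (τ : Ty) (z : Str) : Lz P τ z < (bas P τ z).length := by
  have h := Lz_lt_bas P τ z
  have h1 : 1 ≤ 2 ^ (τ.2.2 + 2) := Nat.one_le_two_pow
  nlinarith

theorem need_le_code (P : Par) (τ : Ty) (z : Str) (j : ℕ) :
    need τ.2.2 (Lz P τ z) (bas P τ z).length ≤ (code j (P.Bp τ) z).length := by
  have h := P.hBp τ z
  unfold bas Lz
  rw [code_length j]
  omega

theorem bas_le_code (P : Par) (τ : Ty) (z : Str) (j : ℕ) :
    (bas P τ z).length < (code j (P.Bp τ) z).length := by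
  refine lt_of_lt_of_le ?_ (need_le_code P τ z j)
  unfold need
  have h1 : 1 ≤ 2 ^ (τ.2.2 + 1) := Nat.one_le_two_pow
  nlinarith [Nat.zero_le (Lz P τ z * (3 * Lz P τ z + 3)), Nat.zero_le (Lz P τ z * 2 ^ (τ.2.2 + 2))]

end Pool.Agent.Lib.Pa76659P
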