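import Pool.Agent.Lib.Pa76659P.PDefs

/-!
Recursion on the length, and the construction of all table bits of a window.
-/

set_option maxHeartbeats 4000000

namespace Pool.Agent.Lib.Pa76659P

open Pool.Agent.Lib.Pa76659

/-- cut the oracle -/
def cut (n : ℕ) (X : Lang) : Lang := fun u => if u.length < n then X u else false

/-- recursion on the length of strings -/
noncomputable def recL (G : Str → Lang → Bool) (v : Str) : Bool :=
  G v (fun u => if _ : u.length < v.length then recL G u else false)
termination_by v.length

theorem recL_eq (G : Str → Lang → Bool) (v : Str) :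
    recL G v = G v (cut v.length (recL G)) := by
  rw [recL]
  congr 1

/-- The values of `T` on the table strings of `s` make `J κ` compute `f` of the literals. -/
def Enc (κ : ℕ) (f : (Str → Bool) → Bool) (s : Str) (T : Lang) : Prop :=
  ∀ Z : Lang, (∀ r : Str, r.length + s.length = 2 ^ κ * s.length →
      Z (false :: (s ++ r)) = T (s ++ r)) →
    J κ Z s = f (fun u => Z (true :: u))

theorem exists_enc {m w t k : ℕ} {f : (Str → Bool) → Bool} (hf : IsC (SL m) w t (k + 1) f)
    (s : Str) (hs : w + t + 1 + t * (3 * m + 3) ≤ s.length) : ∃ T, Enc (k + 1) f s T := by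
  obtain ⟨Tab, _, ht2, ht3⟩ := univJ some (SL m) w t m (by
    intro v hv u hu
    simp only [Option.some.injEq] at hu
    rw [← hu]; exact hv) k f hf s hs
  refine ⟨fun v => (Tab v).eval (fun _ => false), fun Z hZ => ?_⟩
  apply ht3 (fun u => Z (true :: u)) Z
  · intro r hr
    rw [hZ r hr]
    apply DT.eval_congr (S := ∅) (by simp)
    apply (ht2 _).mono
    rintro u ⟨_, hu⟩
    simp at hu
  · intro u _ v hv
    simp only [Option.some.injEq] at hv
    rw [← hv]

/-- length of the table strings -/
def tl (lev ex : ℕ → ℕ) (j : ℕ) (z : Str) : ℕ := 2 ^ (lev j + 1) * (code j (ex j) z).length + 1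

theorem code_le_tl (lev ex : ℕ → ℕ) (j : ℕ) (z : Str) : (code j (ex j) z).length < tl lev ex j z := by
  unfold tl
  have h1 : 1 ≤ 2 ^ (lev j + 1) := Nat.one_le_two_pow
  nlinarith

open Classical in
/-- chosen table -/
noncomputable def tabOf (κ : ℕ) (f : (Str → Bool) → Bool) (s : Str) : Lang :=
  if h : ∃ T, Enc κ f s T then h.choose else fun _ => false

theorem enc_tabOf {κ : ℕ} {f : (Str → Bool) → Bool} {s : Str} (h : ∃ T, Enc κ f s T) :
    Enc κ f s (tabOf κ f s) := by
  unfold tabOf
  rw [dif_pos h]
  exact h.choose_spec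

theorem code_append_inj' {ex : ℕ → ℕ} {j j' : ℕ} {x r x' r' : Str}
    (h : code j (ex j) x ++ r = code j' (ex j') x' ++ r') : j = j' ∧ x = x' := by
  have h1 : j = j' := by
    rw [code_eq, code_eq, List.append_assoc, List.append_assoc, List.cons_append,
      List.cons_append] at h
    obtain ⟨h1, _⟩ := rep_inj true _ _ _ _ h
    omega
  subst h1
  exact code_append_inj h

/-- All table bits of length at least `N` can be chosen such that all codes have the values
prescribed by `tgt`. -/
theorem exists_C (σ : Lang) (N : ℕ) (lev ex : ℕ → ℕ)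
    (tgt : ℕ → Str → Lang → (Str → Bool) → Bool)
    (hE : ∀ j z C, ∃ T, Enc (lev j + 1) (tgt j z C) (code j (ex j) z) T)
    (hloc : ∀ j z C C', (∀ v : Str, v.length < tl lev ex j z → C v = C' v) →
      tgt j z C = tgt j z C') :
    ∃ C : Lang, (∀ v : Str, v.length < N → C v = σ v) ∧
      ∀ j z, N ≤ tl lev ex j z → ∀ Z : Lang, (∀ w : Str, Z (false :: w) = C (false :: w)) →
        J (lev j + 1) Z (code j (ex j) z) = tgt j z C (fun u => Z (true :: u)) := by
  classical
  let P : Str → ℕ × Str × Str → Prop := fun w c => w = code c.1 (ex c.1) c.2.1 ++ c.2.2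
  let G : Str → Lang → Bool := fun v C => if v.length < N then σ v else
    if h : ∃ c, P v.tail c then tabOf (lev h.choose.1 + 1) (tgt h.choose.1 h.choose.2.1 C)
      (code h.choose.1 (ex h.choose.1) h.choose.2.1) v.tail else false
  refine ⟨recL G, fun v hv => ?_, fun j z hN Z hZ => ?_⟩
  · rw [recL_eq]
    simp only [G]
    rw [if_pos hv]
  · apply enc_tabOf (hE j z (recL G)) Z
    intro r hr
    rw [hZ, recL_eq]
    have hlen : (false :: (code j (ex j) z ++ r)).length = tl lev ex j z := by
      rw [List.length_cons, List.length_append, tl, ← hr]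
      ring
    simp only [G]
    rw [if_neg (by rw [hlen]; omega)]
    have h : ∃ c, P (false :: (code j (ex j) z ++ r)).tail c := ⟨(j, z, r), rfl⟩
    rw [dif_pos h]
    have h1 := h.choose_spec
    set c := h.choose with hc
    simp only [P, List.tail_cons] at h1
    obtain ⟨h2, h3⟩ := code_append_inj' h1
    rw [← h2, ← h3, List.tail_cons, hlen]
    have h4 : tgt j z (cut (tl lev ex j z) (recL G)) = tgt j z (recL G) := by
      apply hloc
      intro v hv
      simp [cut, hv]
    rw [h4]

end Pool.Agent.Lib.Pa76659P
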