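import Pool.Agent.Lib.Pa76659.Hier

/-!
Forests of OR-NOT trees and one round of the random projection, for the depth hierarchy theorem in
the presence of coded trees. A position is a list of naturals; its last entry is the index of its
tree.
-/

set_option maxHeartbeats 4000000

namespace Pool.Agent.Lib.Pa76659P

open Pool.Agent.Lib.Pa76659 Pool.Agent.Lib.Pa76659.Switch Pool.Agent.Lib.Pa76659.Hier

/-- `x` and `x'` agree on the trees with index less than `r` -/
def AgreeBelow (r : ℕ) (x x' : List ℕ → Bool) : Prop :=
  ∀ (v : List ℕ) (r' : ℕ), v.getLast? = some r' → r' < r → x v = x' v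

/-- the value of `sub x` on a position only depends on the values of `x` on the same tree -/
def RootLocal (sub : (List ℕ → Bool) → (List ℕ → Bool)) : Prop :=
  ∀ (x x' : List ℕ → Bool) (v : List ℕ),
    (∀ u : List ℕ, u.getLast? = v.getLast? → x u = x' u) → sub x v = sub x' v

theorem RootLocal.agreeBelow {sub : (List ℕ → Bool) → (List ℕ → Bool)} (h : RootLocal sub)
    {r : ℕ} {x x' : List ℕ → Bool} (hx : AgreeBelow r x x') : AgreeBelow r (sub x) (sub x') := by
  intro v r' hv hr
  apply h
  intro u hu
  exact hx u r' (hu.trans hv) hr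

/-- size of the groups in one round -/
def GG (R E t : ℕ) : ℕ := (8 * t + 9) * (E + R * (E + 1) + 3)

/-- leaves of the forest: `ℓ r` is the length of the leaves of the tree with index `r` -/
def IsLeaf (ℓ : ℕ → ℕ) (v : List ℕ) : Prop := ∃ r, v.getLast? = some r ∧ v.length = ℓ r

theorem card_lists (R W E n : ℕ) (hW : W ≤ 2 ^ R) (hn : n ≤ E + 1) :
    Fintype.card (Σ l : Fin n, (Fin (l : ℕ) → Fin W)) ≤ 2 ^ (E + R * E) := by
  rw [Fintype.card_sigma]
  simp only [Fintype.card_fun, Fintype.card_fin]
  calc ∑ l : Fin n, W ^ (l : ℕ) ≤ ∑ _l : Fin n, 2 ^ (R * E) := by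
        apply Finset.sum_le_sum
        intro l _
        have h1 : W ^ (l : ℕ) ≤ (2 ^ R) ^ (l : ℕ) := Nat.pow_le_pow_left hW _
        refine h1.trans ?_
        rw [← pow_mul]
        apply Nat.pow_le_pow_right (by norm_num)
        apply Nat.mul_le_mul_left
        have := l.2
        omega
    _ = n * 2 ^ (R * E) := by simp
    _ ≤ 2 ^ E * 2 ^ (R * E) := by
        apply Nat.mul_le_mul_right
        refine hn.trans ?_
        exact Nat.lt_two_pow_self (n := E)
    _ = 2 ^ (E + R * E) := by rw [pow_add]

/-- One round. -/
theorem round (w R W E t a : ℕ) (hW : W ≤ 2 ^ R) (ℓ : ℕ → ℕ)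
    (hℓ : ∀ r, 3 ≤ ℓ r ∧ ℓ r ≤ E) (m : ℕ → ℕ) (hm0 : GG R E t ≤ m 0)
    (hmW : ∀ r i, i + 1 < ℓ r → m i ≤ W) {ι : Type} [Fintype ι] (hι : Fintype.card ι ≤ 2 ^ a)
    (h : ι → (List ℕ → Bool) → Bool) (hh : ∀ i, IsC Set.univ w t 1 (h i)) :
    ∃ sub : (List ℕ → Bool) → (List ℕ → Bool),
      (∀ i, IsC Set.univ w (a + 2) 0 (fun x => h i (sub x))) ∧
      (∀ (x : List ℕ → Bool) (u : List ℕ) (r : ℕ), u.getLast? = some r → (∀ c ∈ u, c < W) →
        ∀ j, u.length + (j + 2) = ℓ r →
        tr m (j + 2) (sub x) u =
          tr (fun i => if i = 0 then m 1 / GG R E t else m (i + 1)) (j + 1) x u) ∧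
      RootLocal sub := by
  classical
  set G := GG R E t with hG
  have hGpos : 0 < G := by rw [hG, GG]; positivity
  set Q := 8 * t + 8 with hQ
  set q := E + R * (E + 1) + 1 with hq
  have hGQ : G = (Q + 1) * (q + 2) := by rw [hG, GG, hQ, hq]
  have hm1W : m 1 ≤ W := hmW 0 1 (by have := (hℓ 0).1; omega)
  -- constants outside the leaves
  let φ0 : List ℕ → List ℕ ⊕ Bool := fun v => if IsLeaf ℓ v then Sum.inl v else Sum.inr true
  have hh' : ∀ i, IsC Set.univ w t 1 (fun X : List ℕ → Bool =>
      h i (fun v => Sum.elim X id (φ0 v))) :=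
    fun i => (hh i).rename (S' := Set.univ) φ0 (fun _ _ _ _ => trivial)
  choose F hF1 hF2 using fun i => toDNF (hh' i)
  let β : List ℕ → List ℕ := List.tail
  let Bl : Finset (List ℕ) := Finset.univ.image
    (fun p : (Σ l : Fin (E + 1), (Fin (l : ℕ) → Fin W)) => lst p.2)
  have hBl : ∀ b : List ℕ, b.length ≤ E → (∀ c ∈ b, c < W) → b ∈ Bl := by
    intro b hb1 hb2
    obtain ⟨g, hg⟩ := exists_lst b hb2
    rw [Finset.mem_image]
    exact ⟨⟨⟨b.length, by omega⟩, g⟩, Finset.mem_univ _, hg⟩
  let SE : Finset (List ℕ ⊕ List ℕ) := Bl.image Sum.inr ∪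
    (Bl ×ˢ Finset.range (m 0)).image (fun p => Sum.inl (p.2 :: p.1))
  let κ : Type := (Σ l : Fin (E + 1), (Fin (l : ℕ) → Fin W)) ⊕
    ((Σ l : Fin E, (Fin (l : ℕ) → Fin W)) × Fin (m 1 / G))
  let A : κ → Finset (List ℕ ⊕ List ℕ) := fun c => match c with
    | Sum.inl p => (Finset.range (m 0)).image (fun y => Sum.inl (y :: lst p.2))
    | Sum.inr (p, z) => (Finset.range G).image (fun y => Sum.inr ((z.1 * G + y) :: lst p.2))
  have hm1G : ∀ z y, z < m 1 / G → y < G → z * G + y < m 1 := by
    intro z y hz hy
    have h1 : (z + 1) * G ≤ m 1 / G * G := Nat.mul_le_mul_right _ hz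
    have h2 : m 1 / G * G ≤ m 1 := Nat.div_mul_le_self _ _
    have h3 : (z + 1) * G = z * G + G := by ring
    omega
  obtain ⟨ρ, hρ1, hρ2⟩ := exists_good β t Q a q (a + 2) le_rfl le_rfl SE (ι := ι) (κ := κ)
    hι (by
      simp only [κ, Fintype.card_sum, Fintype.card_prod, Fintype.card_fin]
      have h1 := card_lists R W E (E + 1) hW le_rfl
      have h2 := card_lists R W E E hW (by omega)
      have h3 : m 1 / G ≤ 2 ^ R := (Nat.div_le_self _ _).trans (hm1W.trans hW)
      have h4 : Fintype.card (Σ l : Fin E, (Fin (l : ℕ) → Fin W)) * (m 1 / G) ≤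
          2 ^ (E + R * E) * 2 ^ R := Nat.mul_le_mul h2 h3
      have h5 : 2 ^ (E + R * E) ≤ 2 ^ (E + R * E) * 2 ^ R :=
        Nat.le_mul_of_pos_right _ (by positivity)
      have h6 : 2 ^ q = 2 ^ (E + R * E) * 2 ^ R * 2 := by
        rw [hq, ← pow_add, ← pow_succ]
        congr 1
        ring
      rw [h6]
      omega) F hF1 A (by
      rintro (p | ⟨p, z⟩) e he
      · obtain ⟨y, hy, rfl⟩ := Finset.mem_image.1 he
        apply Finset.mem_union_right
        rw [Finset.mem_image]
        exact ⟨(lst p.2, y), Finset.mem_product.2 ⟨Finset.mem_image_of_mem _ (Finset.mem_univ p),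
          hy⟩, rfl⟩
      · obtain ⟨y, hy, rfl⟩ := Finset.mem_image.1 he
        apply Finset.mem_union_left
        rw [Finset.mem_image]
        refine ⟨_, ?_, rfl⟩
        apply hBl
        · rw [List.length_cons, (lst_spec p.2).1]
          exact p.1.2
        · intro c hc
          rcases List.mem_cons.1 hc with hc | hc
          · rw [hc]
            have := hm1G z.1 y z.2 (Finset.mem_range.1 hy)
            omega
          · exact (lst_spec p.2).2 c hc) (by
      rintro (p | ⟨p, z⟩)
      · simp only [A]
        rw [Finset.card_image_of_injective _ (by intro a b h; simpa using h),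
          Finset.card_range, ← hGQ]
        exact hm0
      · simp only [A]
        rw [Finset.card_image_of_injective _ (by intro a b h; simpa using h),
          Finset.card_range, ← hGQ])
  -- facts about the restriction
  have fa : ∀ b : List ℕ, b.length ≤ E → (∀ c ∈ b, c < W) →
      ∃ y < m 0, ρ (Sum.inl (y :: b)) = 0 := by
    intro b hb1 hb2
    obtain ⟨g, hg⟩ := exists_lst b hb2
    obtain ⟨e, he, he0⟩ := hρ2 (Sum.inl ⟨⟨b.length, by omega⟩, g⟩)
    obtain ⟨y, hy, rfl⟩ := Finset.mem_image.1 he
    rw [← hg]
    exact ⟨y, Finset.mem_range.1 hy, he0⟩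
  have fb : ∀ u : List ℕ, ∀ z : ℕ, ∃ y : ℕ, u.length < E → (∀ c ∈ u, c < W) → z < m 1 / G →
      y < G ∧ ρ (Sum.inr ((z * G + y) :: u)) = 0 := by
    intro u z
    by_cases hu : u.length < E ∧ (∀ c ∈ u, c < W) ∧ z < m 1 / G
    · obtain ⟨hu1, hu2, hz⟩ := hu
      obtain ⟨g, hg⟩ := exists_lst u hu2
      obtain ⟨e, he, he0⟩ := hρ2 (Sum.inr (⟨⟨u.length, hu1⟩, g⟩, ⟨z, hz⟩))
      obtain ⟨y, hy, rfl⟩ := Finset.mem_image.1 he
      refine ⟨y, fun _ _ _ => ⟨Finset.mem_range.1 hy, ?_⟩⟩
      rw [← hg]
      exact he0
    · exact ⟨0, fun a b c => absurd ⟨a, b, c⟩ hu⟩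
  choose ch hch using fb
  let φ : List ℕ → List ℕ ⊕ Bool := fun b => match b with
    | [] => Sum.inr true
    | y :: u => if y / G < m 1 / G ∧ y = (y / G) * G + ch u (y / G) then
        Sum.inl ((y / G) :: u) else Sum.inr true
  let sub : (List ℕ → Bool) → (List ℕ → Bool) := fun x v =>
    if IsLeaf ℓ v then val β ρ (fun b => Sum.elim x id (φ b)) v else true
  refine ⟨sub, ?_, ?_, ?_⟩
  · intro i
    have h1 := hρ1 i
    unfold Hard at h1
    push Not at h1
    obtain ⟨D, hD1, hD2⟩ := h1
    have hD : IsC Set.univ w (a + 2) 0 (fun Y : List ℕ → Bool =>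
        h i (fun v => Sum.elim (val β ρ Y) id (φ0 v))) := by
      refine ⟨D, by omega, ?_, fun x => ?_⟩
      · have : ∀ T : DT (List ℕ) Bool, T.QIn Set.univ := by
          intro T
          induction T with
          | leaf _ => trivial
          | node v f t hf ht => exact ⟨trivial, hf, ht⟩
        exact this D
      · have h3 := hD2 x (by intro b c hbc; simp at hbc)
        rw [← hF2] at h3
        cases h4 : h i (fun v => Sum.elim (val β ρ x) id (φ0 v)) <;>
          cases h5 : D.eval x <;> simp_all
    refine (hD.rename (S' := Set.univ) φ (fun _ _ _ _ => trivial)).congr (fun x => ?_)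
    congr 1
    funext v
    simp only [sub, φ0]
    split_ifs with h2
    · rfl
    · rfl
  · -- the values of the nodes
    intro x
    have bots : ∀ b : List ℕ, ∀ r, b.getLast? = some r → b.length + 1 = ℓ r → (∀ c ∈ b, c < W) →
        tr m 1 (sub x) b = (if ρ (Sum.inr b) = 0 then Sum.elim x id (φ b) else true) := by
      intro b r hbr hb hbW
      have hE := (hℓ r).2
      have hb3 := (hℓ r).1
      obtain ⟨y0, hy0, hy1⟩ := fa b (by omega) hbW
      have hleaf : ∀ y, IsLeaf ℓ (y :: b) := by
        intro y
        refine ⟨r, ?_, by simpa using hb⟩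
        cases b with
        | nil => simp at hbr
        | cons c b => simpa using hbr
      rw [tr]
      by_cases hρb : ρ (Sum.inr b) = 0
      · rw [if_pos hρb]
        cases hxb : Sum.elim x id (φ b)
        · simp only [decide_eq_false_iff_not, not_exists, not_and]
          intro y _ hy
          simp only [tr, sub, if_pos (hleaf y)] at hy
          unfold val at hy
          simp only [β, List.tail_cons, hρb, hxb] at hy
          split_ifs at hy <;> simp_all
        · simp only [decide_eq_true_eq]
          refine ⟨y0, hy0, ?_⟩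
          simp only [tr, sub, if_pos (hleaf y0)]
          unfold val
          simp [β, hρb, hxb, hy1]
      · rw [if_neg hρb]
        simp only [decide_eq_true_eq]
        refine ⟨y0, hy0, ?_⟩
        simp only [tr, sub, if_pos (hleaf y0)]
        unfold val
        simp [β, hρb, hy1]
    have key : ∀ j : ℕ, ∀ (u : List ℕ) (r : ℕ), u.getLast? = some r → (∀ c ∈ u, c < W) →
        u.length + (j + 2) = ℓ r →
        tr m (j + 2) (sub x) u =
          tr (fun i => if i = 0 then m 1 / G else m (i + 1)) (j + 1) x u := by
      intro j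
      induction j with
      | zero =>
          intro u r hu huW hlen
          have hE := (hℓ r).2
          rw [tr, tr]
          apply decide_eq_decide.2
          have hb : ∀ y, y < m 1 → tr m 1 (sub x) (y :: u) =
              (if ρ (Sum.inr (y :: u)) = 0 then Sum.elim x id (φ (y :: u)) else true) := by
            intro y hy
            apply bots (y :: u) r
            · cases u with
              | nil => simp at hu
              | cons c u => simpa using hu
            · rw [List.length_cons]; omega
            · intro c hc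
              rcases List.mem_cons.1 hc with hc | hc
              · rw [hc]; omega
              · exact huW c hc
          constructor
          · rintro ⟨y, hy, hy2⟩
            have hy' : y < m 1 := hy
            have hy2' : tr m 1 (sub x) (y :: u) = false := hy2
            rw [hb y hy'] at hy2'
            split_ifs at hy2' with h1
            simp only [φ] at hy2'
            split_ifs at hy2' with h2
            · exact ⟨y / G, h2.1, hy2'⟩
            · simp at hy2'
          · rintro ⟨z, hz, hz2⟩
            have hz' : z < m 1 / G := hz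
            obtain ⟨h1, h2⟩ := hch u z (by omega) huW hz'
            have hdiv : (z * G + ch u z) / G = z := by
              rw [mul_comm, Nat.mul_add_div hGpos, Nat.div_eq_of_lt h1]; rfl
            have h3 := hm1G z _ hz' h1
            refine ⟨z * G + ch u z, h3, ?_⟩
            show tr m 1 (sub x) ((z * G + ch u z) :: u) = false
            rw [hb _ h3, if_pos h2]
            simp only [φ, hdiv, hz', true_and, if_true]
            exact hz2
      | succ j ih =>
          intro u r hu huW hlen
          have hmj : m (j + 2) ≤ W := hmW r (j + 2) (by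
            have : 1 ≤ u.length := by
              cases u with
              | nil => simp at hu
              | cons c u => simp
            omega)
          rw [tr, tr]
          apply decide_eq_decide.2
          have e : ∀ y, y < m (j + 2) → tr m (j + 2) (sub x) (y :: u) =
              tr (fun i => if i = 0 then m 1 / G else m (i + 1)) (j + 1) x (y :: u) := by
            intro y hy
            apply ih (y :: u) r
            · cases u with
              | nil => simp at hu
              | cons c u => simpa using hu
            · intro c hc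
              rcases List.mem_cons.1 hc with hc | hc
              · rw [hc]; omega
              · exact huW c hc
            · rw [List.length_cons]; omega
          have e1 : (if j + 1 = 0 then m 1 / G else m (j + 1 + 1)) = m (j + 2) := by
            rw [if_neg (by omega)]
          constructor
          · rintro ⟨y, hy, hy2⟩
            refine ⟨y, by rw [e1]; exact hy, ?_⟩
            rw [← e y hy]; exact hy2
          · rintro ⟨y, hy, hy2⟩
            rw [e1] at hy
            refine ⟨y, hy, ?_⟩
            rw [e y hy]; exact hy2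
    intro u r hu huW j hj
    exact key j u r hu huW hj
  · -- locality
    intro x x' v hv
    simp only [sub]
    split_ifs with hl
    · obtain ⟨r, hr, hlen⟩ := hl
      have h3 := (hℓ r).1
      have hb : Sum.elim x id (φ (β v)) = Sum.elim x' id (φ (β v)) := by
        match v, hr, hlen, hv with
        | [], hr, _, _ => simp at hr
        | [c], _, hlen, _ => simp at hlen; omega
        | [c, c'], _, hlen, _ => simp at hlen; omega
        | c :: c' :: c'' :: u, hr, hlen, hv =>
          simp only [β, List.tail_cons, φ]
          split_ifs with h4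
          · apply hv
            simp
          · rfl
      unfold val
      simp only [hb]
    · rfl

end Pool.Agent.Lib.Pa76659P
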