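import Pool.Agent.Lib.Pa76659P.Act2

/-!
One step of the construction.
-/

set_option maxHeartbeats 4000000
set_option linter.unusedSectionVars false

namespace Pool.Agent.Lib.Pa76659P

open Pool.Agent.Lib.Pa76659 Pool.Agent.Lib.Pa76659.Hier

/-- questions about short strings -/
abbrev Qs (M : ℕ) : Type := Σ i : Fin (M + 1), (Fin (i : ℕ) → Bool)

theorem card_Qs (M : ℕ) : Fintype.card (Qs M) ≤ 2 ^ (2 * M + 1) := by
  rw [Fintype.card_sigma]
  simp only [Fintype.card_fun, Fintype.card_bool, Fintype.card_fin]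
  calc ∑ i : Fin (M + 1), 2 ^ (i : ℕ) ≤ ∑ _i : Fin (M + 1), 2 ^ M := by
        apply Finset.sum_le_sum
        intro i _
        exact Nat.pow_le_pow_right (by norm_num) (by have := i.2; omega)
    _ = (M + 1) * 2 ^ M := by simp
    _ ≤ 2 ^ (M + 1) * 2 ^ M := Nat.mul_le_mul_right _ (Nat.lt_two_pow_self (n := M + 1)).le
    _ = 2 ^ (2 * M + 1) := by rw [← pow_add]; congr 1; ring

theorem exists_dtQ (M : ℕ) (T : DT Str Bool) (hq : T.QIn {v | v.length ≤ M}) :
    ∃ T' : DT (Qs M) Bool, T'.depth ≤ T.depth ∧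
      ∀ y : Str → Bool, T'.eval (fun i => y (List.ofFn i.2)) = T.eval y := by
  let sub : Str → DT (Qs M) Bool := fun v =>
    if h : v.length < M + 1 then DT.node ⟨⟨v.length, h⟩, fun i => v.get i⟩ (DT.leaf false)
      (DT.leaf true) else DT.leaf false
  refine ⟨T.subst sub, ?_, fun y => ?_⟩
  · have h1 := DT.depth_subst sub {v | v.length ≤ M} 1 (by
      intro v _
      simp only [sub]
      split_ifs <;> simp [DT.depth]) T hq
    rwa [mul_one] at h1
  · rw [DT.eval_subst]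
    apply DT.eval_congr _ hq
    intro v hv
    have hv' : v.length < M + 1 := Nat.lt_succ_of_le hv
    simp only [sub]
    rw [dif_pos hv']
    have e : List.ofFn (fun i : Fin v.length => v.get i) = v := List.ofFn_get v
    simp only [DT.eval, e]
    cases y v <;> rfl

/-- the conclusion of a step -/
def StepC (P : Par) (τ0 : Lang) (τ : Ty) (p' p : PIx) (l : List NIx) (N0 : ℕ) (σ : Lang) : Prop :=
  ∃ (N' : ℕ) (X : Lang), N0 < N' ∧ (∀ v : Str, v.length < N0 → X v = σ v) ∧
    (∀ v, isTab v → X v = τ0 v) ∧ (∀ τ' z, vl P τ' z < N' → val P.Bp τ' X z = cnt τ' X z) ∧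
    ∃ s, ∀ X' : Lang, (∀ v : Str, v.length < N' → X' v = X v) → mach τ p' p l X' s ≠ Dt τ X' s

theorem exists_bm (τ : Ty) (p' p : PIx) (l : List NIx) : ∃ b : ℕ, ∀ (s : Str) (X X' : Lang),
    (∀ v : Str, v.length ≤ (s.length + 2) ^ b → X v = X' v) →
      mach τ p' p l X s = mach τ p' p l X' s ∧ Dt τ X s = Dt τ X' s := by
  obtain ⟨b, hb⟩ := pl_mach τ p' p l
  obtain ⟨c, hc⟩ := pl_Dt τ
  exact ⟨max b c, fun s X X' h => ⟨PL.max hb (le_max_left _ _) s X X' h,
    PL.max hc (le_max_right _ _) s X X' h⟩⟩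

variable {P : Par} {τ : Ty} {N : ℕ} {σ τ0 : Lang} {C : Lang}

theorem finish (hC : (wdA P τ N σ τ0).Good C) {p' p : PIx} {l : List NIx} {N0 bm : ℕ}
    (hN0 : N0 ≤ N) (hbm : ∀ (s : Str) (X X' : Lang),
      (∀ v : Str, v.length ≤ (s.length + 2) ^ bm → X v = X' v) →
        mach τ p' p l X s = mach τ p' p l X' s ∧ Dt τ X s = Dt τ X' s)
    (hs : ∀ v, isTab v → σ v = τ0 v) (hσ : ∀ τ z, val P.Bp τ σ z = cnt τ σ z)
    (x : List ℕ → Bool)
    (hval : ∀ z, rk z < 2 ^ ((N + 2) ^ bm + N + 1) →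
      val P.Bp τ (XA P τ N σ τ0 C x) z = cnt τ (XA P τ N σ τ0 C x) z)
    (hne : mach τ p' p l (XA P τ N σ τ0 C x) (List.replicate N false) ≠
      tr (mA τ N) (kap τ) x [0]) : StepC P τ0 τ p' p l N0 σ := by
  refine ⟨(N + 2) ^ bm + N + 1, XA P τ N σ τ0 C x, by omega, ?_, ?_, ?_,
    List.replicate N false, ?_⟩
  · intro v hv
    exact Wd.mk_low hC _ v (by show _ < N; omega)
  · intro v hv
    exact fxW_static hs C _ v hv
  · intro τ' z hz
    by_cases hτ : τ' = τ
    · subst hτ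
      apply hval
      have h1 : z.length < (N + 2) ^ bm + N + 1 := by
        have h2 := len_lt_tlA P τ' z
        have h3 := len_lt_tlA P τ' (false :: z)
        rw [List.length_cons] at h3
        unfold vl at hz
        split_ifs at hz <;> omega
      exact (rk_lt z).trans_le (Nat.pow_le_pow_right (by norm_num) h1)
    · exact Wd.val_inact hC (Yx P τ (List.replicate N false) x) (τ := τ') hτ z
        (fun z _ => hσ τ' z)
  · intro X' hX'
    have h1 := hbm (List.replicate N false) X' (XA P τ N σ τ0 C x) (by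
      intro v hv
      apply hX'
      rw [List.length_replicate] at hv
      omega)
    rw [h1.1, h1.2, Dt_XA]
    exact hne

theorem step_S (P : Par) (τ0 : Lang) (τ : Ty) (hd : τ.2.1 ≠ true) (p' p : PIx) (l : List NIx)
    (hl : l.length = mlen τ) (N0 : ℕ) (σ : Lang) (hs : ∀ v, isTab v → σ v = τ0 v)
    (hσ : ∀ τ z, val P.Bp τ σ z = cnt τ σ z) : StepC P τ0 τ p' p l N0 σ := by
  classical
  have hlk : l.length = τ.2.2 := by rw [hl]; unfold mlen; rw [if_neg hd]
  have hkap : kap τ = τ.2.2 + 1 := by unfold kap; rw [if_neg hd]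
  obtain ⟨bm, hbm⟩ := exists_bm τ p' p l
  obtain ⟨b, hb⟩ := mach_isC p l
  obtain ⟨B, hB⟩ := poly_le ((Polynomial.X + p'.2) ^ b + (2 * (Polynomial.X + p'.2) + 1) +
    (((Polynomial.X + 2) ^ bm + Polynomial.X + 1) + Polynomial.X * Polynomial.C
      (2 ^ (τ.2.2 + 1)) + 1))
  obtain ⟨d, hMS⟩ := MS_poly τ.2.2 B
  obtain ⟨n1, hn1⟩ := pow_le_two_pow d
  set N := max (max N0 n1) 2 with hN
  have e0 : N0 ≤ N := le_trans (le_max_left _ _) (le_max_left _ _)
  have e1 : n1 ≤ N := le_trans (le_max_right _ _) (le_max_left _ _)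
  have e2 : 2 ≤ N := le_max_right _ _
  have hBN := hB N e2
  simp only [Polynomial.eval_add, Polynomial.eval_mul, Polynomial.eval_pow, Polynomial.eval_X,
    Polynomial.eval_C, Polynomial.eval_ofNat, Polynomial.eval_one] at hBN
  set M := N + p'.2.eval N with hM
  set N' := (N + 2) ^ bm + N + 1 with hN'
  set R := N' + N * 2 ^ (τ.2.2 + 1) + 1 with hR
  have hMb : 0 ≤ M ^ b := Nat.zero_le _
  obtain ⟨C, hC⟩ := (wdA P τ N σ τ0).exists_good
  set s0 : Str := List.replicate N false with hs0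
  have hs0l : s0.length = N := by simp [hs0]
  set T := accTree p'.1 (inp s0) (p'.2.eval s0.length) with hT
  have hTq : T.QIn {v | v.length ≤ M} := by
    have h1 := accTree_qin p'.1 (inp s0) (p'.2.eval s0.length) s0.length (inp_bdd s0)
    rw [hs0l] at h1
    rw [hT, hs0l]
    exact h1
  have hTd : T.depth ≤ p'.2.eval N := by
    have h1 := accTree_depth p'.1 (inp s0) (p'.2.eval s0.length)
    rw [hs0l] at h1
    rw [hT, hs0l]
    exact h1
  obtain ⟨T', hT'1, hT'2⟩ := exists_dtQ M T hTq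
  let cont : ℕ → (List ℕ → Bool) → Bool := fun r x =>
    if h : ∃ z, rk z = r ∧ N ≤ Lz P τ z then cnt τ (XA P τ N σ τ0 C x) h.choose else false
  obtain ⟨x, hx1, hx2⟩ := advSigma τ.2.2 (M ^ b) (M ^ b) (2 * M + 1) (p'.2.eval N) R (2 ^ R)
    (2 ^ N') le_rfl (Nat.pow_le_pow_right (by norm_num) (by omega)) (mA τ N) (by
      intro i _
      constructor
      · refine (hMS N e2 (M ^ b) (M ^ b) (2 * M + 1) (p'.2.eval N) R (by omega) (by omega)
          (by omega) (by omega) (by omega)).trans ((hn1 N e1).trans (le_mA τ N i))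
      · refine (mA_le τ N i).trans (Nat.pow_le_pow_right (by norm_num) (by omega)))
    (card_Qs M) (fun i x => sEval p l (Om τ (XA P τ N σ τ0 C x)) (List.ofFn i.2)) (by
      intro i
      have h1 := hb P τ N σ τ0 C hC M (by omega) (List.ofFn i.2) (by
        rw [List.length_ofFn]
        have := i.1.2
        omega)
      rwa [hlk] at h1)
    T' (hT'1.trans hTd) cont (by
      intro r x x' hxx
      simp only [cont]
      split_ifs with h
      · exact cnt_agree h.choose h.choose_spec.1.le hxx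
      · rfl)
  refine finish hC e0 hbm hs hσ x ?_ ?_
  · intro z hz
    apply val_act_S hC hd (n := 2 ^ N') x _ (hσ τ) z hz
    intro z hz hL
    rw [hx1 (rk z) (rk_pos z) hz]
    have h : ∃ z', rk z' = rk z ∧ N ≤ Lz P τ z' := ⟨z, rfl, hL⟩
    simp only [cont]
    rw [dif_pos h, rk_inj _ _ h.choose_spec.1]
  · rw [hkap]
    intro h
    apply hx2
    rw [← h]
    have h2 := hT'2 (sEval p l (Om τ (XA P τ N σ τ0 C x)))
    rw [h2, hT, accTree_eval]
    unfold mach
    rw [if_neg hd]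
    rfl

theorem step_D (P : Par) (τ0 : Lang) (τ : Ty) (hd : τ.2.1 = true) (p' p : PIx) (l : List NIx)
    (hl : l.length = mlen τ) (N0 : ℕ) (σ : Lang) (hs : ∀ v, isTab v → σ v = τ0 v)
    (hσ : ∀ τ z, val P.Bp τ σ z = cnt τ σ z) : StepC P τ0 τ p' p l N0 σ := by
  classical
  have hlk : l.length = τ.2.2 + 1 := by rw [hl]; unfold mlen; rw [if_pos hd]
  have hkap : kap τ = τ.2.2 + 2 := by unfold kap; rw [if_pos hd]
  obtain ⟨bm, hbm⟩ := exists_bm τ p' p l
  obtain ⟨b, hb⟩ := mach_isC p l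
  obtain ⟨B, hB⟩ := poly_le (Polynomial.X ^ b +
    (((Polynomial.X + 2) ^ bm + Polynomial.X + 1) + Polynomial.X * Polynomial.C
      (2 ^ (τ.2.2 + 1)) + 1))
  obtain ⟨d, hMD⟩ := MD_poly τ.2.2 B
  obtain ⟨n1, hn1⟩ := pow_le_two_pow d
  set N := max (max N0 n1) 2 with hN
  have e0 : N0 ≤ N := le_trans (le_max_left _ _) (le_max_left _ _)
  have e1 : n1 ≤ N := le_trans (le_max_right _ _) (le_max_left _ _)
  have e2 : 2 ≤ N := le_max_right _ _
  have hBN := hB N e2
  simp only [Polynomial.eval_add, Polynomial.eval_mul, Polynomial.eval_pow, Polynomial.eval_X,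
    Polynomial.eval_C, Polynomial.eval_ofNat, Polynomial.eval_one] at hBN
  set N' := (N + 2) ^ bm + N + 1 with hN'
  set R := N' + N * 2 ^ (τ.2.2 + 1) + 1 with hR
  have hMb : 0 ≤ N ^ b := Nat.zero_le _
  obtain ⟨C, hC⟩ := (wdA P τ N σ τ0).exists_good
  set s0 : Str := List.replicate N false with hs0
  have hs0l : s0.length = N := by simp [hs0]
  let cont : ℕ → (List ℕ → Bool) → Bool := fun c x =>
    if h : ∃ z, rk z = c ∧ N ≤ Lz P τ (false :: z) then cnt τ (XA P τ N σ τ0 C x) h.choose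
    else false
  obtain ⟨x, hx1, hx2⟩ := advDelta τ.2.2 (N ^ b) (N ^ b) R (2 ^ R)
    (2 ^ N') le_rfl (by
      rw [← pow_succ']
      exact Nat.pow_le_pow_right (by norm_num) (by omega)) (mA τ N) (by
      intro i _
      constructor
      · refine (hMD N e2 (N ^ b) (N ^ b) R (by omega) (by omega)
          (by omega)).trans ((hn1 N e1).trans (le_mA τ N i))
      · refine (mA_le τ N i).trans (Nat.pow_le_pow_right (by norm_num) (by omega)))
    (fun x => sEval p l (Om τ (XA P τ N σ τ0 C x)) s0) (by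
      have h1 := hb P τ N σ τ0 C hC N e2 s0 hs0l.le
      rwa [hlk] at h1)
    cont (by
      intro c x x' hxx
      simp only [cont]
      split_ifs with h
      · apply cnt_agree h.choose _ hxx
        have := h.choose_spec.1
        omega
      · rfl)
  refine finish hC e0 hbm hs hσ x ?_ ?_
  · intro z hz
    apply val_act_D hC hd (n := 2 ^ N') x _ (hσ τ) z hz
    intro z hz hL
    rw [hx1 (rk z) (rk_pos z) hz]
    have h : ∃ z', rk z' = rk z ∧ N ≤ Lz P τ (false :: z') := ⟨z, rfl, hL⟩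
    simp only [cont]
    rw [dif_pos h, rk_inj _ _ h.choose_spec.1]
  · rw [hkap]
    intro h
    apply hx2
    rw [← h]
    unfold mach
    rw [if_pos hd]

/-- One requirement. -/
theorem step_all (P : Par) (τ0 : Lang) (τ : Ty) (p' p : PIx) (l : List NIx)
    (hl : l.length = mlen τ) (N0 : ℕ) (σ : Lang) (hs : ∀ v, isTab v → σ v = τ0 v)
    (hσ : ∀ τ z, val P.Bp τ σ z = cnt τ σ z) :
    ∃ (N' : ℕ) (X : Lang), N0 < N' ∧ (∀ v : Str, v.length < N0 → X v = σ v) ∧
    (∀ v, isTab v → X v = τ0 v) ∧ (∀ τ' z, val P.Bp τ' X z = cnt τ' X z) ∧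
    ∃ s, ∀ X' : Lang, (∀ v : Str, v.length < N' → X' v = X v) →
      mach τ p' p l X' s ≠ Dt τ X' s := by
  have h : StepC P τ0 τ p' p l N0 σ := by
    by_cases hd : τ.2.1 = true
    · exact step_D P τ0 τ hd p' p l hl N0 σ hs hσ
    · exact step_S P τ0 τ hd p' p l hl N0 σ hs hσ
  obtain ⟨N', X, h1, h2, h3, h4, s, h5⟩ := h
  obtain ⟨X1, g1, g2, g3⟩ := trivial_window P τ0 X N' h3 h4
  refine ⟨N', X1, h1, fun v hv => ?_, g2, g3, s, fun X' hX' => h5 X' fun v hv => ?_⟩
  · rw [g1 v (by omega), h2 v hv]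
  · rw [hX' v hv, g1 v hv]

end Pool.Agent.Lib.Pa76659P
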