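import Pool.Agent.Lib.Pa76659P.Par

/-!
Windows: all table bits of length at least `N` are chosen, the oracle is fixed below `N`.
-/

set_option maxHeartbeats 4000000

namespace Pool.Agent.Lib.Pa76659P

open Pool.Agent.Lib.Pa76659 Pool.Agent.Lib.Pa76659.Hier

/-- content coded by the code of `z` -/
noncomputable def ctt (τ : Ty) (X : Lang) (z : Str) : Bool :=
  if τ.2.1 = true then
    (match z with
      | false :: z' => cnt τ X z'
      | _ => false)
  else cnt τ X z

theorem ctt_loc (P : Par) (τ : Ty) (z : Str) (X X' : Lang)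
    (h : ∀ v : Str, v.length ≤ Lz P τ z → X v = X' v) : ctt τ X z = ctt τ X' z := by
  unfold ctt
  by_cases h1 : τ.2.1 = true
  · rw [if_pos h1, if_pos h1]
    rcases z with _ | ⟨b, z'⟩
    · rfl
    · cases b
      · exact P.loc τ z' X X' fun v hv => h v (hv.trans (Lz_mono P τ (by simp)))
      · rfl
  · rw [if_neg h1, if_neg h1]
    exact P.loc τ z X X' h

theorem ctt_isC (P : Par) (τ : Ty) (C : Lang) (fx : Str → Option Bool)
    (hA : τ.1 ≠ true → ∃ a, ∀ Y, Aw τ (mkW C fx Y) = a) (z : Str) :
    IsC (SL (Lz P τ z)) (Lz P τ z) (Lz P τ z) (clev τ) (fun Y => ctt τ (mkW C fx Y) z) := by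
  unfold ctt
  by_cases h1 : τ.2.1 = true
  · simp only [h1, if_true]
    rcases z with _ | ⟨b, z'⟩
    · exact IsC.const _ _ _ _ _
    · cases b
      · have h2 := P.cpx τ C fx hA z'
        have h3 : Lz P τ z' ≤ Lz P τ (false :: z') := Lz_mono P τ (by simp)
        exact h2.mono (SL_mono h3) h3 h3
      · exact IsC.const _ _ _ _ _
  · simp only [if_neg h1]
    exact P.cpx τ C fx hA z

theorem valid_of_lt (s : Str) : ∀ u : List ℕ, (∀ a ∈ u, a < 2 ^ s.length) → Valid s u
  | [], _ => trivial
  | y :: u, h => by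
      refine ⟨(h y (by simp)).trans_le ?_, valid_of_lt s u fun a ha => h a (by simp [ha])⟩
      apply Nat.pow_le_pow_right (by norm_num)
      rw [es_length]
      exact Nat.le_mul_of_pos_right _ (by positivity)

theorem es_bas_inj (P : Par) (τ : Ty) {z z' : Str} {u u' : List ℕ} (hl : u.length = u'.length)
    (hu : Valid (bas P τ z) u) (hu' : Valid (bas P τ z') u')
    (h : es (bas P τ z) u = es (bas P τ z') u') : z = z' ∧ u = u' := by
  obtain ⟨r, hr⟩ := es_prefix (bas P τ z) u
  obtain ⟨r', hr'⟩ := es_prefix (bas P τ z') u'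
  have h1 : code 0 (P.eb τ) z ++ r = code 0 (P.eb τ) z' ++ r' := by
    rw [← show bas P τ z = code 0 (P.eb τ) z from rfl,
      ← show bas P τ z' = code 0 (P.eb τ) z' from rfl, ← hr, ← hr', h]
  have h2 := (code_append_inj h1).2
  subst h2
  exact ⟨rfl, es_inj _ _ _ hl hu hu' h⟩

theorem bas_le_es (P : Par) (τ : Ty) (z : Str) (u : List ℕ) :
    (bas P τ z).length ≤ (es (bas P τ z) u).length := by
  rw [es_length]
  exact Nat.le_mul_of_pos_right _ (by positivity)

/-- data of a window -/
structure Wd (P : Par) where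
  N : ℕ
  σ : Lang
  fx : Str → Option Bool
  act : Ty → Prop
  tf : Ty → Str → (Str → Bool) → Bool
  hfx : ∀ u : Str, u.length + 1 < N → fx u = some (σ (true :: u))
  hreg : ∀ τ : Ty, ¬ act τ → ∀ v : Str, ∃ b,
    fx (List.replicate (2 * (idx τ + 1) + 1) true ++ false :: v) = some b
  htf : ∀ τ : Ty, act τ → ∀ z : Str, N ≤ Lz P τ z →
    ∃ T, Enc (τ.2.2 + 1) (tf τ z) (code (2 * idx τ) (P.Bp τ) z) T

variable {P : Par}

namespace Wd

theorem Aw_const (D : Wd P) (C : Lang) {τ : Ty} (hτ : ¬ D.act τ) (h : τ.1 ≠ true) :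
    ∃ a, ∀ Y, Aw τ (mkW C D.fx Y) = a := by
  refine ⟨Aw τ (mkW C D.fx (fun _ => false)), fun Y => ?_⟩
  unfold Aw
  rw [if_neg h, if_neg h]
  congr 1
  funext v
  obtain ⟨b, hb⟩ := D.hreg τ hτ v
  unfold reg
  have e : List.replicate (2 * (idx τ + 1) + 2) true ++ false :: v =
      true :: (List.replicate (2 * (idx τ + 1) + 1) true ++ false :: v) := by
    rw [List.replicate_succ]; rfl
  rw [e]
  simp only [mkW, hb, Option.getD_some]

open Classical in
/-- chosen decomposition -/
noncomputable def decG (k L : ℕ) (f : (Str → Bool) → Bool) : List ℕ → (Str → Bool) → Bool :=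
  if h : ∃ g : List ℕ → (Str → Bool) → Bool, (∀ p, IsC (SL L) L L 1 (g p)) ∧
      ∀ Y, f Y = tr (fun _ => 2 ^ L) k (fun p => g p Y) [] then h.choose else fun _ _ => false

theorem decG_isC (k L : ℕ) (f : (Str → Bool) → Bool) (p : List ℕ) :
    IsC (SL L) L L 1 (decG k L f p) := by
  unfold decG
  split_ifs with h
  · exact h.choose_spec.1 p
  · exact IsC.const _ _ _ _ _

theorem decG_spec {k L : ℕ} {f : (Str → Bool) → Bool} (h : IsC (SL L) L L (k + 1) f)
    (Y : Str → Bool) : f Y = tr (fun _ => 2 ^ L) k (fun p => decG k L f p Y) [] := by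
  have h1 := exists_dec k h
  unfold decG
  rw [dif_pos h1]
  exact h1.choose_spec.2 Y

/-- names used for the decomposition of the contents -/
def Nmd (D : Wd P) (τ : Ty) (u : Str) (q : Str × List ℕ) : Prop :=
  D.N ≤ Lz P τ q.1 ∧ q.2.length = τ.2.2 + 1 ∧ (∀ a ∈ q.2, a < 2 ^ Lz P τ q.1) ∧
    es (bas P τ q.1) q.2 = u

open Classical in
/-- target of the codes -/
noncomputable def tgA (D : Wd P) (τ : Ty) (z : Str) (C : Lang) : (Str → Bool) → Bool :=
  if D.act τ then
    (if D.N ≤ Lz P τ z then D.tf τ z else fun _ => ctt τ (mkW C D.fx (fun _ => false)) z)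
  else if τ.1 = true then
    (if D.N ≤ Lz P τ z then
      fun U => tr (fun _ => 2 ^ Lz P τ z) (τ.2.2 + 1) (fun p => U (es (bas P τ z) p)) []
    else fun _ => ctt τ (mkW C D.fx (fun _ => false)) z)
  else fun Y => ctt τ (mkW C D.fx Y) z

open Classical in
/-- target of the codes for the bits of the witness -/
noncomputable def tgB (D : Wd P) (τ : Ty) (u : Str) (C : Lang) : (Str → Bool) → Bool :=
  if u.length < D.N then fun _ => Aw τ D.σ u
  else if D.act τ then fun Y => Y (true :: false :: u)
  else if τ.1 ≠ true then fun _ => false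
  else if h : ∃ q, D.Nmd τ u q then
    decG (τ.2.2 + 1) (Lz P τ h.choose.1) (fun Y => ctt τ (mkW C D.fx Y) h.choose.1) h.choose.2
  else fun _ => false

/-- the type of a code index -/
def tyO (j : ℕ) : Option Ty := Encodable.decode₂ Ty (j / 2)

noncomputable def tgt (D : Wd P) (j : ℕ) (z : Str) (C : Lang) : (Str → Bool) → Bool :=
  match tyO j with
  | none => fun _ => false
  | some τ => if j % 2 = 0 then D.tgA τ z C else D.tgB τ z C

def lev (j : ℕ) : ℕ :=
  match tyO j with
  | none => 0
  | some τ => if j % 2 = 0 then τ.2.2 else 0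

def ex (P : Par) (j : ℕ) : ℕ :=
  match tyO j with
  | none => 2
  | some τ => if j % 2 = 0 then P.Bp τ else 2

theorem tyO_even (τ : Ty) : tyO (2 * idx τ) = some τ := by
  unfold tyO idx
  rw [show 2 * Encodable.encode τ / 2 = Encodable.encode τ by omega]
  exact Encodable.encodek₂ τ

theorem tyO_odd (τ : Ty) : tyO (2 * idx τ + 1) = some τ := by
  unfold tyO idx
  rw [show (2 * Encodable.encode τ + 1) / 2 = Encodable.encode τ by omega]
  exact Encodable.encodek₂ τ

theorem tyO_some {j : ℕ} {τ : Ty} (h : tyO j = some τ) :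
    j = 2 * idx τ ∨ j = 2 * idx τ + 1 := by
  have h1 : Encodable.encode τ = j / 2 := Encodable.mem_decode₂.1 h
  unfold idx
  omega

theorem lev_even (τ : Ty) : lev (2 * idx τ) = τ.2.2 := by
  unfold lev; rw [tyO_even]; simp

theorem lev_odd (τ : Ty) : lev (2 * idx τ + 1) = 0 := by
  unfold lev; rw [tyO_odd]; simp

theorem ex_even (τ : Ty) : ex P (2 * idx τ) = P.Bp τ := by
  unfold ex; rw [tyO_even]; simp

theorem ex_odd (τ : Ty) : ex P (2 * idx τ + 1) = 2 := by
  unfold ex; rw [tyO_odd]; simp

theorem tgt_even (D : Wd P) (τ : Ty) (z : Str) (C : Lang) :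
    D.tgt (2 * idx τ) z C = D.tgA τ z C := by
  unfold tgt; rw [tyO_even]; simp

theorem tgt_odd (D : Wd P) (τ : Ty) (z : Str) (C : Lang) :
    D.tgt (2 * idx τ + 1) z C = D.tgB τ z C := by
  unfold tgt; rw [tyO_odd]; simp

/-- length of the table strings -/
def tlA (P : Par) (τ : Ty) (z : Str) : ℕ :=
  2 ^ (τ.2.2 + 1) * (code (2 * idx τ) (P.Bp τ) z).length + 1

theorem tl_even (τ : Ty) (z : Str) : tl lev (ex P) (2 * idx τ) z = tlA P τ z := by
  unfold tl tlA; rw [lev_even, ex_even]

theorem exists_enc_const (κ : ℕ) (s : Str) (hs : 1 ≤ s.length) (b : Bool) :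
    ∃ T, Enc (κ + 1) (fun _ => b) s T := by
  apply exists_enc (m := 0) (w := 0) (t := 0) (IsC.const _ _ _ _ _)
  simpa using hs

theorem one_le_code (j B : ℕ) (z : Str) : 1 ≤ (code j B z).length := by
  rw [code_length]; omega

theorem fourth (a : ℕ) : 3 * a * a + 5 * a + 16 ≤ (a + 2) ^ (2 ^ 2) := by
  have : (a + 2) ^ (2 ^ 2) = a ^ 4 + 8 * a ^ 3 + 24 * (a * a) + 32 * a + 16 := by ring
  rw [this]
  have h1 : 3 * a * a = 3 * (a * a) := by ring
  rw [h1]
  have h2 : 0 ≤ a * a := Nat.zero_le _
  have h3 : 0 ≤ a ^ 4 := Nat.zero_le _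
  have h4 : 0 ≤ a ^ 3 := Nat.zero_le _
  omega

theorem hE_A (D : Wd P) (τ : Ty) (z : Str) (C : Lang) :
    ∃ T, Enc (τ.2.2 + 1) (D.tgA τ z C) (code (2 * idx τ) (P.Bp τ) z) T := by
  have hneed := need_le_code P τ z (2 * idx τ)
  unfold need at hneed
  unfold tgA
  split_ifs with h1 h2 h3 h4
  · exact D.htf τ h1 z h2
  · exact exists_enc_const _ _ (one_le_code _ _ _) _
  · apply exists_enc (m := (bas P τ z).length * 2 ^ (τ.2.2 + 1)) (w := Lz P τ z) (t := 1)
    · apply tr_isC (fun _ => 2 ^ Lz P τ z) (fun p => es (bas P τ z) p) (τ.2.2 + 1) []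
        (fun _ _ => le_rfl) (by simp)
      intro p hp _
      show (es (bas P τ z) p).length ≤ _
      rw [es_length, hp]
      simp
    · have h5 : Lz P τ z * 1 ≤ Lz P τ z * 2 ^ (τ.2.2 + 2) :=
        Nat.mul_le_mul_left _ Nat.one_le_two_pow
      omega
  · exact exists_enc_const _ _ (one_le_code _ _ _) _
  · have h5 := ctt_isC P τ C D.fx (D.Aw_const C h1) z
    unfold clev at h5
    rw [if_neg h3] at h5
    exact exists_enc h5 _ (by omega)

theorem hE_B (D : Wd P) (τ : Ty) (u : Str) (C : Lang) :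
    ∃ T, Enc (0 + 1) (D.tgB τ u C) (code (2 * idx τ + 1) 2 u) T := by
  have h4 := fourth u.length
  have h5 : (code (2 * idx τ + 1) 2 u).length =
      2 * idx τ + 1 + 3 + (u.length + 2) ^ (2 ^ 2) + u.length := code_length _ _ _
  unfold tgB
  split_ifs with h1 h2 h3 h6
  · exact exists_enc_const _ _ (one_le_code _ _ _) _
  · apply exists_enc (m := u.length + 2) (w := 0) (t := 1)
    · apply IsC.lift
      refine ⟨DT.node (true :: false :: u) (DT.leaf false) (DT.leaf true), by simp [DT.depth],
        ⟨?_, trivial, trivial⟩, fun Y => ?_⟩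
      · show (true :: false :: u : Str).length ≤ _
        simp
      · simp only [DT.eval]
        cases Y (true :: false :: u) <;> rfl
    · rw [h5]
      have h7 : 0 ≤ 3 * u.length * u.length := Nat.zero_le _
      omega
  · exact exists_enc_const _ _ (one_le_code _ _ _) _
  · obtain ⟨h7, h8, h9, h10⟩ := h6.choose_spec
    apply exists_enc (decG_isC _ _ _ _)
    have h11 := bas_le_es P τ h6.choose.1 h6.choose.2
    rw [h10] at h11
    have h12 := Lz_le_bas P τ h6.choose.1
    set L := Lz P τ h6.choose.1 with hL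
    have h13 : L ≤ u.length := by omega
    rw [h5]
    have h14 : L * (3 * L + 3) ≤ u.length * (3 * u.length + 3) :=
      Nat.mul_le_mul h13 (by omega)
    have h15 : u.length * (3 * u.length + 3) = 3 * u.length * u.length + 3 * u.length := by ring
    omega
  · exact exists_enc_const _ _ (one_le_code _ _ _) _

theorem hE (D : Wd P) (j : ℕ) (z : Str) (C : Lang) :
    ∃ T, Enc (lev j + 1) (D.tgt j z C) (code j (ex P j) z) T := by
  cases hj : tyO j with
  | none =>
      unfold tgt lev
      rw [hj]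
      exact exists_enc_const _ _ (one_le_code _ _ _) _
  | some τ =>
      rcases tyO_some hj with rfl | rfl
      · rw [tgt_even, lev_even, ex_even]
        exact D.hE_A τ z C
      · rw [tgt_odd, lev_odd, ex_odd]
        exact D.hE_B τ z C

theorem hloc (D : Wd P) (j : ℕ) (z : Str) (C C' : Lang)
    (h : ∀ v : Str, v.length < tl lev (ex P) j z → C v = C' v) :
    D.tgt j z C = D.tgt j z C' := by
  have hw : ∀ τ z', Lz P τ z' < tl lev (ex P) j z → ∀ Y,
      ctt τ (mkW C D.fx Y) z' = ctt τ (mkW C' D.fx Y) z' := by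
    intro τ z' hl Y
    apply ctt_loc P
    intro v hv
    exact mkW_congr D.fx Y (h v (by omega))
  cases hj : tyO j with
  | none => unfold tgt; rw [hj]
  | some τ =>
      have hct := code_le_tl lev (ex P) j z
      rcases tyO_some hj with rfl | rfl
      · rw [ex_even] at hct
        have h1 : Lz P τ z < tl lev (ex P) (2 * idx τ) z := by
          have := Lz_le_bas P τ z
          have := bas_le_code P τ z (2 * idx τ)
          omega
        rw [tgt_even, tgt_even]
        unfold tgA
        simp only [hw τ z h1]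
      · rw [ex_odd] at hct
        rw [tgt_odd, tgt_odd]
        unfold tgB
        split_ifs with h1 h2 h3 h6
        · rfl
        · rfl
        · rfl
        · obtain ⟨h7, h8, h9, h10⟩ := h6.choose_spec
          have h11 := bas_le_es P τ h6.choose.1 h6.choose.2
          rw [h10] at h11
          have h12 := Lz_le_bas P τ h6.choose.1
          have h5 : (code (2 * idx τ + 1) 2 z).length =
            2 * idx τ + 1 + 3 + (z.length + 2) ^ (2 ^ 2) + z.length := code_length _ _ _
          have h13 : Lz P τ h6.choose.1 < tl lev (ex P) (2 * idx τ + 1) z := by omega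
          simp only [hw τ h6.choose.1 h13]
        · rfl

end Wd

end Pool.Agent.Lib.Pa76659P
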