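import Pool.Agent.Lib.Pa76659P.Win

/-!
Properties of the oracles of a window.
-/

set_option maxHeartbeats 4000000
set_option linter.unusedSectionVars false

namespace Pool.Agent.Lib.Pa76659P

open Pool.Agent.Lib.Pa76659 Pool.Agent.Lib.Pa76659.Hier

variable {P : Par}

namespace Wd

/-- the table bits do what they should -/
structure Good (D : Wd P) (C : Lang) : Prop where
  low : ∀ v : Str, v.length < D.N → C v = D.σ v
  codeA : ∀ (τ : Ty) (z : Str), D.N ≤ tlA P τ z → ∀ Z : Lang,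
    (∀ w : Str, Z (false :: w) = C (false :: w)) →
    J (τ.2.2 + 1) Z (code (2 * idx τ) (P.Bp τ) z) = D.tgA τ z C (fun u => Z (true :: u))
  codeB : ∀ (τ : Ty) (u : Str), D.N ≤ 2 * (code (2 * idx τ + 1) 2 u).length + 1 → ∀ Z : Lang,
    (∀ w : Str, Z (false :: w) = C (false :: w)) →
    J 1 Z (code (2 * idx τ + 1) 2 u) = D.tgB τ u C (fun v => Z (true :: v))

theorem exists_good (D : Wd P) : ∃ C, D.Good C := by
  obtain ⟨C, h1, h2⟩ := exists_C D.σ D.N lev (ex P) D.tgt D.hE D.hloc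
  refine ⟨C, h1, ?_, ?_⟩
  · intro τ z hN Z hZ
    have h3 := h2 (2 * idx τ) z (by rw [tl_even]; exact hN) Z hZ
    rwa [lev_even, ex_even, tgt_even] at h3
  · intro τ u hN Z hZ
    have h3 := h2 (2 * idx τ + 1) u (by unfold tl; rw [lev_odd, ex_odd]; simpa using hN) Z hZ
    rwa [lev_odd, ex_odd, tgt_odd] at h3

variable {D : Wd P} {C : Lang} (hC : D.Good C)

include hC

theorem mk_low (Y : Str → Bool) (v : Str) (hv : v.length < D.N) : mkW C D.fx Y v = D.σ v := by
  rcases v with _ | ⟨b, u⟩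
  · exact hC.low _ hv
  · cases b
    · exact hC.low _ hv
    · simp only [mkW]
      rw [D.hfx u (by simpa using hv)]
      rfl

theorem Aw_low (Y : Str → Bool) (τ : Ty) (h : τ.1 = true) (u : Str) (hu : u.length < D.N) :
    Aw τ (mkW C D.fx Y) u = Aw τ D.σ u := by
  by_cases hN : D.N ≤ 2 * (code (2 * idx τ + 1) 2 u).length + 1
  · have h1 := hC.codeB τ u hN (mkW C D.fx Y) (fun w => rfl)
    unfold tgB at h1
    rw [if_pos hu] at h1
    rw [← h1]
    unfold Aw
    rw [if_pos h]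
  · unfold Aw
    rw [if_pos h, if_pos h]
    apply J_congr
    intro v hv
    apply mk_low hC
    rw [pow_one] at hv
    omega

theorem Aw_act (Y : Str → Bool) {τ : Ty} (h : τ.1 = true) (ha : D.act τ) (u : Str)
    (hu : D.N ≤ u.length) :
    Aw τ (mkW C D.fx Y) u = mkW C D.fx Y (true :: true :: false :: u) := by
  have h1 := hC.codeB τ u (by rw [code_length]; omega) (mkW C D.fx Y) (fun w => rfl)
  unfold tgB at h1
  rw [if_neg (by omega), if_pos ha] at h1
  beta_reduce at h1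
  rw [← h1]
  unfold Aw
  rw [if_pos h]

theorem Aw_inact (Y : Str → Bool) {τ : Ty} (h : τ.1 = true) (ha : ¬ D.act τ) (z : Str)
    (p : List ℕ) (hz : D.N ≤ Lz P τ z) (hp : p.length = τ.2.2 + 1)
    (hp2 : ∀ a ∈ p, a < 2 ^ Lz P τ z) :
    Aw τ (mkW C D.fx Y) (es (bas P τ z) p) =
      decG (τ.2.2 + 1) (Lz P τ z) (fun Y => ctt τ (mkW C D.fx Y) z) p
        (fun u => mkW C D.fx Y (true :: u)) := by
  have h0 := bas_le_es P τ z p
  have h0' := Lz_le_bas P τ z
  have h1 := hC.codeB τ (es (bas P τ z) p) (by rw [code_length]; omega) (mkW C D.fx Y)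
    (fun w => rfl)
  unfold tgB at h1
  have h2 : ∃ q, D.Nmd τ (es (bas P τ z) p) q := ⟨(z, p), hz, hp, hp2, rfl⟩
  rw [if_neg (by omega), if_neg ha, if_neg (by simp [h]), dif_pos h2] at h1
  obtain ⟨h3, h4, h5, h6⟩ := h2.choose_spec
  have hv : ∀ z' (q : List ℕ), (∀ a ∈ q, a < 2 ^ Lz P τ z') → Valid (bas P τ z') q := by
    intro z' q hq
    apply valid_of_lt
    intro a ha
    exact (hq a ha).trans_le (Nat.pow_le_pow_right (by norm_num) (Lz_le_bas P τ z').le)
  obtain ⟨h7, h8⟩ := es_bas_inj P τ (h4.trans hp.symm) (hv _ _ h5) (hv _ _ hp2) h6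
  rw [h7, h8] at h1
  rw [← h1]
  unfold Aw
  rw [if_pos h]

theorem Yd_tab (Y : Str → Bool) (τ : Ty) (w : Str) :
    Yd τ (mkW C D.fx Y) (false :: w) = C (false :: w) := by
  unfold Yd
  split_ifs
  · rfl
  · rfl

theorem cd_inact (Y : Str → Bool) {τ : Ty} (ha : ¬ D.act τ) (z : Str)
    (hN : D.N ≤ tlA P τ z) : cd P.Bp τ (mkW C D.fx Y) z = ctt τ (mkW C D.fx Y) z := by
  have h1 := hC.codeA τ z hN (Yd τ (mkW C D.fx Y)) (Yd_tab hC Y τ)
  unfold cd
  rw [h1]
  unfold tgA
  rw [if_neg ha]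
  by_cases h : τ.1 = true
  · rw [if_pos h]
    by_cases hL : D.N ≤ Lz P τ z
    · rw [if_pos hL]
      have h2 := ctt_isC P τ C D.fx (fun h' => absurd h h') z
      unfold clev at h2
      rw [if_pos h] at h2
      have h3 := decG_spec h2 (fun u => mkW C D.fx Y (true :: u))
      beta_reduce at h3
      rw [mkW_self] at h3
      rw [h3]
      apply tr_congr _ (2 ^ Lz P τ z)
      · intro _ _; exact le_rfl
      · simp
      · intro v hv hv2
        show Yd τ (mkW C D.fx Y) (true :: es (bas P τ z) v) = _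
        unfold Yd
        rw [if_pos h]
        show Aw τ (mkW C D.fx Y) (es (bas P τ z) v) = _
        exact Aw_inact hC Y h ha z v hL (by simpa using hv) hv2
    · rw [if_neg hL]
      apply ctt_loc P
      intro v hv
      rw [mk_low hC _ v (by omega), mk_low hC _ v (by omega)]
  · rw [if_neg h]
    have e : (fun u => Yd τ (mkW C D.fx Y) (true :: u)) = fun u => mkW C D.fx Y (true :: u) := by
      unfold Yd
      rw [if_neg h]
    rw [e, mkW_self]

theorem cd_act_const (Y : Str → Bool) {τ : Ty} (ha : D.act τ) (z : Str)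
    (hN : D.N ≤ tlA P τ z) (hL : Lz P τ z < D.N) :
    cd P.Bp τ (mkW C D.fx Y) z = ctt τ (mkW C D.fx Y) z := by
  have h1 := hC.codeA τ z hN (Yd τ (mkW C D.fx Y)) (Yd_tab hC Y τ)
  unfold cd
  rw [h1]
  unfold tgA
  rw [if_pos ha, if_neg (by omega)]
  apply ctt_loc P
  intro v hv
  rw [mk_low hC _ v (by omega), mk_low hC _ v (by omega)]

theorem cd_act (Y : Str → Bool) {τ : Ty} (ha : D.act τ) (z : Str) (hL : D.N ≤ Lz P τ z) :
    cd P.Bp τ (mkW C D.fx Y) z = D.tf τ z (fun u => Yd τ (mkW C D.fx Y) (true :: u)) := by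
  have h0 := Lz_le_bas P τ z
  have h0' := bas_le_code P τ z (2 * idx τ)
  have hN : D.N ≤ tlA P τ z := by
    unfold tlA
    have : 1 ≤ 2 ^ (τ.2.2 + 1) := Nat.one_le_two_pow
    nlinarith
  have h1 := hC.codeA τ z hN (Yd τ (mkW C D.fx Y)) (Yd_tab hC Y τ)
  unfold cd
  rw [h1]
  unfold tgA
  rw [if_pos ha, if_pos hL]

theorem cd_low (Y : Str → Bool) (τ : Ty) (z : Str) (hN : tlA P τ z < D.N) :
    cd P.Bp τ (mkW C D.fx Y) z = cd P.Bp τ D.σ z := by
  unfold cd
  apply J_congr
  intro v hv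
  have hv2 : v.length < D.N := by unfold tlA at hN; omega
  unfold Yd
  by_cases h : τ.1 = true
  · rw [if_pos h, if_pos h]
    rcases v with _ | ⟨b, u⟩
    · exact mk_low hC Y _ hv2
    · cases b
      · exact mk_low hC Y _ hv2
      · refine Aw_low hC Y τ h u ?_
        simp only [List.length_cons] at hv2
        omega
  · rw [if_neg h, if_neg h]
    exact mk_low hC Y _ hv2

omit hC in
theorem Lz_lt_tlA (τ : Ty) (z : Str) : Lz P τ z < tlA P τ z := by
  have h0 := Lz_le_bas P τ z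
  have h0' := bas_le_code P τ z (2 * idx τ)
  unfold tlA
  have : 1 ≤ 2 ^ (τ.2.2 + 1) := Nat.one_le_two_pow
  nlinarith

theorem cnt_low (Y : Str → Bool) (τ : Ty) (z : Str) (hN : Lz P τ z < D.N) :
    cnt τ (mkW C D.fx Y) z = cnt τ D.σ z := by
  apply P.loc τ z
  intro v hv
  exact mk_low hC Y v (by unfold Lz at hN; omega)

omit hC in
theorem tlA_cons (τ : Ty) (z : Str) (b b' : Bool) : tlA P τ (b :: z) = tlA P τ (b' :: z) := by
  unfold tlA
  rw [code_length, code_length]
  rfl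

omit hC in
theorem tlA_le_cons (τ : Ty) (z : Str) (b : Bool) : tlA P τ z ≤ tlA P τ (b :: z) := by
  unfold tlA
  apply Nat.succ_le_succ
  apply Nat.mul_le_mul_left
  rw [code_length, code_length, List.length_cons]
  have : (z.length + 2) ^ (2 ^ P.Bp τ) ≤ (z.length + 1 + 2) ^ (2 ^ P.Bp τ) :=
    Nat.pow_le_pow_left (by omega) _
  omega

/-- the code is in order -/
theorem val_inact (Y : Str → Bool) {τ : Ty} (ha : ¬ D.act τ) (z : Str)
    (hσ : ∀ z, (if τ.2.1 = true then tlA P τ (false :: z) else tlA P τ z) < D.N →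
      val P.Bp τ D.σ z = cnt τ D.σ z) :
    val P.Bp τ (mkW C D.fx Y) z = cnt τ (mkW C D.fx Y) z := by
  by_cases hd : τ.2.1 = true
  · have hσz := hσ z
    rw [if_pos hd] at hσz
    unfold val at hσz ⊢
    rw [if_pos hd] at hσz ⊢
    by_cases hN : D.N ≤ tlA P τ (false :: z)
    · rw [cd_inact hC Y ha _ hN, cd_inact hC Y ha _ (by rw [tlA_cons τ z true false]; exact hN)]
      unfold ctt
      simp [hd]
    · push Not at hN
      rw [cd_low hC Y τ _ hN, cd_low hC Y τ _ (by rw [tlA_cons τ z true false]; exact hN),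
        hσz hN]
      refine (cnt_low hC Y τ z ?_).symm
      have h1 := Lz_lt_tlA (P := P) τ z
      have h2 := tlA_le_cons (P := P) τ z false
      omega
  · have hσz := hσ z
    rw [if_neg hd] at hσz
    unfold val at hσz ⊢
    rw [if_neg hd] at hσz ⊢
    by_cases hN : D.N ≤ tlA P τ z
    · rw [cd_inact hC Y ha _ hN]
      unfold ctt
      rw [if_neg hd]
    · push Not at hN
      rw [cd_low hC Y τ _ hN, hσz hN]
      refine (cnt_low hC Y τ z ?_).symm
      have h1 := Lz_lt_tlA (P := P) τ z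
      omega

end Wd

end Pool.Agent.Lib.Pa76659P
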